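import Pool.Agent.N579.WL.Law

/-!
# The union bound over the partitions
-/

set_option autoImplicit false

namespace Pool.Agent.N579.WL

open Finset

variable {n : ℕ}

/-- A large set of disjoint pairs of vertices which lie in common classes. -/
theorem exists_tau (ρ : Fin n → Fin n) (hid : ∀ x, ρ (ρ x) = ρ x) :
    ∃ τ : Fin n → Fin n, (∀ x, τ (τ x) = x) ∧ (∀ x, ρ (τ x) = ρ x) ∧
      defect ρ ≤ 2 * (univ.filter fun x => τ x < x).card := by
  classical
  let S : Finset (Fin n → Fin n) := univ.filter fun τ => (∀ x, τ (τ x) = x) ∧ ∀ x, ρ (τ x) = ρ x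
  have hS : S.Nonempty := ⟨id, by simp [S]⟩
  obtain ⟨τ, hτ, hmax⟩ := Finset.exists_max_image S
    (fun τ => (univ.filter fun x => τ x ≠ x).card) hS
  have hτ' : (∀ x, τ (τ x) = x) ∧ ∀ x, ρ (τ x) = ρ x := by simpa [S] using hτ
  obtain ⟨h1, h2⟩ := hτ'
  refine ⟨τ, h1, h2, ?_⟩
  have hinj : ∀ x y, τ x = x → τ y = y → ρ x = ρ y → x = y := by
    intro x y hx hy hxy
    by_contra hne
    let τ' : Fin n → Fin n := fun z => if z = x then y else if z = y then x else τ z
    have e1 : τ' x = y := by simp [τ']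
    have e2 : τ' y = x := by
      show (if y = x then y else if y = y then x else τ y) = x
      rw [if_neg (Ne.symm hne), if_pos rfl]
    have e3 : ∀ z, z ≠ x → z ≠ y → τ' z = τ z := by
      intro z h3 h4
      show (if z = x then y else if z = y then x else τ z) = τ z
      rw [if_neg h3, if_neg h4]
    have h3 : τ' ∈ S := by
      simp only [S, mem_filter, mem_univ, true_and]
      refine ⟨fun z => ?_, fun z => ?_⟩
      · by_cases hz : z = x
        · rw [hz, e1, e2]
        · by_cases hz' : z = y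
          · rw [hz', e2, e1]
          · rw [e3 z hz hz', e3, h1]
            · intro h
              apply hz
              rw [← h1 z, h, hx]
            · intro h
              apply hz'
              rw [← h1 z, h, hy]
      · by_cases hz : z = x
        · rw [hz, e1, hxy]
        · by_cases hz' : z = y
          · rw [hz', e2, hxy]
          · rw [e3 z hz hz', h2]
    have h4 := hmax τ' h3
    have h5 : insert x (univ.filter fun z => τ z ≠ z) ⊆ univ.filter fun z => τ' z ≠ z := by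
      intro z hz
      rw [mem_insert] at hz
      simp only [mem_filter, mem_univ, true_and] at hz ⊢
      rcases hz with rfl | hz
      · rw [e1]
        exact Ne.symm hne
      · rw [e3 z (fun h => hz (h ▸ hx)) (fun h => hz (h ▸ hy))]
        exact hz
    have h6 := Finset.card_le_card h5
    rw [Finset.card_insert_of_notMem (by simp [hx])] at h6
    omega
  have hfix : (univ.filter fun x => τ x = x).card ≤ (univ.filter fun x => ρ x = x).card := by
    refine Finset.card_le_card_of_injOn ρ ?_ ?_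
    · intro x _
      simp [hid x]
    · intro x hx y hy hxy
      simp only [coe_filter, mem_univ, true_and, Set.mem_ofPred_eq] at hx hy
      exact hinj x y hx hy hxy
  have hmv : (univ.filter fun x => τ x ≠ x).card =
      (univ.filter fun x => τ x < x).card + (univ.filter fun x => x < τ x).card := by
    rw [← Finset.card_union_of_disjoint]
    · congr 1
      ext x
      simp only [mem_filter, mem_univ, true_and, mem_union]
      exact ne_iff_lt_or_gt
    · rw [Finset.disjoint_left]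
      intro x h3 h4
      simp only [mem_filter, mem_univ, true_and] at h3 h4
      exact lt_asymm h3 h4
  have hsym : (univ.filter fun x => x < τ x).card = (univ.filter fun x => τ x < x).card := by
    refine Finset.card_bij' (fun x _ => τ x) (fun x _ => τ x) ?_ ?_ ?_ ?_
    · intro x hx
      simp only [mem_filter, mem_univ, true_and] at hx ⊢
      rwa [h1]
    · intro x hx
      simp only [mem_filter, mem_univ, true_and] at hx ⊢
      rwa [h1]
    · intro x _
      exact h1 x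
    · intro x _
      exact h1 x
  have h3 := card_reps ρ
  have h4 := Finset.card_filter_add_card_filter_not (s := (univ : Finset (Fin n)))
    (fun x => τ x = x)
  rw [Finset.card_univ, Fintype.card_fin] at h4
  have h5 : (univ.filter fun x => ¬ τ x = x).card = (univ.filter fun x => τ x ≠ x).card := rfl
  omega

theorem card_idx_add (ρ τ : Fin n → Fin n) (hid : ∀ x, ρ (ρ x) = ρ x) :
    (idx ρ τ (· < ·)).card + (idx ρ τ (fun a b => b < a)).card =
      (univ.filter fun x => τ x < x).card * ((univ.filter fun x => ρ x = x).card - 1) := by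
  classical
  have hdis : Disjoint (idx ρ τ (· < ·)) (idx ρ τ (fun a b => b < a)) := by
    rw [Finset.disjoint_left]
    intro p h1 h2
    exact lt_asymm (mem_idx.1 h1).2.2 (mem_idx.1 h2).2.2
  rw [← Finset.card_union_of_disjoint hdis]
  have h1 : idx ρ τ (· < ·) ∪ idx ρ τ (fun a b => b < a) =
      (univ.filter fun x => τ x < x).biUnion fun u =>
        ((univ.filter fun x => ρ x = x).erase (ρ u)).image fun r => (u, r) := by
    ext ⟨u, r⟩
    simp only [mem_union, mem_idx, mem_biUnion, mem_filter, mem_univ, true_and, mem_image,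
      mem_erase, Prod.mk.injEq]
    constructor
    · rintro (⟨h1, h2, h3⟩ | ⟨h1, h2, h3⟩)
      · exact ⟨u, h1, r, ⟨ne_of_gt h3, h2⟩, rfl, rfl⟩
      · exact ⟨u, h1, r, ⟨ne_of_lt h3, h2⟩, rfl, rfl⟩
    · rintro ⟨u', h1, r', ⟨h2, h3⟩, rfl, rfl⟩
      rcases lt_or_gt_of_ne h2 with h4 | h4
      · exact Or.inr ⟨h1, h3, h4⟩
      · exact Or.inl ⟨h1, h3, h4⟩
  rw [h1, Finset.card_biUnion]
  · have h2 : ∀ u ∈ univ.filter (fun x => τ x < x),
        (((univ.filter fun x => ρ x = x).erase (ρ u)).image fun r => (u, r)).card =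
          (univ.filter fun x => ρ x = x).card - 1 := by
      intro u _
      rw [Finset.card_image_of_injective _ (fun a b h => (Prod.mk.injEq _ _ _ _ ▸ h).2),
        Finset.card_erase_of_mem]
      simp [hid u]
    rw [Finset.sum_congr rfl h2, Finset.sum_const, smul_eq_mul]
  · intro a _ b _ hab
    simp only [Finset.disjoint_left, mem_image, mem_erase, mem_filter, mem_univ, true_and, not_exists,
      not_and]
    rintro p ⟨r, _, rfl⟩ r' _ h
    exact hab (congrArg Prod.fst h).symm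

theorem one_sub_le (x : ℝ) (hx : 0 ≤ x) : 1 - x ≤ (2 : ℝ) ^ (-x) := by
  have h1 : (2 : ℝ) ^ (-x) = Real.exp (-x * Real.log 2) := by
    rw [Real.rpow_def_of_pos (by norm_num), mul_comm]
  rw [h1]
  have h2 : 1 - x ≤ Real.exp (-x) := by
    have := Real.add_one_le_exp (-x)
    linarith
  refine h2.trans (Real.exp_le_exp.2 ?_)
  have h3 : Real.log 2 ≤ 1 := by
    have := Real.log_le_sub_one_of_pos (show (0 : ℝ) < 2 by norm_num)
    linarith
  nlinarith

/-- The graphs near to a graph for which a given partition is equitable. -/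
theorem Law.near_le {δ : ℝ} {W : SimpleGraph (Fin n) → ℝ} (hW : Law δ W) (hδ0 : 0 ≤ δ)
    (hδ : δ ≤ 1) (ρ : Fin n → Fin n) (s : ℕ) :
    prob W {G | ∃ H, EqM H ρ ∧ dist G H ≤ s} ≤
      (2 : ℝ) ^ ((s : ℝ) - δ / 8 * ((defect ρ * (n - defect ρ - 1) : ℕ) : ℝ)) := by
  classical
  by_cases hid : ∀ x, ρ (ρ x) = ρ x
  swap
  · have h0 : {G : SimpleGraph (Fin n) | ∃ H, EqM H ρ ∧ dist G H ≤ s} = ∅ := by
      ext G
      simp only [Set.mem_ofPred_eq, Set.mem_empty_iff_false, iff_false]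
      rintro ⟨H, h, _⟩
      exact hid h.idem
    rw [h0]
    unfold prob
    simp only [Set.indicator_empty, Finset.sum_const_zero]
    positivity
  obtain ⟨τ, h1, h2, h3⟩ := exists_tau ρ hid
  have h4 := card_idx_add ρ τ hid
  have h5 : (univ.filter fun x => ρ x = x).card = n - defect ρ := by
    have := card_reps ρ
    omega
  rw [h5] at h4
  obtain ⟨lt, hasym, h6⟩ : ∃ lt : Fin n → Fin n → Prop, (∀ a b, lt a b → ¬ lt b a) ∧
      (univ.filter fun x => τ x < x).card * (n - defect ρ - 1) ≤ 2 * (idx ρ τ lt).card := by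
    rcases le_total (idx ρ τ (· < ·)).card (idx ρ τ (fun a b => b < a)).card with h | h
    · exact ⟨fun a b => b < a, fun a b h => lt_asymm h, by omega⟩
    · exact ⟨(· < ·), fun a b h => lt_asymm h, by omega⟩
  refine (hW.near hδ h1 h2 hasym s).trans ?_
  have h7 : defect ρ * (n - defect ρ - 1) ≤ 4 * (idx ρ τ lt).card := by
    calc defect ρ * (n - defect ρ - 1)
        ≤ 2 * (univ.filter fun x => τ x < x).card * (n - defect ρ - 1) :=
          Nat.mul_le_mul_right _ h3
      _ = 2 * ((univ.filter fun x => τ x < x).card * (n - defect ρ - 1)) := by ring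
      _ ≤ _ := by omega
  have h8 : ((defect ρ * (n - defect ρ - 1) : ℕ) : ℝ) ≤ 4 * ((idx ρ τ lt).card : ℝ) := by
    exact_mod_cast h7
  have h9 : (1 - δ / 2) ^ (idx ρ τ lt).card ≤ (2 : ℝ) ^ (-(δ / 2) * ((idx ρ τ lt).card : ℝ)) := by
    rw [Real.rpow_mul (by norm_num), Real.rpow_natCast]
    exact pow_le_pow_left₀ (by linarith) (one_sub_le _ (by linarith)) _
  calc (2 : ℝ) ^ s * (1 - δ / 2) ^ (idx ρ τ lt).card
      ≤ (2 : ℝ) ^ (s : ℝ) * (2 : ℝ) ^ (-(δ / 2) * ((idx ρ τ lt).card : ℝ)) := by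
        rw [Real.rpow_natCast]
        exact mul_le_mul_of_nonneg_left h9 (by positivity)
    _ = (2 : ℝ) ^ ((s : ℝ) + -(δ / 2) * ((idx ρ τ lt).card : ℝ)) := by
        rw [Real.rpow_add (by norm_num)]
    _ ≤ _ := by
        refine Real.rpow_le_rpow_of_exponent_le (by norm_num) ?_
        nlinarith

/-- The graphs near to a graph with an equitable partition of defect `d`. -/
def NearBad (n d s : ℕ) : Set (SimpleGraph (Fin n)) :=
  {G | ∃ H, (∃ ρ, EqM H ρ ∧ defect ρ = d) ∧ dist G H ≤ s}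

theorem card_maps' (n t : ℕ) :
    (univ.filter fun ρ : Fin n → Fin n => (∀ x, ρ (ρ x) = ρ x) ∧
      (univ.filter fun x => ρ x = x).card = t).card ≤ 2 ^ n * t ^ n := by
  classical
  have h1 : (univ.filter fun ρ : Fin n → Fin n => (∀ x, ρ (ρ x) = ρ x) ∧
      (univ.filter fun x => ρ x = x).card = t) ⊆
        ((univ : Finset (Fin n)).powerset.filter fun R => R.card = t).biUnion fun R =>
          Fintype.piFinset fun _ : Fin n => R := by
    intro ρ hρ
    simp only [mem_filter, mem_univ, true_and] at hρ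
    simp only [mem_biUnion, mem_filter, mem_powerset, Fintype.mem_piFinset]
    exact ⟨univ.filter fun x => ρ x = x, ⟨subset_univ _, hρ.2⟩, fun x => by simp [hρ.1 x]⟩
  refine (Finset.card_le_card h1).trans (Finset.card_biUnion_le.trans ?_)
  have h2 : ∀ R ∈ (univ : Finset (Fin n)).powerset.filter (fun R => R.card = t),
      (Fintype.piFinset fun _ : Fin n => R).card = t ^ n := by
    intro R hR
    rw [Fintype.card_piFinset_const, (mem_filter.1 hR).2]
  rw [Finset.sum_congr rfl h2, Finset.sum_const, smul_eq_mul]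
  refine Nat.mul_le_mul_right _ ((Finset.card_filter_le _ _).trans ?_)
  rw [Finset.card_powerset, Finset.card_univ, Fintype.card_fin]

theorem Law.nearBad_le {δ : ℝ} {W : SimpleGraph (Fin n) → ℝ} (hW : Law δ W) (hδ0 : 0 ≤ δ)
    (hδ : δ ≤ 1) (d s : ℕ) (N : ℕ)
    (hN : (univ.filter fun ρ : Fin n → Fin n => (∀ x, ρ (ρ x) = ρ x) ∧ defect ρ = d).card ≤ N) :
    prob W (NearBad n d s) ≤
      N * (2 : ℝ) ^ ((s : ℝ) - δ / 8 * ((d * (n - d - 1) : ℕ) : ℝ)) := by
  classical
  have h1 : NearBad n d s ⊆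
      ⋃ ρ ∈ univ.filter (fun ρ : Fin n → Fin n => (∀ x, ρ (ρ x) = ρ x) ∧ defect ρ = d),
        {G | ∃ H, EqM H ρ ∧ dist G H ≤ s} := by
    rintro G ⟨H, ⟨ρ, h1, h2⟩, h3⟩
    simp only [mem_filter, mem_univ, true_and, Set.mem_iUnion]
    exact ⟨ρ, ⟨h1.idem, h2⟩, H, h1, h3⟩
  refine (prob_mono hW.nonneg h1).trans ((prob_biUnion_le hW.nonneg _ _).trans ?_)
  have h2 : ∀ ρ ∈ univ.filter (fun ρ : Fin n → Fin n => (∀ x, ρ (ρ x) = ρ x) ∧ defect ρ = d),
      prob W {G | ∃ H, EqM H ρ ∧ dist G H ≤ s} ≤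
        (2 : ℝ) ^ ((s : ℝ) - δ / 8 * ((d * (n - d - 1) : ℕ) : ℝ)) := by
    intro ρ hρ
    have h3 := hW.near_le hδ0 hδ ρ s
    rwa [(mem_filter.1 hρ).2.2] at h3
  refine (Finset.sum_le_sum h2).trans ?_
  rw [Finset.sum_const, nsmul_eq_mul]
  refine mul_le_mul_of_nonneg_right ?_ (by positivity)
  exact_mod_cast hN

theorem Law.nearBad_small {δ : ℝ} {W : SimpleGraph (Fin n) → ℝ} (hW : Law δ W) (hδ0 : 0 ≤ δ)
    (hδ : δ ≤ 1) (hn : 1 ≤ n) (d s : ℕ) :
    prob W (NearBad n d s) ≤ (2 : ℝ) ^ (2 * d * Real.logb 2 n + s -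
      δ / 8 * ((d * (n - d - 1) : ℕ) : ℝ)) := by
  classical
  refine (hW.nearBad_le hδ0 hδ d s (n ^ (2 * d)) ?_).trans ?_
  · refine (Finset.card_le_card ?_).trans (card_maps n d)
    intro ρ hρ
    simp only [mem_filter, mem_univ, true_and] at hρ ⊢
    exact hρ.2
  · have h1 : (n : ℝ) = (2 : ℝ) ^ Real.logb 2 n :=
      (Real.rpow_logb (by norm_num) (by norm_num) (by positivity)).symm
    have h2 : ((n ^ (2 * d) : ℕ) : ℝ) = (2 : ℝ) ^ (2 * d * Real.logb 2 n) := by
      push_cast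
      conv_lhs => rw [h1]
      rw [← Real.rpow_natCast, ← Real.rpow_mul (by norm_num)]
      congr 1
      push_cast
      ring
    rw [h2, ← Real.rpow_add (by norm_num)]
    refine Real.rpow_le_rpow_of_exponent_le (by norm_num) ?_
    linarith

theorem Law.nearBad_large {δ : ℝ} {W : SimpleGraph (Fin n) → ℝ} (hW : Law δ W) (hδ0 : 0 ≤ δ)
    (hδ : δ ≤ 1) (d s : ℕ) (hd : d < n) :
    prob W (NearBad n d s) ≤ (2 : ℝ) ^ (n + n * Real.logb 2 (n - d : ℕ) + s -
      δ / 8 * ((d * (n - d - 1) : ℕ) : ℝ)) := by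
  classical
  refine (hW.nearBad_le hδ0 hδ d s (2 ^ n * (n - d) ^ n) ?_).trans ?_
  · refine (Finset.card_le_card ?_).trans (card_maps' n (n - d))
    intro ρ hρ
    simp only [mem_filter, mem_univ, true_and] at hρ ⊢
    refine ⟨hρ.1, ?_⟩
    have := card_reps ρ
    omega
  · have h0 : (0 : ℝ) < ((n - d : ℕ) : ℝ) := by
      have : 0 < n - d := by omega
      exact_mod_cast this
    have h1 : ((n - d : ℕ) : ℝ) = (2 : ℝ) ^ Real.logb 2 (n - d : ℕ) :=
      (Real.rpow_logb (by norm_num) (by norm_num) h0).symm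
    have h2 : ((2 ^ n * (n - d) ^ n : ℕ) : ℝ) = (2 : ℝ) ^ (n + n * Real.logb 2 (n - d : ℕ)) := by
      have h3 : ((2 ^ n * (n - d) ^ n : ℕ) : ℝ) = 2 ^ n * ((n - d : ℕ) : ℝ) ^ n := by
        push_cast
        ring
      rw [h3]
      conv_lhs => rw [h1]
      rw [← Real.rpow_natCast ((2 : ℝ) ^ Real.logb 2 (n - d : ℕ)), ← Real.rpow_mul (by norm_num),
        Real.rpow_add (by norm_num), Real.rpow_natCast]
      congr 2
      ring
    rw [h2, ← Real.rpow_add (by norm_num)]
    refine Real.rpow_le_rpow_of_exponent_le (by norm_num) ?_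
    linarith

/-- Logarithms are small. -/
theorem exists_log (ε : ℝ) (hε : 0 < ε) : ∃ q : ℕ, 10 ≤ q ∧ ∀ t : ℕ, q ≤ t →
    2 + Real.logb 2 t ≤ ε * ((t : ℝ) - 1) := by
  have h1 : Filter.Tendsto (fun x : ℝ => Real.log x / x) Filter.atTop (nhds 0) :=
    Real.isLittleO_log_id_atTop.tendsto_div_nhds_zero
  have h2 : ∀ᶠ x : ℝ in Filter.atTop, Real.log x / x < ε * Real.log 2 / 2 :=
    h1.eventually (gt_mem_nhds (by positivity))
  obtain ⟨x0, hx0⟩ := Filter.eventually_atTop.1 h2
  refine ⟨max 10 (max ⌈x0⌉₊ ⌈2 * (2 + ε) / ε⌉₊), le_max_left _ _, fun t ht => ?_⟩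
  have h3 : (10 : ℕ) ≤ t := (le_max_left _ _).trans ht
  have h4 : ⌈x0⌉₊ ≤ t := ((le_max_left _ _).trans (le_max_right _ _)).trans ht
  have h5 : ⌈2 * (2 + ε) / ε⌉₊ ≤ t := ((le_max_right _ _).trans (le_max_right _ _)).trans ht
  have h6 : x0 ≤ t := (Nat.le_ceil _).trans (by exact_mod_cast h4)
  have h7 : 2 * (2 + ε) / ε ≤ t := (Nat.le_ceil _).trans (by exact_mod_cast h5)
  have h8 := hx0 t h6
  have ht0 : (0 : ℝ) < t := by
    have : 0 < t := by omega
    exact_mod_cast this
  rw [div_lt_iff₀ ht0] at h8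
  rw [div_le_iff₀ hε] at h7
  have hl2 : 0 < Real.log 2 := Real.log_pos (by norm_num)
  have h9 : Real.logb 2 t ≤ ε / 2 * t := by
    unfold Real.logb
    rw [div_le_iff₀ hl2]
    nlinarith
  nlinarith

/-- **Many classes.** -/
theorem many (δ : ℝ) (hδ0 : 0 < δ) (hδ : δ ≤ 1) : ∃ q n0 : ℕ, 10 ≤ q ∧ ∀ n k s : ℕ, n0 ≤ n →
    2 ≤ k → k ≤ n → (s : ℝ) ≤ δ / 1000 * k * n → ∀ W : SimpleGraph (Fin n) → ℝ, Law δ W →
      prob W {G | ∃ H, (∃ ρ, EqM H ρ ∧ 1 ≤ defect ρ ∧ k ≤ 4 * defect ρ ∧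
        (k - 2) / 2 + defect ρ ≤ n ∧ (2 * defect ρ ≤ n ∨ q ≤ n - defect ρ)) ∧ dist G H ≤ s} ≤
          (2 : ℝ) ^ (-(δ / 1000 * k * n)) := by
  classical
  obtain ⟨q, hq10, hq⟩ := exists_log (δ / 20) (by positivity)
  obtain ⟨n0, hn010, hn0⟩ := exists_log (δ / 200) (by positivity)
  refine ⟨q, n0, hq10, fun n k s hn hk hkn hs W hW => ?_⟩
  have hnl := hn0 n hn
  have hn1 : 10 ≤ n := hn010.trans hn
  have hnR : (10 : ℝ) ≤ n := by exact_mod_cast hn1
  set L := Real.logb 2 n with hL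
  have hL0 : 0 ≤ L := Real.logb_nonneg (by norm_num) (by linarith)
  have hLn : L ≤ n := by nlinarith
  let S : Finset ℕ := (Finset.range (n + 1)).filter fun d => 1 ≤ d ∧ k ≤ 4 * d ∧
    (k - 2) / 2 + d ≤ n ∧ (2 * d ≤ n ∨ q ≤ n - d)
  have hsub : {G : SimpleGraph (Fin n) | ∃ H, (∃ ρ, EqM H ρ ∧ 1 ≤ defect ρ ∧ k ≤ 4 * defect ρ ∧
        (k - 2) / 2 + defect ρ ≤ n ∧ (2 * defect ρ ≤ n ∨ q ≤ n - defect ρ)) ∧ dist G H ≤ s} ⊆
      ⋃ d ∈ S, NearBad n d s := by
    rintro G ⟨H, ⟨ρ, h1, h2, h3, h4, h5⟩, h6⟩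
    simp only [Set.mem_iUnion]
    refine ⟨defect ρ, ?_, H, ⟨ρ, h1, rfl⟩, h6⟩
    simp only [S, mem_filter, mem_range]
    exact ⟨by omega, h2, h3, h4, h5⟩
  refine (prob_mono hW.nonneg hsub).trans ((prob_biUnion_le hW.nonneg _ _).trans ?_)
  have hS : (S.card : ℝ) ≤ n := by
    have h1 : S ⊆ (Finset.range (n + 1)).erase 0 := by
      intro d hd
      simp only [S, mem_filter] at hd
      rw [mem_erase]
      exact ⟨by omega, hd.1⟩
    have h2 := Finset.card_le_card h1
    rw [Finset.card_erase_of_mem (by simp), Finset.card_range] at h2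
    exact_mod_cast h2
  have hone : ∀ d ∈ S, prob W (NearBad n d s) ≤ (2 : ℝ) ^ (-(δ / 1000 * k * n) - L) := by
    intro d hd
    simp only [S, mem_filter, mem_range] at hd
    obtain ⟨h0, h1, h2, h3, h4⟩ := hd
    by_cases hdn : 2 * d ≤ n
    · refine (hW.nearBad_small hδ0.le hδ (by omega) d s).trans
        (Real.rpow_le_rpow_of_exponent_le (by norm_num) ?_)
      rw [← hL]
      have h5 : ((d * (n - d - 1) : ℕ) : ℝ) = d * ((n : ℝ) - d - 1) := by
        rw [Nat.cast_mul, Nat.cast_sub (by omega), Nat.cast_sub (by omega)]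
        push_cast
        ring
      rw [h5]
      have h6 : (1 : ℝ) ≤ d := by exact_mod_cast h1
      have h7 : (k : ℝ) ≤ 4 * d := by exact_mod_cast h2
      have h8 : 2 * (d : ℝ) ≤ n := by exact_mod_cast hdn
      have h9 : δ / 1000 * k * n ≤ δ / 1000 * (4 * d) * n := by gcongr
      have h10 : (d : ℝ) * ((n : ℝ) / 2 - 1) ≤ d * ((n : ℝ) - d - 1) :=
        mul_le_mul_of_nonneg_left (by linarith) (by linarith)
      have h11 : δ / 8 * ((d : ℝ) * ((n : ℝ) / 2 - 1)) ≤ δ / 8 * (d * ((n : ℝ) - d - 1)) :=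
        mul_le_mul_of_nonneg_left h10 (by linarith)
      have h12 : L ≤ d * L := le_mul_of_one_le_left hL0 h6
      have h13 : 3 * L + 8 * (δ / 1000) * n ≤ δ / 8 * ((n : ℝ) / 2 - 1) := by nlinarith
      have h14 := mul_le_mul_of_nonneg_left h13 (show (0 : ℝ) ≤ d by linarith)
      nlinarith
    · rcases h4 with h4 | h4
      · exact absurd h4 hdn
      have hd2 : d < n := by omega
      refine (hW.nearBad_large hδ0.le hδ d s hd2).trans
        (Real.rpow_le_rpow_of_exponent_le (by norm_num) ?_)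
      obtain ⟨t, ht⟩ : ∃ t, t = n - d := ⟨_, rfl⟩
      rw [← ht] at h4 ⊢
      have h5 := hq t h4
      have h6 : ((d * (t - 1) : ℕ) : ℝ) = d * ((t : ℝ) - 1) := by
        rw [Nat.cast_mul, Nat.cast_sub (by omega)]
        push_cast
        ring
      rw [h6]
      have h7 : (10 : ℝ) ≤ t := by exact_mod_cast hq10.trans h4
      have h8 : (k : ℝ) ≤ 2 * t + 3 := by
        have : k ≤ 2 * t + 3 := by omega
        exact_mod_cast this
      have h9 : (n : ℝ) ≤ 2 * d := by
        have : n ≤ 2 * d := by omega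
        exact_mod_cast this
      have h10 : δ / 1000 * k * n ≤ δ / 1000 * (2 * t + 3) * n := by gcongr
      have h11 : (n : ℝ) / 2 * ((t : ℝ) - 1) ≤ d * ((t : ℝ) - 1) :=
        mul_le_mul_of_nonneg_right (by linarith) (by linarith)
      have h12 := mul_le_mul_of_nonneg_left h11 (show (0 : ℝ) ≤ δ / 8 by linarith)
      have h13 : 2 + Real.logb 2 t + 2 * (δ / 1000) * (2 * t + 3) ≤ δ / 16 * ((t : ℝ) - 1) := by
        nlinarith
      have h14 := mul_le_mul_of_nonneg_left h13 (show (0 : ℝ) ≤ n by linarith)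
      nlinarith
  refine (Finset.sum_le_sum hone).trans ?_
  rw [Finset.sum_const, nsmul_eq_mul]
  have h1 : (n : ℝ) = (2 : ℝ) ^ L := by
    rw [hL]
    exact (Real.rpow_logb (by norm_num) (by norm_num) (by linarith)).symm
  calc (S.card : ℝ) * (2 : ℝ) ^ (-(δ / 1000 * k * n) - L)
      ≤ (n : ℝ) * (2 : ℝ) ^ (-(δ / 1000 * k * n) - L) :=
        mul_le_mul_of_nonneg_right hS (by positivity)
    _ = (2 : ℝ) ^ L * (2 : ℝ) ^ (-(δ / 1000 * k * n) - L) := by rw [← h1]
    _ = (2 : ℝ) ^ (L + (-(δ / 1000 * k * n) - L)) := (Real.rpow_add (by norm_num) _ _).symm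
    _ = _ := by
        congr 1
        ring

end Pool.Agent.N579.WL
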