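import Pool.Agent.N579.WL.Upper

/-!
# The upper bound for the number of graphs of large WL dimension: the union bound
-/

set_option autoImplicit false

namespace Pool.Agent.N579.WL

open Finset Pool.Agent.W185.SRG

theorem pow_four_bound (L : ℕ) (hL : 41 ≤ L) : (16 * L + 1) ^ 4 ≤ 2 ^ (L - 2) := by
  induction L, hL using Nat.le_induction with
  | base => norm_num
  | succ L hL ih =>
    have h1 : L + 1 - 2 = (L - 2) + 1 := by omega
    rw [h1, pow_succ]
    have h2 : (16 * (L + 1) + 1) ^ 4 ≤ (16 * L + 1) ^ 4 * 2 := by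
      have h3 : 8 * (16 * (L + 1) + 1) ≤ 9 * (16 * L + 1) := by omega
      have h4 := Nat.pow_le_pow_left h3 4
      rw [mul_pow, mul_pow] at h4
      norm_num at h4
      omega
    exact h2.trans (Nat.mul_le_mul_right _ ih)

theorem lin_bound (L : ℕ) (hL : 41 ≤ L) : 100000 * L ≤ 2 ^ (L - 1) := by
  induction L, hL using Nat.le_induction with
  | base => norm_num
  | succ L hL ih =>
    have h1 : L + 1 - 1 = (L - 1) + 1 := by omega
    rw [h1, pow_succ]
    omega

theorem ineq1 {n d k L : ℕ} (hd : 1 ≤ d) (hk : k ≤ 4 * d) (hdn : 2 * d ≤ n) (hL : 41 ≤ L)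
    (hn : 100000 * L ≤ n) : 2 * d * L + L + 2 + k * n / 1000 ≤ d * (n - d - 1) / 2 := by
  rw [Nat.le_div_iff_mul_le (by norm_num)]
  obtain ⟨z, hz⟩ : ∃ z, n = z + d + 1 := ⟨n - d - 1, by omega⟩
  have h1 : n - d - 1 = z := by omega
  rw [h1]
  have h2 : 1000 * (k * n / 1000) ≤ k * n := Nat.mul_div_le _ _
  have h3 : k * n ≤ 4 * d * n := Nat.mul_le_mul_right _ hk
  set e := k * n / 1000
  have h4 : n ≤ 2 * z + 2 := by omega
  have h5 : d * n ≤ d * (2 * z + 2) := Nat.mul_le_mul_left _ h4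
  have h6 : d * (100000 * L) ≤ d * n := Nat.mul_le_mul_left _ hn
  have h7 : L ≤ d * L := Nat.le_mul_of_pos_left _ hd
  nlinarith

theorem ineq2 {n d k L : ℕ} (hd : n < 2 * d) (hk : (k - 2) / 2 + d ≤ n) (ht : 16 * L + 2 ≤ n - d)
    (hL : 41 ≤ L) (hn : 100000 * L ≤ n) :
    n * L + L + 2 + k * n / 1000 ≤ d * (n - d - 1) / 2 := by
  rw [Nat.le_div_iff_mul_le (by norm_num)]
  obtain ⟨z, hz⟩ : ∃ z, n = z + d + 1 := ⟨n - d - 1, by omega⟩
  have h1 : n - d - 1 = z := by omega
  rw [h1]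
  have h2 : 1000 * (k * n / 1000) ≤ k * n := Nat.mul_div_le _ _
  have h3 : k ≤ 2 * z + 5 := by omega
  have h4 : k * n ≤ (2 * z + 5) * n := Nat.mul_le_mul_right _ h3
  have h5 : 16 * L + 1 ≤ z := by omega
  set e := k * n / 1000
  have h6 : n * z ≤ 2 * d * z := Nat.mul_le_mul_right _ hd.le
  have h7 : n * (16 * L + 1) ≤ n * z := Nat.mul_le_mul_left _ h5
  have h8 : n ≤ n * L := Nat.le_mul_of_pos_right _ (by omega)
  nlinarith

theorem ineq3 {n k L : ℕ} (hk : k ≤ 32 * L + 5) (hL : 41 ≤ L) (hn : 100000 * L ≤ n) :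
    4 * n + (4 * (k * n / 1000) + 8) ≤ (L - 2) * (n / 2) := by
  obtain ⟨l, rfl⟩ : ∃ l, L = l + 2 := ⟨L - 2, by omega⟩
  have h2 : 1000 * (k * n / 1000) ≤ k * n := Nat.mul_div_le _ _
  have h3 : k * n ≤ (32 * (l + 2) + 5) * n := Nat.mul_le_mul_right _ hk
  set e := k * n / 1000
  have h4 : n ≤ 2 * (n / 2) + 1 := by omega
  set a := n / 2
  have h5 : l * n ≤ l * (2 * a + 1) := Nat.mul_le_mul_left _ h4
  have h6 : 39 * n ≤ l * n := Nat.mul_le_mul_right _ (by omega)
  rw [Nat.add_sub_cancel]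
  nlinarith

/-- **The upper bound**: all but a `2 ^ (- k n / 1000)` fraction of the graphs with `n` vertices are
identified by the `k`-dimensional WL method. -/
theorem upper {n k : ℕ} (hn : 2 ^ 40 ≤ n) (hk : 2 ≤ k) (hkn : k ≤ n) :
    {G : SimpleGraph (Fin n) | ¬ Identified k G}.ncard * 2 ^ (k * n / 1000) ≤
      2 ^ n.choose 2 := by
  classical
  obtain ⟨L, hLd⟩ : ∃ L, L = Nat.log 2 n + 1 := ⟨_, rfl⟩
  have hn0 : n ≠ 0 := by
    have : (0 : ℕ) < 2 ^ 40 := by norm_num
    omega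
  have hL : 41 ≤ L := by
    have := Nat.log_mono_right (b := 2) hn
    rw [Nat.log_pow (by norm_num)] at this
    omega
  have hnL : n < 2 ^ L := by
    rw [hLd]
    exact Nat.lt_pow_succ_log_self (by norm_num) n
  have hLn : 2 ^ (L - 1) ≤ n := by
    rw [hLd, Nat.add_sub_cancel]
    exact Nat.pow_log_le_self 2 hn0
  have hlin : 100000 * L ≤ n := (lin_bound L hL).trans hLn
  have hhalf : 2 ^ (L - 2) ≤ n / 2 := by
    rw [Nat.le_div_iff_mul_le (by norm_num), ← pow_succ]
    have : L - 2 + 1 = L - 1 := by omega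
    rw [this]
    exact hLn
  set M := 2 ^ n.choose 2 with hM
  set e := k * n / 1000 with he
  -- the bound for a single defect
  let S : Finset ℕ := (Finset.range (n + 1)).filter fun d =>
    1 ≤ d ∧ k ≤ 4 * d ∧ (2 * d ≤ n ∨ (n < 2 * d ∧ (k - 2) / 2 + d ≤ n ∧ 16 * L + 2 ≤ n - d))
  have hS : S.card ≤ 2 ^ L := by
    have h1 : S ⊆ (Finset.range (n + 1)).erase 0 := by
      intro d hd
      simp only [S, mem_filter] at hd
      rw [mem_erase]
      exact ⟨by omega, hd.1⟩
    have h2 := Finset.card_le_card h1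
    rw [Finset.card_erase_of_mem (by simp), Finset.card_range] at h2
    omega
  have hone : ∀ d ∈ S, (Bad n d).ncard * 2 ^ (L + 2 + e) ≤ M := by
    intro d hd
    simp only [S, mem_filter, mem_range] at hd
    obtain ⟨h0, h1, h2, h3⟩ := hd
    have hb := bad_all n d
    rw [← hM] at hb
    have hX : ∃ X, (univ.filter fun ρ : Fin n → Fin n => defect ρ = d).card ≤ 2 ^ X ∧
        X + (L + 2 + e) ≤ d * (n - d - 1) / 2 := by
      rcases h3 with h3 | ⟨h3, h4, h5⟩
      · refine ⟨2 * d * L, ?_, ?_⟩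
        · refine (card_maps n d).trans ?_
          calc n ^ (2 * d) ≤ (2 ^ L) ^ (2 * d) := Nat.pow_le_pow_left hnL.le _
            _ = _ := by rw [← pow_mul]; congr 1; ring
        · have := ineq1 h1 h2 h3 hL hlin
          omega
      · refine ⟨n * L, ?_, ?_⟩
        · refine (Finset.card_filter_le _ _).trans ?_
          rw [Finset.card_univ, Fintype.card_fun, Fintype.card_fin]
          calc n ^ n ≤ (2 ^ L) ^ n := Nat.pow_le_pow_left hnL.le _
            _ = _ := by rw [← pow_mul]; congr 1; ring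
        · have := ineq2 h3 h4 h5 hL hlin
          omega
    obtain ⟨X, hX1, hX2⟩ := hX
    have h6 : 2 ^ X * ((Bad n d).ncard * 2 ^ (L + 2 + e)) ≤ 2 ^ X * M := by
      calc 2 ^ X * ((Bad n d).ncard * 2 ^ (L + 2 + e))
          = (Bad n d).ncard * 2 ^ (X + (L + 2 + e)) := by rw [pow_add]; ring
        _ ≤ (Bad n d).ncard * 2 ^ (d * (n - d - 1) / 2) :=
            Nat.mul_le_mul_left _ (Nat.pow_le_pow_right (by norm_num) hX2)
        _ ≤ _ := hb
        _ ≤ _ := Nat.mul_le_mul_right _ hX1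
    exact Nat.le_of_mul_le_mul_left h6 (by positivity)
  have hfew : (k - 2) / 2 ≤ 16 * L + 1 → (Few n (16 * L + 1)).ncard * 2 ^ (e + 2) ≤ M := by
    intro hj
    have h1 := few_bound n (16 * L + 1) (n / 2) (Nat.div_le_self _ _) (by
      have := pow_four_bound L hL
      omega)
    rw [← hM] at h1
    have h2 : 2 ^ (4 * n + (4 * e + 8)) ≤ (n - n / 2 + 1) ^ (n / 2) := by
      calc 2 ^ (4 * n + (4 * e + 8)) ≤ 2 ^ ((L - 2) * (n / 2)) :=
            Nat.pow_le_pow_right (by norm_num) (ineq3 (by omega) hL hlin)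
        _ = (2 ^ (L - 2)) ^ (n / 2) := by rw [pow_mul]
        _ ≤ _ := Nat.pow_le_pow_left (by omega) _
    have h3 : 2 ^ (4 * n) * ((Few n (16 * L + 1)).ncard * 2 ^ (e + 2)) ^ 4 ≤
        2 ^ (4 * n) * M ^ 4 := by
      calc 2 ^ (4 * n) * ((Few n (16 * L + 1)).ncard * 2 ^ (e + 2)) ^ 4
          = (Few n (16 * L + 1)).ncard ^ 4 * 2 ^ (4 * n + (4 * e + 8)) := by
            rw [mul_pow, ← pow_mul, pow_add]
            rw [show (e + 2) * 4 = 4 * e + 8 by ring]
            ring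
        _ ≤ (Few n (16 * L + 1)).ncard ^ 4 * (n - n / 2 + 1) ^ (n / 2) :=
            Nat.mul_le_mul_left _ h2
        _ ≤ _ := h1
        _ = _ := by rw [show (16 : ℕ) = 2 ^ 4 by norm_num, ← pow_mul]
    have h4 := Nat.le_of_mul_le_mul_left h3 (by positivity)
    exact (Nat.pow_le_pow_iff_left (by norm_num)).1 h4
  -- the union bound
  let R : Set (SimpleGraph (Fin n)) := if (k - 2) / 2 ≤ 16 * L + 1 then Few n (16 * L + 1) else ∅
  have hR : R.ncard * 2 ^ (e + 2) ≤ M := by
    by_cases h : (k - 2) / 2 ≤ 16 * L + 1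
    · simp only [R, h, if_true]
      exact hfew h
    · simp only [R, h, if_false, Set.ncard_empty, zero_mul]
      exact Nat.zero_le _
  have hsub : {G : SimpleGraph (Fin n) | ¬ Identified k G} ⊆ (⋃ d ∈ S, Bad n d) ∪ R := by
    intro G hG
    obtain ⟨ρ, h1, h2, h3, h4⟩ := bad_of_not hk hkn G hG
    by_cases h5 : 2 * defect ρ ≤ n
    · left
      simp only [Set.mem_iUnion]
      refine ⟨defect ρ, ?_, ρ, h1, rfl⟩
      simp only [S, mem_filter, mem_range]
      exact ⟨by omega, h2, h3, Or.inl h5⟩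
    · by_cases h6 : 16 * L + 2 ≤ n - defect ρ
      · left
        simp only [Set.mem_iUnion]
        refine ⟨defect ρ, ?_, ρ, h1, rfl⟩
        simp only [S, mem_filter, mem_range]
        exact ⟨by omega, h2, h3, Or.inr ⟨by omega, h4, h6⟩⟩
      · right
        have h7 : (k - 2) / 2 ≤ 16 * L + 1 := by omega
        simp only [R, h7, if_true]
        have h8 := few_of_eqM h1
        have h9 := card_reps ρ
        have h10 : (univ.image fun v => (nb G v).card).card ≤
            (univ.filter fun x => ρ x = x).card := h8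
        show (univ.image fun v => (nb G v).card).card ≤ 16 * L + 1
        omega
  have hcard : {G : SimpleGraph (Fin n) | ¬ Identified k G}.ncard ≤
      (∑ d ∈ S, (Bad n d).ncard) + R.ncard :=
    (Set.ncard_le_ncard hsub (Set.toFinite _)).trans ((Set.ncard_union_le _ _).trans
      (Nat.add_le_add_right (Finset.set_ncard_biUnion_le _ _) _))
  have hsum : (∑ d ∈ S, (Bad n d).ncard) * 2 ^ (e + 2) ≤ M := by
    have h1 : (∑ d ∈ S, (Bad n d).ncard) * 2 ^ (L + 2 + e) ≤ 2 ^ L * M := by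
      rw [Finset.sum_mul]
      refine (Finset.sum_le_sum hone).trans ?_
      rw [Finset.sum_const, smul_eq_mul]
      exact Nat.mul_le_mul_right _ hS
    have h2 : 2 ^ L * ((∑ d ∈ S, (Bad n d).ncard) * 2 ^ (e + 2)) ≤ 2 ^ L * M := by
      refine le_trans (le_of_eq ?_) h1
      rw [show L + 2 + e = L + (e + 2) by ring, pow_add 2 L]
      ring
    exact Nat.le_of_mul_le_mul_left h2 (by positivity)
  have hfin : {G : SimpleGraph (Fin n) | ¬ Identified k G}.ncard * 2 ^ e * 4 ≤ M * 4 := by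
    calc {G : SimpleGraph (Fin n) | ¬ Identified k G}.ncard * 2 ^ e * 4
        = {G : SimpleGraph (Fin n) | ¬ Identified k G}.ncard * 2 ^ (e + 2) := by
          rw [pow_add]; ring
      _ ≤ ((∑ d ∈ S, (Bad n d).ncard) + R.ncard) * 2 ^ (e + 2) := Nat.mul_le_mul_right _ hcard
      _ = (∑ d ∈ S, (Bad n d).ncard) * 2 ^ (e + 2) + R.ncard * 2 ^ (e + 2) := by ring
      _ ≤ M + M := Nat.add_le_add hsum hR
      _ ≤ M * 4 := by omega
  omega

end Pool.Agent.N579.WL
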