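import Pool.Agent.W185.SRG.Defs

/-!
# A graph with a small base for colour refinement is identified by the WL method
-/

set_option autoImplicit false

namespace Pool.Agent.N579.WL

open Pool.Agent.W185.SRG Finset

/-- The partition into the classes of `r` is equitable: vertices of one class have the same number
of neighbours in each class. -/
def Equitable {V : Type} [Fintype V] (G : SimpleGraph V) (r : Setoid V) : Prop :=
  ∀ x y, r x y → ∀ z, Nat.card {w // G.Adj x w ∧ r w z} = Nat.card {w // G.Adj y w ∧ r w z}

/-- Equality of two images of the vertex sets as multisets yields a bijection. -/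
theorem exists_equiv_of_map {V W C : Type} [Fintype V] [Fintype W] (f : V → C) (g : W → C)
    (h : (univ : Finset V).val.map f = (univ : Finset W).val.map g) :
    ∃ e : V ≃ W, ∀ x, g (e x) = f x := by
  classical
  have h1 : ∀ c, Fintype.card {x // f x = c} = Fintype.card {y // g y = c} := by
    intro c
    rw [Fintype.card_subtype, Fintype.card_subtype]
    have h2 := congrArg (Multiset.count c) h
    rw [Multiset.count_map, Multiset.count_map] at h2
    have h3 : ∀ (U : Type) [Fintype U] (f : U → C),
        (Multiset.filter (fun a => c = f a) (univ : Finset U).val).card =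
          (univ.filter fun x => f x = c).card := by
      intro U _ f
      rw [← Finset.filter_val, Finset.card_val]
      congr 1
      ext x
      simp [eq_comm]
    rw [h3, h3] at h2
    exact h2
  let e : ∀ c, {x // f x = c} ≃ {y // g y = c} := fun c => Fintype.equivOfCardEq (h1 c)
  refine ⟨(Equiv.sigmaFiberEquiv f).symm.trans ((Equiv.sigmaCongrRight e).trans
    (Equiv.sigmaFiberEquiv g)), fun x => ?_⟩
  exact (e (f x) ⟨x, rfl⟩).2

/-- The isomorphism type can be read off a colour. -/
def toZero (k : ℕ) : (t : ℕ) → Col k t → Col k 0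
  | 0, c => c
  | t + 1, c => toZero k t c.1

theorem toZero_wl {V : Type} [Fintype V] (G : SimpleGraph V) (k t : ℕ) (S : Fin k → V) :
    toZero k t (wl G k t S) = isoType G k S := by
  induction t with
  | zero => rfl
  | succ t ih => exact ih

section

variable {V W : Type} [Fintype V] [Fintype W] {k : ℕ} (G : SimpleGraph V) (H : SimpleGraph W)

/-- The colours of the single vertices when the other entries of `S` are fixed. -/
noncomputable def chi (i0 : Fin k) (S : Fin k → V) (t : ℕ) (x : V) : Col k t :=
  wl G k t (Function.update S i0 x)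

theorem wl_mono {x : Fin k → V} {y : Fin k → W} {t s : ℕ} (hts : t ≤ s)
    (h : wl G k s x = wl H k s y) : wl G k t x = wl H k t y := by
  induction s, hts using Nat.le_induction with
  | base => exact h
  | succ s _ ih => exact ih (congrArg Prod.fst h)

variable {G H}

/-- The colour of a family: adjacency of the entries `i0`, `i1` of the tuple where `i1` was
replaced, and the colour of the tuple where `i0` was replaced. -/
def phi (i0 i1 : Fin k) (t : ℕ) (F : Fin k → Col k t) : Prop × Col k t :=
  ((toZero k t (F i1)).2 i0 i1, F i0)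

theorem phi_eq {i0 i1 : Fin k} (h01 : i0 ≠ i1) (S : Fin k → V) (t : ℕ) (x z : V) :
    phi i0 i1 t (fun i => wl G k t (Function.update (Function.update S i0 x) i z)) =
      (G.Adj x z, chi G i0 S t z) := by
  unfold phi chi
  refine Prod.ext ?_ ?_
  · show (toZero k t (wl G k t _)).2 i0 i1 = _
    rw [toZero_wl]
    show G.Adj _ _ = _
    rw [Function.update_self, Function.update_of_ne h01, Function.update_self]
  · show wl G k t (Function.update (Function.update S i0 x) i0 z) = _
    rw [Function.update_idem]

theorem map_phi {i0 i1 : Fin k} (h01 : i0 ≠ i1) {S : Fin k → V} {S' : Fin k → W} {t : ℕ} {x : V}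
    {y : W} (h : chi G i0 S (t + 1) x = chi H i0 S' (t + 1) y) :
    (univ : Finset V).val.map (fun z => (G.Adj x z, chi G i0 S t z)) =
      (univ : Finset W).val.map (fun z => (H.Adj y z, chi H i0 S' t z)) := by
  have h1 : (univ : Finset V).val.map (fun z => fun i => wl G k t
      (Function.update (Function.update S i0 x) i z)) = (univ : Finset W).val.map (fun z => fun i =>
        wl H k t (Function.update (Function.update S' i0 y) i z)) := congrArg Prod.snd h
  have h2 := congrArg (Multiset.map (phi i0 i1 t)) h1
  rw [Multiset.map_map, Multiset.map_map] at h2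
  have h3 : ∀ (U : Type) [Fintype U] (K : SimpleGraph U) (T : Fin k → U) (u : U),
      (phi i0 i1 t ∘ fun z => fun i => wl K k t (Function.update (Function.update T i0 u) i z)) =
        fun z => (K.Adj u z, chi K i0 T t z) := by
    intro U _ K T u
    funext z
    exact phi_eq h01 T t u z
  rw [h3, h3] at h2
  exact h2

/-- Being of the same colour in all rounds. -/
def sameCol (G : SimpleGraph V) (i0 : Fin k) (S : Fin k → V) : Setoid V where
  r x y := ∀ t, chi G i0 S t x = chi G i0 S t y
  iseqv := ⟨fun _ _ => rfl, fun h t => (h t).symm, fun h h' t => (h t).trans (h' t)⟩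

theorem exists_round (G : SimpleGraph V) (i0 : Fin k) (S : Fin k → V) :
    ∃ T, ∀ t, T ≤ t → ∀ x y, chi G i0 S t x = chi G i0 S t y ↔ sameCol G i0 S x y := by
  classical
  have h1 : ∀ p : V × V, ∃ t, ¬ sameCol G i0 S p.1 p.2 → chi G i0 S t p.1 ≠ chi G i0 S t p.2 := by
    intro p
    by_cases h : sameCol G i0 S p.1 p.2
    · exact ⟨0, fun h' => absurd h h'⟩
    · have h2 : ∃ t, chi G i0 S t p.1 ≠ chi G i0 S t p.2 := by
        by_contra h3
        push Not at h3
        exact h h3
      obtain ⟨t, ht⟩ := h2
      exact ⟨t, fun _ => ht⟩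
  choose T hT using h1
  refine ⟨univ.sup T, fun t ht x y => ⟨fun h => ?_, fun h => h t⟩⟩
  by_contra h3
  exact hT (x, y) h3 (wl_mono G G ((Finset.le_sup (mem_univ (x, y))).trans ht) h)

theorem equitable_sameCol {i0 i1 : Fin k} (h01 : i0 ≠ i1) (S : Fin k → V) :
    Equitable G (sameCol G i0 S) := by
  classical
  obtain ⟨T, hT⟩ := exists_round G i0 S
  intro x y hxy z
  have h1 := map_phi h01 (hxy (T + 1))
  have h2 := congrArg (Multiset.count (True, chi G i0 S T z)) h1
  rw [Multiset.count_map, Multiset.count_map] at h2
  have h3 : ∀ u : V, (Multiset.filter (fun a => (True, chi G i0 S T z) = (G.Adj u a, chi G i0 S T a))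
      (univ : Finset V).val).card = Nat.card {w // G.Adj u w ∧ sameCol G i0 S w z} := by
    intro u
    rw [← Finset.filter_val, Finset.card_val, Nat.card_eq_fintype_card, Fintype.card_subtype]
    congr 1
    ext w
    simp only [mem_filter, mem_univ, true_and, Prod.mk.injEq, eq_iff_iff, true_iff]
    rw [← hT T le_rfl w z, @eq_comm _ (chi G i0 S T w)]
  rw [h3, h3] at h2
  exact h2

end

/-- If some set of at most `k - 2` vertices is a base for colour refinement, then the
`k`-dimensional WL method identifies the graph. -/
theorem identified_of_base {V W : Type} [Fintype V] [Fintype W] {k : ℕ} (G : SimpleGraph V)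
    (H : SimpleGraph W) (F : Finset V) (hF : F.card + 2 ≤ k)
    (h : ∀ r : Setoid V, Equitable G r → (∀ f ∈ F, ∀ x, r x f → x = f) → ∀ x y, r x y → x = y)
    (hw : WLEquivalent k G H) : Nonempty (G ≃g H) := by
  classical
  obtain ⟨ψ, hψ⟩ := hw
  obtain ⟨m, rfl⟩ : ∃ m, k = m + 2 := ⟨k - 2, by omega⟩
  have i01 : (0 : Fin (m + 2)) ≠ 1 := by
    intro h
    have := congrArg Fin.val h
    simp at this
  rcases isEmpty_or_nonempty V with hV | ⟨⟨v0⟩⟩
  · have hW : IsEmpty W := by
      by_contra hne
      rw [not_isEmpty_iff] at hne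
      obtain ⟨w⟩ := hne
      exact hV.false (ψ.symm (fun _ => w) 0)
    exact ⟨⟨Equiv.equivOfIsEmpty V W, fun {a} => (hV.false a).elim⟩⟩
  · -- a tuple which contains the set `F` in the entries from `2` on
    have hsurj : ∃ f : Fin m → V, ∀ x ∈ F, ∃ i, f i = x := by
      rcases Finset.eq_empty_or_nonempty F with h0 | h0
      · exact ⟨fun _ => v0, fun x hx => by rw [h0] at hx; exact absurd hx (Finset.notMem_empty x)⟩
      · have h1 : F.card ≤ m := by omega
        obtain ⟨x0, hx0⟩ := h0
        refine ⟨fun i => if hi : (i : ℕ) < F.card then (F.equivFin.symm ⟨i, hi⟩ : V) else x0, ?_⟩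
        intro x hx
        refine ⟨⟨F.equivFin ⟨x, hx⟩, (F.equivFin ⟨x, hx⟩).2.trans_le h1⟩, ?_⟩
        simp
    obtain ⟨f, hf⟩ := hsurj
    let S : Fin (m + 2) → V := fun i => if hi : 2 ≤ (i : ℕ) then f ⟨i - 2, by omega⟩ else v0
    let S' := ψ S
    have hS : ∀ t, wl G (m + 2) t S = wl H (m + 2) t S' := fun t => hψ t S
    have hr : ∀ x y, sameCol G 0 S x y → x = y := by
      refine h _ (equitable_sameCol i01 S) ?_
      intro y hy x hxy
      obtain ⟨i, hi⟩ := hf y hy
      have h1 := hxy 0
      have h2 : (Function.update S 0 x 0 = Function.update S 0 x ⟨i + 2, by omega⟩) =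
          (Function.update S 0 y 0 = Function.update S 0 y ⟨i + 2, by omega⟩) :=
        congrFun (congrFun (congrArg Prod.fst h1) 0) ⟨i + 2, by omega⟩
      have h3 : (⟨(i : ℕ) + 2, by omega⟩ : Fin (m + 2)) ≠ 0 := by
        intro h
        have := congrArg Fin.val h
        simp at this
      have h4 : S ⟨(i : ℕ) + 2, by omega⟩ = y := by
        rw [← hi]
        simp [S]
      rw [Function.update_self, Function.update_self, Function.update_of_ne h3,
        Function.update_of_ne h3, h4] at h2
      exact h2.mpr rfl
    obtain ⟨T, hT⟩ := exists_round G 0 S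
    have hinj : ∀ t, T ≤ t → Function.Injective (chi G 0 S t) := fun t ht x y hxy =>
      hr x y ((hT t ht x y).1 hxy)
    have hmul : ∀ t, (univ : Finset V).val.map (chi G 0 S t) =
        (univ : Finset W).val.map (chi H 0 S' t) := by
      intro t
      have h1 : (univ : Finset V).val.map (fun x => fun i => wl G (m + 2) t
          (Function.update S i x)) = (univ : Finset W).val.map (fun x => fun i =>
            wl H (m + 2) t (Function.update S' i x)) := congrArg Prod.snd (hS (t + 1))
      have h2 := congrArg (Multiset.map fun F : Fin (m + 2) → Col (m + 2) t => F 0) h1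
      rw [Multiset.map_map, Multiset.map_map] at h2
      exact h2
    obtain ⟨g, hg⟩ := exists_equiv_of_map _ _ (hmul (T + 1))
    have hg' : ∀ x, chi H 0 S' T (g x) = chi G 0 S T x := fun x =>
      (congrArg Prod.fst (hg x) : _)
    have key : ∀ x z, G.Adj x z ↔ H.Adj (g x) (g z) := by
      intro x z
      have h1 := map_phi i01 (hg x).symm
      have h2 : (G.Adj x z, chi G 0 S T z) ∈
          (univ : Finset W).val.map (fun w => (H.Adj (g x) w, chi H 0 S' T w)) := by
        rw [← h1]
        exact Multiset.mem_map_of_mem _ (Finset.mem_univ z)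
      obtain ⟨w, -, hw⟩ := Multiset.mem_map.1 h2
      have h3 : chi H 0 S' T w = chi G 0 S T z := congrArg Prod.snd hw
      have h4 : H.Adj (g x) w = G.Adj x z := congrArg Prod.fst hw
      have h5 : w = g z := by
        obtain ⟨u, rfl⟩ := g.surjective w
        rw [hg'] at h3
        rw [hinj T le_rfl h3]
      rw [← h4, h5]
    exact ⟨⟨g, fun {a b} => (key a b).symm⟩⟩

end Pool.Agent.N579.WL
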