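import Pool.Agent.N579.WL.Equit

/-!
# Counting the graphs with an equitable partition of given defect
-/

set_option autoImplicit false

namespace Pool.Agent.N579.WL

open Finset

theorem card_graphs (n : ℕ) : Nat.card (SimpleGraph (Fin n)) = 2 ^ n.choose 2 := by
  classical
  let e : SimpleGraph (Fin n) ≃ Set (Sym2.diagSetᶜ : Set (Sym2 (Fin n))) :=
    { toFun := fun G => {x | (x : Sym2 (Fin n)) ∈ G.edgeSet}
      invFun := fun S => SimpleGraph.fromEdgeSet (Subtype.val '' S)
      left_inv := by
        intro G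
        ext a b
        simp only [SimpleGraph.fromEdgeSet_adj, Set.mem_image, Set.mem_ofPred_eq]
        constructor
        · rintro ⟨⟨x, h1, h2⟩, _⟩
          rw [h2] at h1
          exact h1
        · intro h
          refine ⟨⟨⟨s(a, b), ?_⟩, h, rfl⟩, h.ne⟩
          simpa using h.ne
      right_inv := by
        intro S
        ext ⟨x, hx⟩
        simp only [SimpleGraph.edgeSet_fromEdgeSet, Set.mem_ofPred_eq, Set.mem_sdiff, Set.mem_image]
        constructor
        · rintro ⟨⟨y, h1, h2⟩, _⟩
          have h3 : y = ⟨x, hx⟩ := Subtype.ext h2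
          rwa [h3] at h1
        · intro h
          refine ⟨⟨⟨x, hx⟩, h, rfl⟩, ?_⟩
          simpa using hx }
  rw [Nat.card_congr e]
  have h1 : Nat.card (Set (Sym2.diagSetᶜ : Set (Sym2 (Fin n)))) =
      2 ^ Nat.card (Sym2.diagSetᶜ : Set (Sym2 (Fin n))) := by
    rw [Nat.card_eq_fintype_card, Nat.card_eq_fintype_card, Fintype.card_set]
  rw [h1]
  congr 1
  have h2 := Sym2.ncard_diagSet_compl (α := Fin n)
  rw [Nat.card_eq_fintype_card, Fintype.card_fin] at h2
  exact h2

variable {n : ℕ}

theorem card_reps (ρ : Fin n → Fin n) : (univ.filter fun x => ρ x = x).card + defect ρ = n := by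
  unfold defect
  rw [Finset.card_filter_add_card_filter_not (s := (univ : Finset (Fin n))) (fun x => ρ x = x),
    Finset.card_univ, Fintype.card_fin]

/-- The two orders together have `d (t - 1)` private pairs. -/
theorem card_priv_add (ρ : Fin n → Fin n) (hid : ∀ x, ρ (ρ x) = ρ x) :
    (privU ρ (· < ·)).card + (privU ρ (fun a b => b < a)).card =
      defect ρ * ((univ.filter fun x => ρ x = x).card - 1) := by
  classical
  have hdis : Disjoint (privU ρ (· < ·)) (privU ρ (fun a b => b < a)) := by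
    rw [Finset.disjoint_left]
    intro p h1 h2
    exact lt_asymm (mem_privU.1 h1).2.2 (mem_privU.1 h2).2.2
  rw [← Finset.card_union_of_disjoint hdis]
  have h1 : privU ρ (· < ·) ∪ privU ρ (fun a b => b < a) =
      (univ.filter fun x => ρ x ≠ x).biUnion fun u =>
        ((univ.filter fun x => ρ x = x).erase (ρ u)).image fun r => (u, r) := by
    ext ⟨u, r⟩
    simp only [mem_union, mem_privU, mem_biUnion, mem_filter, mem_univ, true_and, mem_image,
      mem_erase, Prod.mk.injEq]
    constructor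
    · rintro (⟨h1, h2, h3⟩ | ⟨h1, h2, h3⟩)
      · exact ⟨u, h1, r, ⟨ne_of_gt h3, h2⟩, rfl, rfl⟩
      · exact ⟨u, h1, r, ⟨ne_of_lt h3, h2⟩, rfl, rfl⟩
    · rintro ⟨u', h1, r', ⟨h2, h3⟩, rfl, rfl⟩
      rcases lt_or_gt_of_ne h2 with h4 | h4
      · exact Or.inr ⟨h1, h3, h4⟩
      · exact Or.inl ⟨h1, h3, h4⟩
  rw [h1, Finset.card_biUnion]
  · have h2 : ∀ u ∈ univ.filter (fun x => ρ x ≠ x),
        (((univ.filter fun x => ρ x = x).erase (ρ u)).image fun r => (u, r)).card =
          (univ.filter fun x => ρ x = x).card - 1 := by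
      intro u _
      rw [Finset.card_image_of_injective _ (fun a b h => (Prod.mk.injEq _ _ _ _ ▸ h).2),
        Finset.card_erase_of_mem]
      simp [hid u]
    rw [Finset.sum_congr rfl h2, Finset.sum_const, smul_eq_mul]
    rfl
  · intro a _ b _ hab
    simp only [Finset.disjoint_left, mem_image, mem_erase, mem_filter, mem_univ, true_and, not_exists,
      not_and]
    rintro p ⟨r, _, rfl⟩ r' _ h
    exact hab (congrArg Prod.fst h).symm

theorem bound_all (ρ : Fin n → Fin n) (t : ℕ) (ht : (univ.filter fun x => ρ x = x).card = t) :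
    {G : SimpleGraph (Fin n) | EqM G ρ}.ncard * 2 ^ (defect ρ * (t - 1) / 2) ≤ 2 ^ n.choose 2 := by
  classical
  by_cases hid : ∀ x, ρ (ρ x) = ρ x
  swap
  · have h0 : {G : SimpleGraph (Fin n) | EqM G ρ} = ∅ := by
      ext G
      simp only [Set.mem_ofPred_eq, Set.mem_empty_iff_false, iff_false]
      exact fun h => hid h.idem
    rw [h0, Set.ncard_empty, zero_mul]
    exact Nat.zero_le _
  have h1 := card_priv_add ρ hid
  rw [ht] at h1
  rw [← card_graphs]
  rcases le_total (privU ρ (· < ·)).card (privU ρ (fun a b => b < a)).card with h | h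
  · refine le_trans (Nat.mul_le_mul_left _ (Nat.pow_le_pow_right (by norm_num) ?_))
      (private_bound ρ (fun a b => b < a) (fun a b h => lt_asymm h))
    omega
  · refine le_trans (Nat.mul_le_mul_left _ (Nat.pow_le_pow_right (by norm_num) ?_))
      (private_bound ρ (· < ·) (fun a b h => lt_asymm h))
    omega

/-- the vertices that are alone in their classes -/
noncomputable def sing (ρ : Fin n → Fin n) : Finset (Fin n) := by
  classical
  exact univ.filter fun r => ρ r = r ∧ ∀ x, ρ x = r → x = r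

theorem mem_sing {ρ : Fin n → Fin n} {r : Fin n} : r ∈ sing ρ ↔ ρ r = r ∧ ∀ x, ρ x = r → x = r := by
  classical
  simp [sing]

theorem card_sing (ρ : Fin n → Fin n) : n ≤ (sing ρ).card + 2 * defect ρ := by
  classical
  have h1 : (univ : Finset (Fin n)) ⊆ sing ρ ∪ ((univ.filter fun x => ρ x ≠ x) ∪
      (univ.filter fun x => ρ x ≠ x).image ρ) := by
    intro x _
    simp only [mem_union, mem_sing, mem_filter, mem_univ, true_and, mem_image]
    by_cases hx : ρ x = x
    · by_cases hs : ∀ y, ρ y = x → y = x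
      · exact Or.inl ⟨hx, hs⟩
      · push Not at hs
        obtain ⟨y, h1, h2⟩ := hs
        refine Or.inr (Or.inr ⟨y, ?_, h1⟩)
        rw [h1]
        exact h2.symm
    · exact Or.inr (Or.inl hx)
  have h2 := (Finset.card_le_card h1).trans (Finset.card_union_le _ _)
  have h3 := Finset.card_union_le (univ.filter fun x => ρ x ≠ x)
    ((univ.filter fun x => ρ x ≠ x).image ρ)
  have h4 : ((univ.filter fun x => ρ x ≠ x).image ρ).card ≤ _ := Finset.card_image_le
  rw [Finset.card_univ, Fintype.card_fin] at h2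
  unfold defect
  omega

theorem bound_small (ρ : Fin n → Fin n) :
    {G : SimpleGraph (Fin n) | EqM G ρ}.ncard * 2 ^ (defect ρ * (n - 2 * defect ρ)) ≤
      2 ^ n.choose 2 := by
  classical
  rw [← card_graphs]
  let lt : Fin n → Fin n → Prop := fun a b => a ∉ sing ρ ∧ b ∈ sing ρ
  refine le_trans (Nat.mul_le_mul_left _ (Nat.pow_le_pow_right (by norm_num) ?_))
    (private_bound ρ lt (fun a b h h' => h'.1 h.2))
  have h1 : (univ.filter fun x => ρ x ≠ x) ×ˢ sing ρ ⊆ privU ρ lt := by
    rintro ⟨u, r⟩ hp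
    rw [mem_product] at hp
    simp only [mem_filter, mem_univ, true_and] at hp
    rw [mem_privU]
    refine ⟨hp.1, (mem_sing.1 hp.2).1, ?_, hp.2⟩
    intro h
    exact hp.1 ((mem_sing.1 h).2 u rfl).symm
  have h2 := Finset.card_le_card h1
  rw [Finset.card_product] at h2
  refine le_trans (Nat.mul_le_mul_left _ ?_) h2
  have := card_sing ρ
  omega

/-- There are at most `n ^ (2 d)` maps with `d` moved points. -/
theorem card_maps (n d : ℕ) :
    (univ.filter fun ρ : Fin n → Fin n => defect ρ = d).card ≤ n ^ (2 * d) := by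
  classical
  let f : (Fin d → Fin n) × (Fin d → Fin n) → (Fin n → Fin n) := fun p x =>
    if h : ∃ i, p.1 i = x then p.2 h.choose else x
  have h1 : (univ.filter fun ρ : Fin n → Fin n => defect ρ = d) ⊆ univ.image f := by
    intro ρ hρ
    simp only [mem_filter, mem_univ, true_and] at hρ
    rw [mem_image]
    let e := (univ.filter fun x => ρ x ≠ x).equivFinOfCardEq hρ
    refine ⟨(fun i => (e.symm i : Fin n), fun i => ρ (e.symm i : Fin n)), mem_univ _, ?_⟩
    funext x
    show (if h : ∃ i, ((e.symm i : Fin n)) = x then ρ (e.symm h.choose : Fin n) else x) = ρ x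
    split_ifs with h
    · rw [h.choose_spec]
    · by_contra h2
      have h3 : x ∈ univ.filter fun x => ρ x ≠ x := by
        simp only [mem_filter, mem_univ, true_and]
        exact fun h4 => h2 h4.symm
      exact h ⟨e ⟨x, h3⟩, by simp⟩
  refine (Finset.card_le_card h1).trans (Finset.card_image_le.trans ?_)
  rw [Finset.card_univ, Fintype.card_prod, Fintype.card_fun, Fintype.card_fin, Fintype.card_fin,
    ← pow_add]
  exact le_of_eq (by ring_nf)

/-- the graphs with an equitable partition of defect `d` -/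
def Bad (n d : ℕ) : Set (SimpleGraph (Fin n)) := {G | ∃ ρ, EqM G ρ ∧ defect ρ = d}

theorem ncard_bad_le (n d E : ℕ) (L : ℕ)
    (h : ∀ ρ : Fin n → Fin n, defect ρ = d →
      {G : SimpleGraph (Fin n) | EqM G ρ}.ncard * 2 ^ E ≤ L) :
    (Bad n d).ncard * 2 ^ E ≤ (univ.filter fun ρ : Fin n → Fin n => defect ρ = d).card * L := by
  classical
  have h1 : Bad n d ⊆ ⋃ ρ ∈ univ.filter (fun ρ : Fin n → Fin n => defect ρ = d),
      {G : SimpleGraph (Fin n) | EqM G ρ} := by
    rintro G ⟨ρ, hG, hd⟩
    simp only [mem_filter, mem_univ, true_and, Set.mem_iUnion, Set.mem_ofPred_eq]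
    exact ⟨ρ, hd, hG⟩
  have h2 : (Bad n d).ncard ≤ ∑ ρ ∈ univ.filter (fun ρ : Fin n → Fin n => defect ρ = d),
      {G : SimpleGraph (Fin n) | EqM G ρ}.ncard :=
    (Set.ncard_le_ncard h1 (Set.toFinite _)).trans (Finset.set_ncard_biUnion_le _ _)
  calc (Bad n d).ncard * 2 ^ E
      ≤ (∑ ρ ∈ univ.filter (fun ρ : Fin n → Fin n => defect ρ = d),
        {G : SimpleGraph (Fin n) | EqM G ρ}.ncard) * 2 ^ E := Nat.mul_le_mul_right _ h2
    _ = ∑ ρ ∈ univ.filter (fun ρ : Fin n → Fin n => defect ρ = d),
        {G : SimpleGraph (Fin n) | EqM G ρ}.ncard * 2 ^ E := by rw [Finset.sum_mul]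
    _ ≤ ∑ ρ ∈ univ.filter (fun ρ : Fin n → Fin n => defect ρ = d), L :=
        Finset.sum_le_sum fun ρ hρ => h ρ (by simpa using hρ)
    _ = _ := by rw [Finset.sum_const, smul_eq_mul]

/-- For every defect. -/
theorem bad_all (n d : ℕ) : (Bad n d).ncard * 2 ^ (d * (n - d - 1) / 2) ≤
    (univ.filter fun ρ : Fin n → Fin n => defect ρ = d).card * 2 ^ n.choose 2 := by
  refine ncard_bad_le n d _ _ fun ρ hd => ?_
  have h1 := card_reps ρ
  have h2 := bound_all ρ (n - d) (by omega)
  rw [hd] at h2
  exact h2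

/-- For small defect. -/
theorem bad_small (n d : ℕ) : (Bad n d).ncard * 2 ^ (d * (n - 2 * d)) ≤
    n ^ (2 * d) * 2 ^ n.choose 2 := by
  refine (ncard_bad_le n d _ _ fun ρ hd => ?_).trans (Nat.mul_le_mul_right _ (card_maps n d))
  have h2 := bound_small ρ
  rw [hd] at h2
  exact h2

end Pool.Agent.N579.WL
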