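import Pool.Agent.N579.WL.Count

/-!
# Few graphs have few different degrees
-/

set_option autoImplicit false

namespace Pool.Agent.N579.WL

open Finset

variable {n : ℕ}

open Classical in
/-- the neighbours of a vertex -/
noncomputable def nb (G : SimpleGraph (Fin n)) (v : Fin n) : Finset (Fin n) :=
  univ.filter fun w => G.Adj v w

theorem mem_nb {G : SimpleGraph (Fin n)} {v w : Fin n} : w ∈ nb G v ↔ G.Adj v w := by
  simp [nb]

/-- The graph without the edges between `A` and its complement. -/
def cut (A : Finset (Fin n)) (G : SimpleGraph (Fin n)) : SimpleGraph (Fin n) where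
  Adj x y := G.Adj x y ∧ (x ∈ A ↔ y ∈ A)
  symm := ⟨fun _ _ h => ⟨h.1.symm, h.2.symm⟩⟩
  loopless := ⟨fun _ h => h.1.ne rfl⟩

theorem card_cut (A : Finset (Fin n)) :
    {H : SimpleGraph (Fin n) | ∀ x y, H.Adj x y → (x ∈ A ↔ y ∈ A)}.ncard *
      2 ^ (A.card * (n - A.card)) ≤ 2 ^ n.choose 2 := by
  classical
  rw [← card_graphs]
  have hinj : Set.InjOn (fun p : Fin n × Fin n => s(p.1, p.2))
      (A ×ˢ Aᶜ : Finset (Fin n × Fin n)) := by
    rintro ⟨a, b⟩ hp ⟨a', b'⟩ hp' h
    simp only [coe_product, Set.mem_prod, mem_coe, mem_compl] at hp hp'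
    simp only [Sym2.eq_iff] at h
    rcases h with ⟨rfl, rfl⟩ | ⟨rfl, rfl⟩
    · rfl
    · exact absurd hp.1 hp'.2
  have hc : A.card * (n - A.card) = ((A ×ˢ Aᶜ : Finset (Fin n × Fin n)).image
      (fun p : Fin n × Fin n => s(p.1, p.2))).card := by
    rw [Finset.card_image_of_injOn hinj, Finset.card_product, Finset.card_compl, Fintype.card_fin]
  rw [hc]
  refine card_le_of_private _ ?_ _ ?_
  · intro e he
    obtain ⟨⟨a, b⟩, hp, rfl⟩ := Finset.mem_image.1 he
    rw [mem_product, mem_compl] at hp
    rw [Sym2.mk_isDiag_iff]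
    intro hab
    simp only at hab hp
    rw [hab] at hp
    exact hp.2 hp.1
  · intro G hG G' hG' hag
    ext x y
    by_cases hxy : x ∈ A ↔ y ∈ A
    · refine hag s(x, y) fun hm => ?_
      obtain ⟨⟨a, b⟩, hp, hab⟩ := Finset.mem_image.1 hm
      rw [mem_product, mem_compl] at hp
      simp only [Sym2.eq_iff] at hab hp
      rcases hab with ⟨rfl, rfl⟩ | ⟨rfl, rfl⟩
      · exact hp.2 (hxy.1 hp.1)
      · exact hp.2 (hxy.2 hp.1)
    · exact ⟨fun h => absurd (hG x y h) hxy, fun h => absurd (hG' x y h) hxy⟩

theorem card_sets (B : Finset (Fin n)) (D : Finset ℕ) (c : ℕ) :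
    (B.powerset.filter fun S => c + S.card ∈ D).card ≤
      D.card * B.card.choose (B.card / 2) := by
  classical
  have h1 : (B.powerset.filter fun S => c + S.card ∈ D) ⊆
      D.biUnion fun d => Finset.powersetCard (d - c) B := by
    intro S hS
    simp only [mem_filter, mem_powerset] at hS
    simp only [mem_biUnion, mem_powersetCard]
    exact ⟨c + S.card, hS.2, hS.1, by omega⟩
  refine (Finset.card_le_card h1).trans (Finset.card_biUnion_le.trans ?_)
  calc ∑ d ∈ D, (Finset.powersetCard (d - c) B).card
      ≤ ∑ d ∈ D, B.card.choose (B.card / 2) := by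
        refine Finset.sum_le_sum fun d _ => ?_
        rw [Finset.card_powersetCard]
        exact Nat.choose_le_middle _ _
    _ = _ := by rw [Finset.sum_const, smul_eq_mul]

theorem fibre (A : Finset (Fin n)) (D : Finset ℕ) (H : SimpleGraph (Fin n)) :
    {G : SimpleGraph (Fin n) | (∀ v, (nb G v).card ∈ D) ∧ cut A G = H}.ncard ≤
      (D.card * (n - A.card).choose ((n - A.card) / 2)) ^ A.card := by
  classical
  have hB : (Aᶜ : Finset (Fin n)).card = n - A.card := by
    rw [Finset.card_compl, Fintype.card_fin]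
  let T : Finset (Fin n → Finset (Fin n)) := Fintype.piFinset fun v =>
    if v ∈ A then (Aᶜ : Finset (Fin n)).powerset.filter (fun S => (nb H v).card + S.card ∈ D)
    else {∅}
  have hT : T.card ≤ (D.card * (n - A.card).choose ((n - A.card) / 2)) ^ A.card := by
    rw [Fintype.card_piFinset]
    have h1 : ∀ v : Fin n, (if v ∈ A then (Aᶜ : Finset (Fin n)).powerset.filter
        (fun S => (nb H v).card + S.card ∈ D) else {∅}).card ≤
          if v ∈ A then D.card * (n - A.card).choose ((n - A.card) / 2) else 1 := by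
      intro v
      split_ifs
      · have := card_sets (Aᶜ : Finset (Fin n)) D (nb H v).card
        rwa [hB] at this
      · simp
    refine (Finset.prod_le_prod' fun v _ => h1 v).trans ?_
    rw [Finset.prod_ite_mem, Finset.univ_inter, Finset.prod_const]
  refine le_trans ?_ hT
  rw [← Set.ncard_coe_finset]
  refine Set.ncard_le_ncard_of_injOn (fun G v => if v ∈ A then nb G v ∩ Aᶜ else ∅) ?_ ?_
    (Set.toFinite _)
  · rintro G ⟨hG, hH⟩
    rw [Finset.mem_coe, Fintype.mem_piFinset]
    intro v
    by_cases hv : v ∈ A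
    · simp only [hv, if_true, mem_filter, mem_powerset]
      refine ⟨Finset.inter_subset_right, ?_⟩
      have h2 : nb G v = nb H v ∪ (nb G v ∩ Aᶜ) := by
        ext w
        rw [← hH]
        simp only [mem_union, mem_inter, mem_nb, mem_compl, cut]
        constructor
        · intro h
          by_cases hw : w ∈ A
          · exact Or.inl ⟨h, by simp [hv, hw]⟩
          · exact Or.inr ⟨h, hw⟩
        · rintro (h | h)
          · exact h.1
          · exact h.1
      have h3 : Disjoint (nb H v) (nb G v ∩ Aᶜ) := by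
        rw [Finset.disjoint_left]
        intro w h4 h5
        rw [mem_nb, ← hH] at h4
        rw [mem_inter, mem_compl] at h5
        exact h5.2 (h4.2.1 hv)
      rw [← Finset.card_union_of_disjoint h3, ← h2]
      exact hG v
    · simp [hv]
  · rintro G ⟨_, hH⟩ G' ⟨_, hH'⟩ hf
    ext x y
    by_cases hxy : x ∈ A ↔ y ∈ A
    · have h1 : (cut A G).Adj x y ↔ (cut A G').Adj x y := by rw [hH, hH']
      simp only [cut, hxy, and_true] at h1
      exact h1
    · have key : ∀ x y, x ∈ A → y ∉ A → (G.Adj x y ↔ G'.Adj x y) := by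
        intro x y hx hy
        have h1 := congrFun hf x
        simp only [hx, if_true] at h1
        have h2 := Finset.ext_iff.1 h1 y
        simp only [mem_inter, mem_compl, mem_nb, hy, not_false_eq_true, and_true] at h2
        exact h2
      by_cases hx : x ∈ A
      · exact key x y hx fun hy => hxy ⟨fun _ => hy, fun _ => hx⟩
      · by_cases hy : y ∈ A
        · rw [G.adj_comm, G'.adj_comm]
          exact key y x hy hx
        · exact absurd ⟨fun h => absurd h hx, fun h => absurd h hy⟩ hxy

/-- the graphs with at most `q` different degrees -/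
def Few (n q : ℕ) : Set (SimpleGraph (Fin n)) :=
  {G | (univ.image fun v => (nb G v).card).card ≤ q}

theorem card_degs (A : Finset (Fin n)) (D : Finset ℕ) :
    {G : SimpleGraph (Fin n) | ∀ v, (nb G v).card ∈ D}.ncard * 2 ^ (A.card * (n - A.card)) ≤
      (D.card * (n - A.card).choose ((n - A.card) / 2)) ^ A.card * 2 ^ n.choose 2 := by
  classical
  let X : Finset (SimpleGraph (Fin n)) := univ.filter fun G => ∀ v, (nb G v).card ∈ D
  have hX : {G : SimpleGraph (Fin n) | ∀ v, (nb G v).card ∈ D}.ncard = X.card := by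
    rw [← Set.ncard_coe_finset]
    congr 1
    ext G
    simp [X]
  rw [hX]
  have h1 : X.card ≤ (D.card * (n - A.card).choose ((n - A.card) / 2)) ^ A.card *
      (X.image (cut A)).card := by
    refine Finset.card_le_mul_card_image X _ fun H _ => ?_
    refine le_trans (le_of_eq ?_) (fibre A D H)
    rw [← Set.ncard_coe_finset]
    congr 1
    ext G
    simp [X]
  have h2 : (X.image (cut A)).card ≤
      {H : SimpleGraph (Fin n) | ∀ x y, H.Adj x y → (x ∈ A ↔ y ∈ A)}.ncard := by
    rw [← Set.ncard_coe_finset]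
    refine Set.ncard_le_ncard ?_ (Set.toFinite _)
    intro H hH
    rw [Finset.mem_coe, Finset.mem_image] at hH
    obtain ⟨G, _, rfl⟩ := hH
    exact fun x y h => h.2
  calc X.card * 2 ^ (A.card * (n - A.card))
      ≤ ((D.card * (n - A.card).choose ((n - A.card) / 2)) ^ A.card *
        {H : SimpleGraph (Fin n) | ∀ x y, H.Adj x y → (x ∈ A ↔ y ∈ A)}.ncard) *
          2 ^ (A.card * (n - A.card)) :=
        Nat.mul_le_mul_right _ (h1.trans (Nat.mul_le_mul_left _ h2))
    _ = (D.card * (n - A.card).choose ((n - A.card) / 2)) ^ A.card *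
        ({H : SimpleGraph (Fin n) | ∀ x y, H.Adj x y → (x ∈ A ↔ y ∈ A)}.ncard *
          2 ^ (A.card * (n - A.card))) := by ring
    _ ≤ _ := Nat.mul_le_mul_left _ (card_cut A)

theorem card_few (n q a : ℕ) (ha : a ≤ n) :
    (Few n q).ncard * 2 ^ (a * (n - a)) ≤
      2 ^ n * (q * (n - a).choose ((n - a) / 2)) ^ a * 2 ^ n.choose 2 := by
  classical
  obtain ⟨A, -, hA⟩ := Finset.exists_subset_card_eq
    (s := (univ : Finset (Fin n))) (n := a) (by simpa using ha)
  have h1 : Few n q ⊆ ⋃ D ∈ (Finset.range n).powerset.filter (fun D => D.card ≤ q),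
      {G : SimpleGraph (Fin n) | ∀ v, (nb G v).card ∈ D} := by
    intro G hG
    simp only [mem_filter, mem_powerset, Set.mem_iUnion, Set.mem_ofPred_eq]
    refine ⟨univ.image fun v => (nb G v).card, ⟨?_, hG⟩, fun v => mem_image_of_mem _ (mem_univ v)⟩
    intro x hx
    obtain ⟨v, _, rfl⟩ := Finset.mem_image.1 hx
    rw [Finset.mem_range]
    have h2 : nb G v ⊆ univ.erase v := by
      intro w hw
      rw [mem_erase]
      exact ⟨(mem_nb.1 hw).ne', mem_univ _⟩
    have h3 := Finset.card_le_card h2
    rw [Finset.card_erase_of_mem (mem_univ _), Finset.card_univ, Fintype.card_fin] at h3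
    have := v.2
    omega
  have h2 : (Few n q).ncard ≤ ∑ D ∈ (Finset.range n).powerset.filter (fun D => D.card ≤ q),
      {G : SimpleGraph (Fin n) | ∀ v, (nb G v).card ∈ D}.ncard :=
    (Set.ncard_le_ncard h1 (Set.toFinite _)).trans (Finset.set_ncard_biUnion_le _ _)
  calc (Few n q).ncard * 2 ^ (a * (n - a))
      ≤ (∑ D ∈ (Finset.range n).powerset.filter (fun D => D.card ≤ q),
        {G : SimpleGraph (Fin n) | ∀ v, (nb G v).card ∈ D}.ncard) * 2 ^ (a * (n - a)) :=
        Nat.mul_le_mul_right _ h2
    _ = ∑ D ∈ (Finset.range n).powerset.filter (fun D => D.card ≤ q),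
        {G : SimpleGraph (Fin n) | ∀ v, (nb G v).card ∈ D}.ncard * 2 ^ (a * (n - a)) := by
        rw [Finset.sum_mul]
    _ ≤ ∑ D ∈ (Finset.range n).powerset.filter (fun D => D.card ≤ q),
        (q * (n - a).choose ((n - a) / 2)) ^ a * 2 ^ n.choose 2 := by
        refine Finset.sum_le_sum fun D hD => ?_
        rw [mem_filter] at hD
        have h3 := card_degs A D
        rw [hA] at h3
        refine h3.trans (Nat.mul_le_mul_right _ (Nat.pow_le_pow_left
          (Nat.mul_le_mul_right _ hD.2) _))
    _ = ((Finset.range n).powerset.filter (fun D => D.card ≤ q)).card *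
        ((q * (n - a).choose ((n - a) / 2)) ^ a * 2 ^ n.choose 2) := by
        rw [Finset.sum_const, smul_eq_mul]
    _ ≤ 2 ^ n * ((q * (n - a).choose ((n - a) / 2)) ^ a * 2 ^ n.choose 2) := by
        refine Nat.mul_le_mul_right _ ((Finset.card_filter_le _ _).trans ?_)
        rw [Finset.card_powerset, Finset.card_range]
    _ = _ := by ring

/-- A graph with an equitable partition into `t` classes has at most `t` different degrees. -/
theorem few_of_eqM {G : SimpleGraph (Fin n)} {ρ : Fin n → Fin n} (h : EqM G ρ) :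
    G ∈ Few n (univ.filter fun x => ρ x = x).card := by
  classical
  have hdeg : ∀ v, (nb G v).card = (nb G (ρ v)).card := by
    intro v
    have h1 : ∀ u, (nb G u).card = ∑ z, Nat.card {w // G.Adj u w ∧ ρ w = z} := by
      intro u
      rw [Finset.card_eq_sum_card_fiberwise (f := ρ) (t := univ) (fun _ _ => mem_univ _)]
      refine Finset.sum_congr rfl fun z _ => ?_
      rw [Nat.card_eq_fintype_card, Fintype.card_subtype]
      congr 1
      ext w
      simp [mem_nb]
    rw [h1, h1]
    exact Finset.sum_congr rfl fun z _ => h.eq v (ρ v) (h.idem v).symm z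
  show (univ.image fun v => (nb G v).card).card ≤ _
  have h2 : (univ.image fun v => (nb G v).card) ⊆
      (univ.filter fun x => ρ x = x).image fun v => (nb G v).card := by
    intro x hx
    obtain ⟨v, _, rfl⟩ := Finset.mem_image.1 hx
    refine Finset.mem_image.2 ⟨ρ v, by simp [h.idem v], (hdeg v).symm⟩
  exact (Finset.card_le_card h2).trans Finset.card_image_le

end Pool.Agent.N579.WL
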