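import Pool.Agent.N579.WL.Base

/-!
# Equitable partitions: the coarsest one, and the number of graphs with a given one
-/

set_option autoImplicit false

namespace Pool.Agent.N579.WL

open Finset

section coarsest

variable {V : Type} [Fintype V] (G : SimpleGraph V)

/-- The elements of `I` are alone in their classes. -/
def Fixes (I : Set V) (r : Setoid V) : Prop := ∀ f ∈ I, ∀ x, r x f → x = f

theorem card_coarser {r r' : Setoid V} (hE : Equitable G r') (hrr : ∀ x y, r' x y → r x y)
    {x y : V} (hxy : r' x y) (z : V) :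
    Nat.card {w // G.Adj x w ∧ r w z} = Nat.card {w // G.Adj y w ∧ r w z} := by
  classical
  have key : ∀ u : V, Nat.card {w // G.Adj u w ∧ r w z} = ∑ q : Quotient r',
      if r q.out z then Nat.card {w // G.Adj u w ∧ r' w q.out} else 0 := by
    intro u
    rw [Nat.card_eq_fintype_card, Fintype.card_subtype]
    rw [Finset.card_eq_sum_card_fiberwise (f := fun w => (⟦w⟧ : Quotient r')) (t := univ)
      (fun _ _ => mem_univ _)]
    refine Finset.sum_congr rfl fun q _ => ?_
    split_ifs with h
    · rw [Nat.card_eq_fintype_card, Fintype.card_subtype]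
      congr 1
      ext w
      simp only [mem_filter, mem_univ, true_and]
      constructor
      · rintro ⟨⟨h1, _⟩, h3⟩
        refine ⟨h1, ?_⟩
        rw [← h3]
        exact r'.symm (Quotient.mk_out w)
      · rintro ⟨h1, h2⟩
        refine ⟨⟨h1, r.trans (hrr _ _ h2) h⟩, ?_⟩
        rw [← Quotient.out_eq q]
        exact Quotient.sound h2
    · rw [Finset.card_eq_zero, Finset.filter_eq_empty_iff]
      rintro w hw rfl
      simp only [mem_filter, mem_univ, true_and] at hw
      exact h (r.trans (hrr _ _ (Quotient.mk_out w)) hw.2)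
  rw [key, key]
  refine Finset.sum_congr rfl fun q _ => ?_
  rw [hE x y hxy q.out]

/-- There is a coarsest equitable partition which fixes the elements of `I`. -/
theorem exists_coarsest (I : Set V) : ∃ r : Setoid V, Equitable G r ∧ Fixes I r ∧
    ∀ r' : Setoid V, Equitable G r' → Fixes I r' → ∀ x y, r' x y → r x y := by
  classical
  let R : V → V → Prop := fun x y => ∃ r' : Setoid V, Equitable G r' ∧ Fixes I r' ∧ r' x y
  have hle : ∀ r' : Setoid V, Equitable G r' → Fixes I r' → ∀ x y, r' x y →
      Relation.EqvGen.setoid R x y := fun r' h1 h2 x y h => Relation.EqvGen.rel _ _ ⟨r', h1, h2, h⟩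
  refine ⟨Relation.EqvGen.setoid R, ?_, ?_, hle⟩
  · intro x y hxy z
    have hxy' : Relation.EqvGen R x y := hxy
    induction hxy' with
    | rel x y h =>
      obtain ⟨r', h1, h2, h3⟩ := h
      exact card_coarser G h1 (hle r' h1 h2) h3 z
    | refl x => rfl
    | symm x y h ih => exact (ih h).symm
    | trans x y z' h1 h2 ih1 ih2 => exact (ih1 h1).trans (ih2 h2)
  · have h0 : ∀ x f, Relation.EqvGen R x f → (f ∈ I → x = f) ∧ (x ∈ I → x = f) := by
      intro x f h
      induction h with
      | rel x y h =>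
        obtain ⟨r', _, h2, h3⟩ := h
        exact ⟨fun hf => h2 y hf x h3, fun hx => (h2 x hx y (r'.symm h3)).symm⟩
      | refl x => exact ⟨fun _ => rfl, fun _ => rfl⟩
      | symm x y h ih => exact ⟨fun hx => (ih.2 hx).symm, fun hy => (ih.1 hy).symm⟩
      | trans x y z h1 h2 ih1 ih2 =>
        refine ⟨fun hz => ?_, fun hx => ?_⟩
        · have h3 := ih2.1 hz
          subst h3
          exact ih1.1 hz
        · have h3 := ih1.2 hx
          subst h3
          exact ih2.2 hx
    exact fun f hf x hx => (h0 x f hx).1 hf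

end coarsest

/-- `ρ` maps every vertex to a representative of its class, and the partition is equitable. -/
structure EqM {n : ℕ} (G : SimpleGraph (Fin n)) (ρ : Fin n → Fin n) : Prop where
  idem : ∀ x, ρ (ρ x) = ρ x
  eq : ∀ x y, ρ x = ρ y → ∀ z, Nat.card {w // G.Adj x w ∧ ρ w = z} =
    Nat.card {w // G.Adj y w ∧ ρ w = z}

theorem exists_eqM {n : ℕ} {G : SimpleGraph (Fin n)} {r : Setoid (Fin n)} (hr : Equitable G r) :
    ∃ ρ, EqM G ρ ∧ ∀ x y, r x y ↔ ρ x = ρ y := by
  classical
  let ρ : Fin n → Fin n := fun x => (⟦x⟧ : Quotient r).out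
  have h1 : ∀ x y, r x y ↔ ρ x = ρ y := by
    intro x y
    constructor
    · intro h
      exact congrArg Quotient.out (Quotient.sound h)
    · intro h
      have h2 : (⟦x⟧ : Quotient r) = ⟦y⟧ := by
        rw [← Quotient.out_eq (⟦x⟧ : Quotient r), ← Quotient.out_eq (⟦y⟧ : Quotient r)]
        exact congrArg _ h
      exact Quotient.exact h2
  have h2 : ∀ x, ρ (ρ x) = ρ x := fun x => (h1 _ _).1 (Quotient.mk_out x)
  refine ⟨ρ, ⟨h2, ?_⟩, h1⟩
  intro x y hxy z
  by_cases hz : ρ z = z
  · have h3 := hr x y ((h1 x y).2 hxy) z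
    have h4 : ∀ w, (ρ w = z) ↔ r w z := fun w => by
      rw [h1 w z, hz]
    simp only [h4]
    exact h3
  · have h5 : ∀ w, ρ w ≠ z := by
      rintro w rfl
      exact hz (h2 w)
    simp [h5]

/-- the number of moved points of `ρ` -/
def defect {n : ℕ} (ρ : Fin n → Fin n) : ℕ := (univ.filter fun x => ρ x ≠ x).card

section priv

variable {n : ℕ}

/-- If the graphs of a family are determined by the pairs outside of `P`, there are few of them. -/
theorem card_le_of_private (P : Finset (Sym2 (Fin n))) (hP : ∀ e ∈ P, ¬ e.IsDiag)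
    (A : Set (SimpleGraph (Fin n)))
    (h : ∀ G ∈ A, ∀ G' ∈ A, (∀ e, e ∉ P → (e ∈ G.edgeSet ↔ e ∈ G'.edgeSet)) → G = G') :
    A.ncard * 2 ^ P.card ≤ Nat.card (SimpleGraph (Fin n)) := by
  classical
  rw [← Finset.card_powerset, ← Set.ncard_coe_finset, ← Set.ncard_prod, ← Set.ncard_univ]
  refine Set.ncard_le_ncard_of_injOn
    (fun x => SimpleGraph.fromEdgeSet ((x.1.edgeSet \ (P : Set (Sym2 (Fin n)))) ∪
      (x.2 : Set (Sym2 (Fin n))))) (fun _ _ => Set.mem_univ _) ?_ (Set.toFinite _)
  have hes : ∀ x : SimpleGraph (Fin n) × Finset (Sym2 (Fin n)), x.2 ⊆ P →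
      (SimpleGraph.fromEdgeSet ((x.1.edgeSet \ (P : Set (Sym2 (Fin n)))) ∪
        (x.2 : Set (Sym2 (Fin n))))).edgeSet = (x.1.edgeSet \ (P : Set (Sym2 (Fin n)))) ∪
          (x.2 : Set (Sym2 (Fin n))) := by
    intro x hx
    rw [SimpleGraph.edgeSet_fromEdgeSet]
    ext e
    simp only [Set.mem_sdiff, Set.mem_union, Finset.mem_coe]
    constructor
    · exact fun h => h.1
    · rintro h
      refine ⟨h, ?_⟩
      rcases h with h | h
      · exact x.1.not_isDiag_of_mem_edgeSet h.1
      · exact hP e (hx h)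
  rintro ⟨G, Q⟩ ⟨hG, hQ⟩ ⟨G', Q'⟩ ⟨hG', hQ'⟩ he
  have hQ1 : Q ⊆ P := by simpa using hQ
  have hQ1' : Q' ⊆ P := by simpa using hQ'
  have he1 := congrArg SimpleGraph.edgeSet he
  have he2 := hes (G, Q) hQ1
  have he3 := hes (G', Q') hQ1'
  simp only at he1 he2 he3
  rw [he2, he3] at he1
  have he4 : ∀ e, ((e ∈ G.edgeSet ∧ e ∉ P) ∨ e ∈ Q) ↔ ((e ∈ G'.edgeSet ∧ e ∉ P) ∨ e ∈ Q') := by
    intro e
    have := Set.ext_iff.1 he1 e
    simpa using this
  have hQQ : Q = Q' := by
    ext e
    constructor
    · intro he5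
      rcases (he4 e).1 (Or.inr he5) with h6 | h6
      · exact absurd (hQ1 he5) h6.2
      · exact h6
    · intro he5
      rcases (he4 e).2 (Or.inr he5) with h6 | h6
      · exact absurd (hQ1' he5) h6.2
      · exact h6
  have hGG : G = G' := by
    refine h G hG G' hG' fun e heP => ?_
    constructor
    · intro h6
      rcases (he4 e).1 (Or.inl ⟨h6, heP⟩) with h7 | h7
      · exact h7.1
      · exact absurd (hQ1' h7) heP
    · intro h6
      rcases (he4 e).2 (Or.inl ⟨h6, heP⟩) with h7 | h7
      · exact h7.1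
      · exact absurd (hQ1 h7) heP
  rw [hQQ, hGG]

/-- The private pairs for an order of the classes. -/
noncomputable def privU (ρ : Fin n → Fin n) (lt : Fin n → Fin n → Prop) :
    Finset (Fin n × Fin n) := by
  classical
  exact univ.filter fun p => ρ p.1 ≠ p.1 ∧ ρ p.2 = p.2 ∧ lt (ρ p.1) p.2

theorem mem_privU {ρ : Fin n → Fin n} {lt : Fin n → Fin n → Prop} {p : Fin n × Fin n} :
    p ∈ privU ρ lt ↔ ρ p.1 ≠ p.1 ∧ ρ p.2 = p.2 ∧ lt (ρ p.1) p.2 := by
  classical
  simp [privU]

/-- For every equitable partition and every order of the classes the graph is determined by the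
pairs that are not private. -/
theorem private_bound (ρ : Fin n → Fin n) (lt : Fin n → Fin n → Prop)
    (hasym : ∀ a b, lt a b → ¬ lt b a) :
    {G : SimpleGraph (Fin n) | EqM G ρ}.ncard * 2 ^ (privU ρ lt).card ≤
      Nat.card (SimpleGraph (Fin n)) := by
  classical
  by_cases hid : ∀ x, ρ (ρ x) = ρ x
  swap
  · have h0 : {G : SimpleGraph (Fin n) | EqM G ρ} = ∅ := by
      ext G
      simp only [Set.mem_ofPred_eq, Set.mem_empty_iff_false, iff_false]
      exact fun h => hid h.idem
    rw [h0, Set.ncard_empty, zero_mul]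
    exact Nat.zero_le _
  have hinj : Set.InjOn (fun p : Fin n × Fin n => s(p.1, p.2)) (privU ρ lt : Set (Fin n × Fin n)) := by
    rintro ⟨a, b⟩ hp ⟨a', b'⟩ hp' h
    have h1 := mem_privU.1 (Finset.mem_coe.1 hp)
    have h2 := mem_privU.1 (Finset.mem_coe.1 hp')
    simp only [Sym2.eq_iff] at h
    rcases h with ⟨rfl, rfl⟩ | ⟨rfl, rfl⟩
    · rfl
    · exact absurd h2.2.1 h1.1
  rw [← Finset.card_image_of_injOn hinj]
  refine card_le_of_private _ ?_ _ ?_
  · intro e he
    obtain ⟨⟨a, b⟩, hp, rfl⟩ := Finset.mem_image.1 he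
    have h1 := mem_privU.1 hp
    simp only at h1
    rw [Sym2.mk_isDiag_iff]
    intro hab
    simp only at hab
    rw [hab] at h1
    exact h1.1 h1.2.1
  · intro G hG G' hG' hag
    have hadj : ∀ a b, s(a, b) ∉ (privU ρ lt).image (fun p => s(p.1, p.2)) →
        (G.Adj a b ↔ G'.Adj a b) := fun a b h => hag s(a, b) h
    have hnot : ∀ a b, (ρ a ≠ a → ρ b = b → ¬ lt (ρ a) b) → (ρ b ≠ b → ρ a = a → ¬ lt (ρ b) a) →
        (G.Adj a b ↔ G'.Adj a b) := by
      intro a b h1 h2
      refine hadj a b fun hm => ?_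
      obtain ⟨⟨c, d⟩, hp, hcd⟩ := Finset.mem_image.1 hm
      have h3 := mem_privU.1 hp
      simp only [Sym2.eq_iff] at hcd h3
      rcases hcd with ⟨rfl, rfl⟩ | ⟨rfl, rfl⟩
      · exact h1 h3.1 h3.2.1 h3.2.2
      · exact h2 h3.1 h3.2.1 h3.2.2
    -- the private pairs
    have hpriv : ∀ u r, ρ u ≠ u → ρ r = r → lt (ρ u) r → (G.Adj u r ↔ G'.Adj u r) := by
      intro u r hu hr hlt
      have e1 := hG.eq u (ρ u) (hid u).symm r
      have e2 := hG'.eq u (ρ u) (hid u).symm r
      have e3 : Nat.card {w // G.Adj (ρ u) w ∧ ρ w = r} = Nat.card {w // G'.Adj (ρ u) w ∧ ρ w = r} := by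
        refine congrArg Nat.card (congrArg Subtype (funext fun w => propext ?_))
        refine and_congr_left fun hw => hnot _ _ ?_ ?_
        · intro h3
          exact absurd (hid u) h3
        · intro _ _ h4
          rw [hw] at h4
          exact hasym _ _ hlt h4
      rw [← e1, ← e2] at e3
      have hsplit : ∀ K : SimpleGraph (Fin n), Nat.card {w // K.Adj u w ∧ ρ w = r} =
          (univ.filter fun w => w ≠ r ∧ K.Adj u w ∧ ρ w = r).card +
            if K.Adj u r then 1 else 0 := by
        intro K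
        rw [Nat.card_eq_fintype_card, Fintype.card_subtype]
        rw [← Finset.card_filter_add_card_filter_not (s := univ.filter fun w => K.Adj u w ∧ ρ w = r)
          (fun w => w ≠ r)]
        congr 1
        · rw [Finset.filter_filter]
          congr 1
          ext w
          simp only [mem_filter, mem_univ, true_and]
          tauto
        · rw [Finset.filter_filter]
          split_ifs with hK
          · rw [Finset.card_eq_one]
            refine ⟨r, ?_⟩
            ext w
            simp only [mem_filter, mem_univ, true_and, mem_singleton, not_not]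
            constructor
            · exact fun h => h.2
            · rintro rfl
              exact ⟨⟨hK, hr⟩, rfl⟩
          · rw [Finset.card_eq_zero, Finset.filter_eq_empty_iff]
            rintro w _ ⟨⟨h3, _⟩, h4⟩
            rw [not_not] at h4
            subst h4
            exact hK h3
      rw [hsplit, hsplit] at e3
      have e4 : (univ.filter fun w => w ≠ r ∧ G.Adj u w ∧ ρ w = r) =
          (univ.filter fun w => w ≠ r ∧ G'.Adj u w ∧ ρ w = r) := by
        ext w
        simp only [mem_filter, mem_univ, true_and]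
        refine and_congr_right fun hwr => and_congr_left fun hw => hnot _ _ ?_ ?_
        · intro _ h4
          exact absurd (h4.symm.trans hw) hwr
        · intro _ h4
          exact absurd h4 hu
      rw [e4] at e3
      have e5 := Nat.add_left_cancel e3
      by_cases h1 : G.Adj u r <;> by_cases h2 : G'.Adj u r <;> simp [h1, h2] at e5 ⊢
    ext a b
    by_cases h1 : ρ a ≠ a ∧ ρ b = b ∧ lt (ρ a) b
    · exact hpriv a b h1.1 h1.2.1 h1.2.2
    · by_cases h2 : ρ b ≠ b ∧ ρ a = a ∧ lt (ρ b) a
      · have := hpriv b a h2.1 h2.2.1 h2.2.2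
        rw [G.adj_comm, G'.adj_comm]
        exact this
      · exact hnot a b (fun h3 h4 h5 => h1 ⟨h3, h4, h5⟩) (fun h3 h4 h5 => h2 ⟨h3, h4, h5⟩)

end priv

end Pool.Agent.N579.WL
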