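import Pool.Agent.N579.WL.Count

/-!
# A graph which is not identified by the WL method has an equitable partition of large defect
-/

set_option autoImplicit false

namespace Pool.Agent.N579.WL

open Finset Pool.Agent.W185.SRG

/-- The graph `G` is identified by the `k`-dimensional Weisfeiler-Leman method: every graph that
the method does not distinguish from `G` is isomorphic to `G`. -/
def IdentifiedBy {V : Type} [Fintype V] (k : ℕ) (G : SimpleGraph V) : Prop :=
  ∀ (V' : Type) [Fintype V'] (H : SimpleGraph V'), WLEquivalent k G H → Nonempty (G ≃g H)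

/-- A graph which is not identified has an equitable partition of large defect with many classes. -/
theorem eqM_of_not {n k : ℕ} (hk : 2 ≤ k) (hkn : k ≤ n) (G : SimpleGraph (Fin n))
    (hG : ¬ IdentifiedBy k G) : ∃ ρ, EqM G ρ ∧ 1 ≤ defect ρ ∧ k ≤ 4 * defect ρ ∧
      (k - 2) / 2 + defect ρ ≤ n := by
  classical
  obtain ⟨j, hj⟩ : ∃ j, j = (k - 2) / 2 := ⟨_, rfl⟩
  rw [← hj]
  let I : Finset (Fin n) := univ.filter fun v => (v : ℕ) < j
  have hI : I.card = j := by
    have h1 : I = (univ : Finset (Fin j)).map ⟨Fin.castLE (by omega), Fin.castLE_injective _⟩ := by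
      ext v
      simp only [I, mem_filter, mem_univ, true_and, mem_map, Function.Embedding.coeFn_mk]
      constructor
      · exact fun h => ⟨⟨v, h⟩, by ext; simp⟩
      · rintro ⟨w, rfl⟩
        simp
    rw [h1, Finset.card_map, Finset.card_univ, Fintype.card_fin]
  obtain ⟨r, hr1, hr2, hr3⟩ := exists_coarsest G (I : Set (Fin n))
  obtain ⟨ρ, hρ, hrρ⟩ := exists_eqM hr1
  -- the vertices in nontrivial classes
  let N : Finset (Fin n) := univ \ sing ρ
  have hfix : ∀ v ∈ I, v ∈ sing ρ := by
    intro v hv
    have h1 : ∀ x, ρ x = ρ v → x = v := fun x hx => hr2 v hv x ((hrρ x v).2 hx)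
    have h2 : ρ v = v := h1 (ρ v) (hρ.idem v)
    rw [mem_sing]
    exact ⟨h2, fun x hx => h1 x (by rw [hx, h2])⟩
  have hN : k ≤ (I ∪ N).card + 1 := by
    by_contra hlt
    push Not at hlt
    apply hG
    intro V' _ H hw
    refine identified_of_base G H (I ∪ N) (by omega) ?_ hw
    intro r' h1 h2 x y hxy
    have h3 := hr3 r' h1 (fun f hf => h2 f (mem_union_left _ hf)) x y hxy
    by_cases hy : y ∈ sing ρ
    · have h4 := mem_sing.1 hy
      exact h4.2 x (by rw [(hrρ x y).1 h3, h4.1])
    · exact h2 y (mem_union_right _ (mem_sdiff.2 ⟨mem_univ _, hy⟩)) x hxy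
  have hNd : N.card ≤ 2 * defect ρ := by
    have h1 := card_sing ρ
    have h2 : N.card = n - (sing ρ).card := by
      rw [Finset.card_sdiff_of_subset (subset_univ _), Finset.card_univ, Fintype.card_fin]
    omega
  have hu := Finset.card_union_le I N
  have hjd : j + defect ρ ≤ n := by
    have h1 : I ⊆ univ.filter fun x => ρ x = x := by
      intro v hv
      simp only [mem_filter, mem_univ, true_and]
      exact (mem_sing.1 (hfix v hv)).1
    have h2 := Finset.card_le_card h1
    have h3 := card_reps ρ
    omega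
  refine ⟨ρ, hρ, ?_, ?_, hjd⟩ <;> omega

end Pool.Agent.N579.WL
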