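import Pool.Agent.N579.WL.Ident

/-!
# Random graphs whose pairs have bounded conditional probabilities
-/

set_option autoImplicit false

namespace Pool.Agent.N579.WL

open Finset

variable {n : ℕ}

/-- The graph got from `G` by changing the state of the pair `e`. -/
def flip (e : Sym2 (Fin n)) (G : SimpleGraph (Fin n)) : SimpleGraph (Fin n) :=
  SimpleGraph.fromEdgeSet (symmDiff G.edgeSet {e})

theorem flip_adj {e : Sym2 (Fin n)} {G : SimpleGraph (Fin n)} {a b : Fin n} :
    (flip e G).Adj a b ↔ a ≠ b ∧ (G.Adj a b ↔ s(a, b) ≠ e) := by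
  unfold flip
  rw [SimpleGraph.fromEdgeSet_adj, Set.mem_symmDiff, SimpleGraph.mem_edgeSet,
    Set.mem_singleton_iff]
  tauto

theorem flip_flip (e : Sym2 (Fin n)) (G : SimpleGraph (Fin n)) : flip e (flip e G) = G := by
  ext a b
  rw [flip_adj, flip_adj]
  have : G.Adj a b → a ≠ b := fun h => h.ne
  tauto

/-- The change of the state of a pair as a permutation of the graphs. -/
def flipE (e : Sym2 (Fin n)) : SimpleGraph (Fin n) ≃ SimpleGraph (Fin n) where
  toFun := flip e
  invFun := flip e
  left_inv := flip_flip e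
  right_inv := flip_flip e

/-- `W` is the law of a random graph on `n` vertices such that for each pair of vertices, the
conditional probability of either state of the pair (edge or not), given the states of all the other
pairs, is at least `δ`. -/
structure Law (δ : ℝ) (W : SimpleGraph (Fin n) → ℝ) : Prop where
  nonneg : ∀ G, 0 ≤ W G
  sum : ∑ G, W G = 1
  cond : ∀ G (e : Sym2 (Fin n)), ¬ e.IsDiag → δ * (W G + W (flip e G)) ≤ W G

/-- The probability of the event `A` under the law `W`. -/
noncomputable def prob (W : SimpleGraph (Fin n) → ℝ) (A : Set (SimpleGraph (Fin n))) : ℝ :=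
  ∑ G, A.indicator W G

section basic

variable {δ : ℝ} {W : SimpleGraph (Fin n) → ℝ}

theorem prob_nonneg (hW : ∀ G, 0 ≤ W G) (A : Set (SimpleGraph (Fin n))) : 0 ≤ prob W A :=
  Finset.sum_nonneg fun G _ => Set.indicator_nonneg (fun G _ => hW G) G

theorem prob_mono (hW : ∀ G, 0 ≤ W G) {A B : Set (SimpleGraph (Fin n))} (h : A ⊆ B) :
    prob W A ≤ prob W B :=
  Finset.sum_le_sum fun G _ => Set.indicator_le_indicator_of_subset h hW G

theorem prob_biUnion_le (hW : ∀ G, 0 ≤ W G) {ι : Type} (s : Finset ι)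
    (A : ι → Set (SimpleGraph (Fin n))) : prob W (⋃ i ∈ s, A i) ≤ ∑ i ∈ s, prob W (A i) := by
  classical
  unfold prob
  rw [Finset.sum_comm]
  refine Finset.sum_le_sum fun G _ => ?_
  by_cases h : G ∈ ⋃ i ∈ s, A i
  · rw [Set.indicator_of_mem h]
    simp only [Set.mem_iUnion] at h
    obtain ⟨i, hi, hG⟩ := h
    refine le_trans (le_of_eq ?_) (Finset.single_le_sum (f := fun i => (A i).indicator W G)
      (fun j _ => Set.indicator_nonneg (fun G _ => hW G) G) hi)
    exact (Set.indicator_of_mem hG W).symm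
  · rw [Set.indicator_of_notMem h]
    exact Finset.sum_nonneg fun j _ => Set.indicator_nonneg (fun G _ => hW G) G

theorem prob_union_le (hW : ∀ G, 0 ≤ W G) (A B : Set (SimpleGraph (Fin n))) :
    prob W (A ∪ B) ≤ prob W A + prob W B := by
  unfold prob
  rw [← Finset.sum_add_distrib]
  refine Finset.sum_le_sum fun G _ => ?_
  have h1 : 0 ≤ A.indicator W G := Set.indicator_nonneg (fun G _ => hW G) G
  have h2 : 0 ≤ B.indicator W G := Set.indicator_nonneg (fun G _ => hW G) G
  by_cases hA : G ∈ A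
  · rw [Set.indicator_of_mem (Set.mem_union_left _ hA), Set.indicator_of_mem hA]
    linarith
  · by_cases hB : G ∈ B
    · rw [Set.indicator_of_mem (Set.mem_union_right _ hB), Set.indicator_of_mem hB]
      linarith
    · rw [Set.indicator_of_notMem (by simp [hA, hB])]
      linarith

/-- One pair is decisive for the factor `h`, and the function `f` does not depend on it. -/
theorem Law.factor (hW : Law δ W) {e : Sym2 (Fin n)} (he : ¬ e.IsDiag)
    (f h : SimpleGraph (Fin n) → ℝ) (hf0 : ∀ G, 0 ≤ f G) (hf : ∀ G, f (flip e G) = f G)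
    (hh : ∀ G, (h G = 1 ∧ h (flip e G) = 1 / 2) ∨ (h G = 1 / 2 ∧ h (flip e G) = 1)) :
    ∑ G, W G * (f G * h G) ≤ (1 - δ / 2) * ∑ G, W G * f G := by
  have h1 : ∑ G, W G * (f G * h G) = ∑ G, W (flip e G) * (f G * h (flip e G)) := by
    rw [← Equiv.sum_comp (flipE e)]
    refine Finset.sum_congr rfl fun G _ => ?_
    show W (flip e G) * (f (flip e G) * h (flip e G)) = _
    rw [hf]
  have h2 : ∑ G, W G * f G = ∑ G, W (flip e G) * f G := by
    rw [← Equiv.sum_comp (flipE e)]
    refine Finset.sum_congr rfl fun G _ => ?_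
    show W (flip e G) * f (flip e G) = _
    rw [hf]
  have h3 : ∑ G, W G * (f G * h G) + ∑ G, W (flip e G) * (f G * h (flip e G)) ≤
      (1 - δ / 2) * (∑ G, W G * f G + ∑ G, W (flip e G) * f G) := by
    rw [← Finset.sum_add_distrib, ← Finset.sum_add_distrib, Finset.mul_sum]
    refine Finset.sum_le_sum fun G _ => ?_
    have h4 := hW.cond G e he
    have h5 := hW.cond (flip e G) e he
    rw [flip_flip] at h5
    have h6 := hf0 G
    rcases hh G with ⟨h7, h8⟩ | ⟨h7, h8⟩ <;> rw [h7, h8]
    · nlinarith [mul_le_mul_of_nonneg_left h5 h6]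
    · nlinarith [mul_le_mul_of_nonneg_left h4 h6]
  rw [← h1, ← h2] at h3
  linarith

end basic

/-- The number of neighbours of `x` in the class `r`. -/
noncomputable def dg (G : SimpleGraph (Fin n)) (ρ : Fin n → Fin n) (x r : Fin n) : ℕ :=
  Nat.card {w // G.Adj x w ∧ ρ w = r}

theorem dg_flip_of_ne {G : SimpleGraph (Fin n)} {ρ : Fin n → Fin n} {x r : Fin n}
    {e : Sym2 (Fin n)} (h : ∀ w, ρ w = r → s(x, w) ≠ e) : dg (flip e G) ρ x r = dg G ρ x r := by
  unfold dg
  refine congrArg Nat.card (congrArg Subtype (funext fun w => propext ?_))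
  refine and_congr_left fun hw => ?_
  rw [flip_adj]
  have h1 := h w hw
  have : G.Adj x w → x ≠ w := fun h => h.ne
  tauto

theorem dg_split (G : SimpleGraph (Fin n)) (ρ : Fin n → Fin n) {x r w0 : Fin n} (hr : ρ w0 = r) :
    dg G ρ x r = Nat.card {w // w ≠ w0 ∧ G.Adj x w ∧ ρ w = r} +
      Nat.card {w // w = w0 ∧ G.Adj x w} := by
  classical
  unfold dg
  rw [Nat.card_eq_fintype_card, Nat.card_eq_fintype_card, Nat.card_eq_fintype_card,
    Fintype.card_subtype, Fintype.card_subtype, Fintype.card_subtype, ← Finset.card_union_of_disjoint]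
  · congr 1
    ext w
    simp only [mem_filter, mem_univ, true_and, mem_union]
    by_cases hw : w = w0
    · subst hw
      simp [hr]
    · simp [hw]
  · rw [Finset.disjoint_left]
    intro w h1 h2
    simp only [mem_filter, mem_univ, true_and] at h1 h2
    exact h1.1 h2.1

theorem dg_flip_parity {G : SimpleGraph (Fin n)} {ρ : Fin n → Fin n} {x r w0 : Fin n}
    (hr : ρ w0 = r) (hx : x ≠ w0) :
    Even (dg (flip s(x, w0) G) ρ x r) ↔ ¬ Even (dg G ρ x r) := by
  classical
  rw [dg_split _ _ hr, dg_split G _ hr]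
  have h1 : Nat.card {w // w ≠ w0 ∧ (flip s(x, w0) G).Adj x w ∧ ρ w = r} =
      Nat.card {w // w ≠ w0 ∧ G.Adj x w ∧ ρ w = r} := by
    refine congrArg Nat.card (congrArg Subtype (funext fun w => propext ?_))
    refine and_congr_right fun hw => and_congr_left fun _ => ?_
    rw [flip_adj]
    have h2 : s(x, w) ≠ s(x, w0) := by
      intro h
      rw [Sym2.eq_iff] at h
      rcases h with h | h
      · exact hw h.2
      · exact hw (h.2.trans h.1)
    have : G.Adj x w → x ≠ w := fun h => h.ne
    tauto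
  have h3 : ∀ K : SimpleGraph (Fin n), Nat.card {w // w = w0 ∧ K.Adj x w} =
      if K.Adj x w0 then 1 else 0 := by
    intro K
    rw [Nat.card_eq_fintype_card, Fintype.card_subtype]
    split_ifs with hK
    · rw [Finset.card_eq_one]
      refine ⟨w0, ?_⟩
      ext w
      simp only [mem_filter, mem_univ, true_and, mem_singleton]
      exact ⟨fun h => h.1, fun h => ⟨h, h ▸ hK⟩⟩
    · rw [Finset.card_eq_zero, Finset.filter_eq_empty_iff]
      rintro w _ ⟨rfl, h⟩
      exact hK h
  rw [h1, h3, h3]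
  have h4 : (flip s(x, w0) G).Adj x w0 ↔ ¬ G.Adj x w0 := by
    rw [flip_adj]
    tauto
  by_cases h5 : G.Adj x w0
  · rw [if_neg (by tauto), if_pos h5, add_zero, Nat.even_add_one, not_not]
  · rw [if_pos (by tauto), if_neg h5, add_zero, Nat.even_add_one]

/-- The pairs of a pair `x`, `τ x` of vertices and a class `r`. -/
noncomputable def idx (ρ τ : Fin n → Fin n) (lt : Fin n → Fin n → Prop) :
    Finset (Fin n × Fin n) := by
  classical
  exact univ.filter fun p => τ p.1 < p.1 ∧ ρ p.2 = p.2 ∧ lt (ρ p.1) p.2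

theorem mem_idx {ρ τ : Fin n → Fin n} {lt : Fin n → Fin n → Prop} {p : Fin n × Fin n} :
    p ∈ idx ρ τ lt ↔ τ p.1 < p.1 ∧ ρ p.2 = p.2 ∧ lt (ρ p.1) p.2 := by
  classical
  simp [idx]

open Classical in
/-- the factor of one pair: `1` if the two numbers of neighbours have the same parity -/
noncomputable def fac (ρ τ : Fin n → Fin n) (G : SimpleGraph (Fin n)) (p : Fin n × Fin n) : ℝ :=
  if Even (dg G ρ p.1 p.2 + dg G ρ (τ p.1) p.2) then 1 else 1 / 2

theorem fac_nonneg (ρ τ : Fin n → Fin n) (G : SimpleGraph (Fin n)) (p : Fin n × Fin n) :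
    0 ≤ fac ρ τ G p := by
  unfold fac
  split_ifs <;> norm_num

section blocks

variable {δ : ℝ} {W : SimpleGraph (Fin n) → ℝ} {ρ τ : Fin n → Fin n}
  {lt : Fin n → Fin n → Prop}

theorem Law.blocks (hW : Law δ W) (hδ : δ ≤ 1) (hτ : ∀ x, τ (τ x) = x) (hρτ : ∀ x, ρ (τ x) = ρ x)
    (hasym : ∀ a b, lt a b → ¬ lt b a) (I : Finset (Fin n × Fin n)) (hI : I ⊆ idx ρ τ lt) :
    ∑ G, W G * ∏ p ∈ I, fac ρ τ G p ≤ (1 - δ / 2) ^ I.card := by
  classical
  have hirr : ∀ a, ¬ lt a a := fun a h => hasym a a h h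
  induction I using Finset.induction_on with
  | empty => simp [hW.sum]
  | insert p I hp ih =>
    have hI' : I ⊆ idx ρ τ lt := fun q hq => hI (mem_insert_of_mem hq)
    have hpI := mem_idx.1 (hI (mem_insert_self p I))
    obtain ⟨x, r⟩ := p
    obtain ⟨h1, h2, h3⟩ := hpI
    simp only at h1 h2 h3
    have hxr : x ≠ r := by
      rintro rfl
      rw [h2] at h3
      exact hirr _ h3
    have hfac : ∀ q ∈ I, ∀ G : SimpleGraph (Fin n), fac ρ τ (flip s(x, r) G) q = fac ρ τ G q := by
      rintro ⟨y, r'⟩ hq G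
      have hqI := mem_idx.1 (hI' hq)
      obtain ⟨h4, h5, h6⟩ := hqI
      simp only at h4 h5 h6
      have hne : (y, r') ≠ (x, r) := by
        intro h
        rw [h] at hq
        exact hp hq
      have key : ∀ z, (z = y ∨ z = τ y) → ∀ w, ρ w = r' → s(z, w) ≠ s(x, r) := by
        intro z hz w hw h
        have hρz : ρ z = ρ y := by
          rcases hz with rfl | rfl
          · rfl
          · exact hρτ y
        rw [Sym2.eq_iff] at h
        rcases h with ⟨h7, h8⟩ | ⟨h7, h8⟩
        · -- z = x and w = r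
          apply hne
          have h9 : r' = r := by rw [← hw, h8, h2]
          rw [h9]
          congr 1
          rcases hz with h10 | h10
          · exact h10.symm.trans h7
          · exfalso
            have h11 : τ x = y := by rw [← h7, h10, hτ]
            rw [h11] at h1
            have h12 : τ y = x := h10.symm.trans h7
            rw [h12] at h4
            exact lt_asymm h1 h4
        · -- z = r and w = x
          have h9 : ρ y = r := by rw [← hρz, h7, h2]
          have h10 : r' = ρ x := by rw [← hw, h8]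
          rw [h9, h10] at h6
          exact hasym _ _ h3 h6
      unfold fac
      rw [dg_flip_of_ne (key y (Or.inl rfl)), dg_flip_of_ne (key (τ y) (Or.inr rfl))]
    have hstep := hW.factor (e := s(x, r)) (by
        rw [Sym2.mk_isDiag_iff]
        exact hxr) (fun G => ∏ q ∈ I, fac ρ τ G q) (fun G => fac ρ τ G (x, r))
      (fun G => Finset.prod_nonneg fun q _ => fac_nonneg ρ τ G q)
      (fun G => Finset.prod_congr rfl fun q hq => hfac q hq G) (by
        intro G
        have h4 : dg (flip s(x, r) G) ρ (τ x) r = dg G ρ (τ x) r := by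
          refine dg_flip_of_ne fun w hw h => ?_
          rw [Sym2.eq_iff] at h
          rcases h with ⟨h5, h6⟩ | ⟨h5, h6⟩
          · rw [h5] at h1
            exact lt_irrefl _ h1
          · have h7 : ρ x = r := by rw [← h6, hw]
            rw [h7] at h3
            exact hirr _ h3
        have h5 : Even (dg (flip s(x, r) G) ρ x r) ↔ ¬ Even (dg G ρ x r) := dg_flip_parity h2 hxr
        show (fac ρ τ G (x, r) = 1 ∧ fac ρ τ (flip s(x, r) G) (x, r) = 1 / 2) ∨
          (fac ρ τ G (x, r) = 1 / 2 ∧ fac ρ τ (flip s(x, r) G) (x, r) = 1)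
        unfold fac
        simp only [h4]
        have h8 : Even (dg (flip s(x, r) G) ρ x r + dg G ρ (τ x) r) ↔
            ¬ Even (dg G ρ x r + dg G ρ (τ x) r) := by
          rw [Nat.even_add, Nat.even_add, h5]
          tauto
        by_cases h6 : Even (dg G ρ x r + dg G ρ (τ x) r)
        · rw [if_pos h6, if_neg (by tauto)]
          exact Or.inl ⟨rfl, rfl⟩
        · rw [if_neg h6, if_pos (by tauto)]
          exact Or.inr ⟨rfl, rfl⟩)
    rw [Finset.card_insert_of_notMem hp, pow_succ']
    have hsum : ∑ G, W G * ∏ q ∈ insert (x, r) I, fac ρ τ G q =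
        ∑ G, W G * ((∏ q ∈ I, fac ρ τ G q) * fac ρ τ G (x, r)) := by
      refine Finset.sum_congr rfl fun G _ => ?_
      rw [Finset.prod_insert hp, mul_comm (fac ρ τ G (x, r))]
    rw [hsum]
    refine hstep.trans ?_
    exact mul_le_mul_of_nonneg_left (ih hI') (by linarith)

/-- The number of pairs in which two graphs differ. -/
noncomputable def dist (G H : SimpleGraph (Fin n)) : ℕ := (symmDiff G.edgeSet H.edgeSet).ncard

/-- The number of violated parity conditions is at most the distance to a graph for which the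
partition is equitable. -/
theorem viol_le (hτ : ∀ x, τ (τ x) = x) (hρτ : ∀ x, ρ (τ x) = ρ x)
    (hasym : ∀ a b, lt a b → ¬ lt b a) {G H : SimpleGraph (Fin n)} (hH : EqM H ρ) :
    (1 / 2 : ℝ) ^ dist G H ≤ ∏ p ∈ idx ρ τ lt, fac ρ τ G p := by
  classical
  let V : Finset (Fin n × Fin n) := (idx ρ τ lt).filter fun p =>
    ¬ Even (dg G ρ p.1 p.2 + dg G ρ (τ p.1) p.2)
  have h1 : ∏ p ∈ idx ρ τ lt, fac ρ τ G p = (1 / 2 : ℝ) ^ V.card := by
    rw [← Finset.prod_filter_mul_prod_filter_not (idx ρ τ lt)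
      (fun p => ¬ Even (dg G ρ p.1 p.2 + dg G ρ (τ p.1) p.2))]
    have h2 : ∏ p ∈ V, fac ρ τ G p = (1 / 2 : ℝ) ^ V.card := by
      rw [← Finset.prod_const]
      refine Finset.prod_congr rfl fun p hp => ?_
      unfold fac
      rw [if_neg (mem_filter.1 hp).2]
    have h3 : ∏ p ∈ (idx ρ τ lt).filter (fun p =>
        ¬ ¬ Even (dg G ρ p.1 p.2 + dg G ρ (τ p.1) p.2)), fac ρ τ G p = 1 := by
      refine Finset.prod_eq_one fun p hp => ?_
      unfold fac
      rw [if_pos (not_not.1 (mem_filter.1 hp).2)]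
    rw [h3, mul_one]
    exact h2
  rw [h1]
  refine pow_le_pow_of_le_one (by norm_num) (by norm_num) ?_
  -- choose a changed pair for each violated condition
  have hch : ∀ p ∈ V, ∃ q : Fin n × Fin n, (q.1 = p.1 ∨ q.1 = τ p.1) ∧ ρ q.2 = p.2 ∧
      s(q.1, q.2) ∈ symmDiff G.edgeSet H.edgeSet := by
    intro p hp
    have h2 := (mem_filter.1 hp).2
    by_contra hcon
    push Not at hcon
    apply h2
    have h3 : ∀ z, (z = p.1 ∨ z = τ p.1) → dg G ρ z p.2 = dg H ρ z p.2 := by
      intro z hz
      unfold dg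
      refine congrArg Nat.card (congrArg Subtype (funext fun w => propext ?_))
      refine and_congr_left fun hw => ?_
      have h4 := hcon (z, w) hz hw
      rw [Set.mem_symmDiff] at h4
      simp only [SimpleGraph.mem_edgeSet] at h4
      tauto
    rw [h3 p.1 (Or.inl rfl), h3 (τ p.1) (Or.inr rfl)]
    have h4 : dg H ρ p.1 p.2 = dg H ρ (τ p.1) p.2 := hH.eq p.1 (τ p.1) (hρτ p.1).symm p.2
    rw [h4]
    exact ⟨_, rfl⟩
  choose! q hq1 hq2 hq3 using hch
  have h2 : V.card ≤ dist G H := by
    rw [← Set.ncard_coe_finset]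
    refine Set.ncard_le_ncard_of_injOn (fun p => s((q p).1, (q p).2)) ?_ ?_ (Set.toFinite _)
    · intro p hp
      exact hq3 p hp
    · intro p hp p' hp' h
      have hp1 := mem_idx.1 (mem_filter.1 (Finset.mem_coe.1 hp)).1
      have hp1' := mem_idx.1 (mem_filter.1 (Finset.mem_coe.1 hp')).1
      have hρ1 : ρ (q p).1 = ρ p.1 := by
        rcases hq1 p hp with h | h <;> rw [h]
        exact hρτ _
      have hρ1' : ρ (q p').1 = ρ p'.1 := by
        rcases hq1 p' hp' with h | h <;> rw [h]
        exact hρτ _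
      simp only [Sym2.eq_iff] at h
      rcases h with ⟨h4, h5⟩ | ⟨h4, h5⟩
      · have h6 : p.2 = p'.2 := by rw [← hq2 p hp, ← hq2 p' hp', h5]
        refine Prod.ext ?_ h6
        rcases hq1 p hp with h7 | h7 <;> rcases hq1 p' hp' with h8 | h8
        · rw [← h7, ← h8, h4]
        · exfalso
          have h9 : p.1 = τ p'.1 := by rw [← h7, ← h8, h4]
          have h10 := hp1.1
          have h11 := hp1'.1
          rw [h9, hτ] at h10
          exact lt_asymm h10 h11
        · exfalso
          have h9 : τ p.1 = p'.1 := by rw [← h7, ← h8, h4]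
          have h10 := hp1.1
          have h11 := hp1'.1
          rw [← h9, hτ] at h11
          exact lt_asymm h10 h11
        · have h9 : τ p.1 = τ p'.1 := by rw [← h7, ← h8, h4]
          rw [← hτ p.1, h9, hτ]
      · exfalso
        have h6 := hp1.2.2
        have h7 := hp1'.2.2
        rw [← hρ1, ← hq2 p hp, h4, h5, hρ1', hq2 p' hp'] at h6
        exact hasym _ _ h7 h6
  exact h2

/-- The graphs near to a graph for which the partition is equitable. -/
theorem Law.near (hW : Law δ W) (hδ : δ ≤ 1) (hτ : ∀ x, τ (τ x) = x) (hρτ : ∀ x, ρ (τ x) = ρ x)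
    (hasym : ∀ a b, lt a b → ¬ lt b a) (s : ℕ) :
    prob W {G | ∃ H, EqM H ρ ∧ dist G H ≤ s} ≤
      2 ^ s * (1 - δ / 2) ^ (idx ρ τ lt).card := by
  classical
  refine le_trans ?_ (mul_le_mul_of_nonneg_left (hW.blocks hδ hτ hρτ hasym _ Subset.rfl)
    (by positivity))
  unfold prob
  rw [Finset.mul_sum]
  refine Finset.sum_le_sum fun G _ => ?_
  have h0 : 0 ≤ ∏ p ∈ idx ρ τ lt, fac ρ τ G p := Finset.prod_nonneg fun q _ => fac_nonneg ρ τ G q
  by_cases hG : ∃ H, EqM H ρ ∧ dist G H ≤ s
  · rw [Set.indicator_of_mem (by exact hG)]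
    obtain ⟨H, hH, hs⟩ := hG
    have h1 := viol_le (lt := lt) hτ hρτ hasym hH (G := G)
    have h2 : (1 / 2 : ℝ) ^ s ≤ (1 / 2) ^ dist G H :=
      pow_le_pow_of_le_one (by norm_num) (by norm_num) hs
    have h3 : (1 : ℝ) ≤ 2 ^ s * ∏ p ∈ idx ρ τ lt, fac ρ τ G p := by
      calc (1 : ℝ) = 2 ^ s * (1 / 2) ^ s := by rw [← mul_pow]; norm_num
        _ ≤ _ := mul_le_mul_of_nonneg_left (h2.trans h1) (by positivity)
    calc W G = W G * 1 := (mul_one _).symm
      _ ≤ W G * (2 ^ s * ∏ p ∈ idx ρ τ lt, fac ρ τ G p) :=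
        mul_le_mul_of_nonneg_left h3 (hW.nonneg G)
      _ = _ := by ring
  · rw [Set.indicator_of_notMem (by exact hG)]
    exact mul_nonneg (by positivity) (mul_nonneg (hW.nonneg G) h0)

end blocks

end Pool.Agent.N579.WL
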