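import Pool.Agent.N579.WL.Plant
import Pool.Agent.N579.WL.Law

/-!
# Graphs which are not identified by the Weisfeiler-Leman method, near to every graph
-/

set_option autoImplicit false
set_option linter.unusedSectionVars false

namespace Pool.Agent.N579.WL

open Finset Pool.Agent.W185.SRG Pool.Agent.Y598.IM Pool.Agent.Y598.IM.Sp

/-- Two nonisomorphic tournaments of linear size in one family. -/
theorem tour_pair (k : ℕ) (hk : 1 ≤ k) :
    ∃ (V X L B : Type) (_ : Fintype V) (_ : AddCommGroup X) (_ : SemilatticeSup L)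
      (_ : OrderBot L) (F : Fam X L V B) (b b' : B), Nonempty V ∧
      Fintype.card V ≤ 2 ^ 61 * k ∧ F.c * (k + 1) ≤ F.K ∧
      ¬ ∃ φ : V ≃ V, ∀ x y, F.G b x y ↔ F.G b' (φ x) (φ y) := by
  classical
  have : Fact (Nat.Prime 3) := ⟨by norm_num⟩
  obtain ⟨N, hN⟩ : ∃ N : ℕ, N = 2 ^ 36 * 66 * k := ⟨_, rfl⟩
  obtain ⟨m, hm⟩ : ∃ m : ℕ, m = 12 * 66 * N := ⟨_, rfl⟩
  have hck : 6 * N * Fintype.card (ZMod 3) ≤ k * 2 ^ 66 := by
    rw [ZMod.card, hN]
    calc 6 * (2 ^ 36 * 66 * k) * 3 = k * (6 * 2 ^ 36 * 66 * 3) := by ring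
      _ ≤ _ := Nat.mul_le_mul_left _ (by norm_num)
  obtain ⟨ω, hE, -⟩ := exists_system (F := ZMod 3) (two_ne (by norm_num)) hN hm (by norm_num) hk hck
  have hN1 : 1000 * k ≤ N := by
    rw [hN]
    exact Nat.mul_le_mul_right _ (by norm_num)
  have hb : ∃ b : Fin m → ZMod 3, ∀ x : Fin 6 × Fin N → ZMod 3, ∃ v, rval (ω v) x ≠ b v := by
    by_contra hcon
    push Not at hcon
    have hsurj : Function.Surjective
        (fun (x : Fin 6 × Fin N → ZMod 3) (v : Fin m) => rval (ω v) x) := by
      intro b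
      obtain ⟨x, hx⟩ := hcon b
      exact ⟨x, funext hx⟩
    have h3 := Fintype.card_le_of_surjective _ hsurj
    rw [Fintype.card_fun, Fintype.card_fun, Fintype.card_fin, Fintype.card_prod, Fintype.card_fin,
      Fintype.card_fin, ZMod.card] at h3
    have h4 := (Nat.pow_le_pow_iff_right (by norm_num : 1 < 3)).1 h3
    omega
  obtain ⟨b, hb⟩ := hb
  have hn0 : 0 < 100 * k := by omega
  refine ⟨Vt 3 N m, _, _, _, inferInstance, inferInstance, inferInstance, inferInstance,
    tFam hn0 ω hE, 0, b, ?_, ?_, ?_, ?_⟩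
  · exact ⟨Sum.inl ((0, ⟨0, by omega⟩), 0)⟩
  · rw [Fintype.card_sum, Fintype.card_prod, Fintype.card_prod, Fintype.card_prod,
      Fintype.card_prod, Fintype.card_fun, Fintype.card_fin, Fintype.card_fin, Fintype.card_fin,
      Fintype.card_fin, ZMod.card, Fintype.card_bool, hm, hN]
    calc _ = (6 * 3 + 2 * (12 * 66) * 3 ^ 5) * (2 ^ 36 * 66) * k := by ring
      _ ≤ _ := Nat.mul_le_mul_right _ (by norm_num)
  · show 5 * (k + 1) ≤ 100 * k
    omega
  · rintro ⟨φ, hφ⟩
    obtain ⟨t, _, _, ht⟩ := iso_shift (by norm_num) φ hφ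
    obtain ⟨v, hv⟩ := hb t
    apply hv
    rw [ht, Pi.zero_apply, sub_zero]

/-- A pattern of the pairs that meet a small set of vertices forces that a graph is not
identified. -/
theorem pattern (n k : ℕ) (hk : 1 ≤ k) (hn : 2 ^ 65 * k ≤ n) :
    ∃ (Q : Finset (Fin n)) (P : SimpleGraph (Fin n)), Q.card ≤ 2 ^ 65 * k ∧
      ∀ G : SimpleGraph (Fin n), (∀ x ∈ Q, ∀ y, (G.Adj x y ↔ P.Adj x y)) →
        ¬ IdentifiedBy k G := by
  classical
  obtain ⟨V, X, L, B, iV, iX, iL, iL', F, b, b', hV, hcV, hK, hT⟩ := tour_pair k hk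
  obtain ⟨t, ht⟩ : ∃ t, t = 3 * Fintype.card V + 4 := ⟨_, rfl⟩
  have hV1 : 1 ≤ Fintype.card V := Fintype.card_pos
  have hcard : Fintype.card ((V × Fin 3) ⊕ Fin t) ≤ 2 ^ 65 * k := by
    rw [Fintype.card_sum, Fintype.card_prod, Fintype.card_fin, Fintype.card_fin, ht]
    calc Fintype.card V * 3 + (3 * Fintype.card V + 4) ≤ 16 * Fintype.card V := by omega
      _ ≤ 16 * (2 ^ 61 * k) := Nat.mul_le_mul_left _ hcV
      _ = _ := by ring
  obtain ⟨ι⟩ : Nonempty ((V × Fin 3) ⊕ Fin t ↪ Fin n) := by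
    refine Function.Embedding.nonempty_of_card_le ?_
    rw [Fintype.card_fin]
    exact hcard.trans hn
  let W : Type := {x : Fin n // ∀ z : V × Fin 3, ι (Sum.inl z) ≠ x}
  let e0 : W ⊕ V × Fin 3 → Fin n := Sum.elim (fun w => w.1) fun z => ι (Sum.inl z)
  have he0 : Function.Bijective e0 := by
    constructor
    · rintro (w | z) (w' | z') h
      · exact congrArg Sum.inl (Subtype.ext h)
      · exact absurd h.symm (w.2 z')
      · exact absurd h (w'.2 z)
      · exact congrArg Sum.inr (Sum.inl_injective (ι.injective h))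
    · intro x
      by_cases hx : ∀ z : V × Fin 3, ι (Sum.inl z) ≠ x
      · exact ⟨Sum.inl ⟨x, hx⟩, rfl⟩
      · push Not at hx
        obtain ⟨z, hz⟩ := hx
        exact ⟨Sum.inr z, hz⟩
  let e : W ⊕ V × Fin 3 ≃ Fin n := Equiv.ofBijective e0 he0
  let mk : Fin t → W := fun j => ⟨ι (Sum.inr j), fun z h => Sum.inl_ne_inr (ι.injective h)⟩
  have hmk : Function.Injective mk := by
    intro i j hij
    exact Sum.inr_injective (ι.injective (congrArg Subtype.val hij))
  let S : Finset W := univ.image mk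
  have hS : S.card = t := by
    rw [Finset.card_image_of_injective _ hmk, Finset.card_univ, Fintype.card_fin]
  let s0 : W := mk ⟨0, by omega⟩
  let s1 : W := mk ⟨1, by omega⟩
  have hs01 : s0 ≠ s1 := by
    intro h
    have := congrArg Fin.val (hmk h)
    simp at this
  let A : SimpleGraph W :=
    { Adj := fun a c => a ≠ c ∧ (a ∈ S ∨ c ∈ S)
      symm := ⟨fun a c h => ⟨h.1.symm, h.2.symm⟩⟩
      loopless := ⟨fun a h => h.1 rfl⟩ }
  let P : SimpleGraph (Fin n) := (pl A (mkr s0 s1) (F.G b)).comap e.symm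
  have hP : ∀ a c, P.Adj (e a) (e c) ↔ (pl A (mkr s0 s1) (F.G b)).Adj a c := by
    intro a c
    show (pl A (mkr s0 s1) (F.G b)).Adj (e.symm (e a)) (e.symm (e c)) ↔ _
    rw [e.symm_apply_apply, e.symm_apply_apply]
  refine ⟨univ.map ι, P, ?_, ?_⟩
  · rw [Finset.card_map, Finset.card_univ]
    exact hcard
  · intro G hG hid
    have hGQ : ∀ z : V × Fin 3, ∀ y, (G.Adj (e (Sum.inr z)) y ↔ P.Adj (e (Sum.inr z)) y) := by
      intro z y
      exact hG _ (Finset.mem_map_of_mem ι (mem_univ (Sum.inl z))) y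
    let AG : SimpleGraph W := G.comap fun w => w.1
    let φ : pl AG (mkr s0 s1) (F.G b) ≃g G :=
      { toEquiv := e
        map_rel_iff' := by
          rintro (a | z) (c | z')
          · exact Iff.rfl
          · show G.Adj (e (Sum.inl a)) (e (Sum.inr z')) ↔ _
            rw [G.adj_comm, hGQ, P.adj_comm, hP]
            exact Iff.rfl
          · show G.Adj (e (Sum.inr z)) (e (Sum.inl c)) ↔ _
            rw [hGQ, hP]
            exact Iff.rfl
          · show G.Adj (e (Sum.inr z)) (e (Sum.inr z')) ↔ _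
            rw [hGQ, hP]
            exact Iff.rfl }
    have h1 : WLEquivalent k G (pl AG (mkr s0 s1) (F.G b')) :=
      wlEquivalent_trans (wlEquivalent_of_iso φ.symm k) (plant_wl F AG (mkr s0 s1) b b' k hK)
    obtain ⟨ψ⟩ := hid _ _ h1
    have h2 : ∀ s ∈ S, ∀ w, w ≠ s → AG.Adj s w := by
      intro s hs w hw
      obtain ⟨j, -, rfl⟩ := Finset.mem_image.1 hs
      show G.Adj (ι (Sum.inr j)) w.1
      rw [hG _ (Finset.mem_map_of_mem ι (mem_univ (Sum.inr j)))]
      have h3 := (hP (Sum.inl (mk j)) (Sum.inl w)).2 (by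
        show mk j ≠ w ∧ (mk j ∈ S ∨ w ∈ S)
        exact ⟨hw.symm, Or.inl hs⟩)
      exact h3
    exact (not_iso AG S h2 (by rw [hS, ht]) s0 s1 hs01 (F.G b) (F.G b') hT).false (φ.trans ψ)

variable {n : ℕ}

/-- Near to every graph there is one that is not identified. -/
theorem near_not (n k : ℕ) (hk : 1 ≤ k) (hn : 2 ^ 65 * k ≤ n) (G : SimpleGraph (Fin n)) :
    ∃ H, dist G H ≤ 2 ^ 65 * k * n ∧ ¬ IdentifiedBy k H := by
  classical
  obtain ⟨Q, P, hQ, h⟩ := pattern n k hk hn
  let H : SimpleGraph (Fin n) :=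
    { Adj := fun x y => ((x ∈ Q ∨ y ∈ Q) ∧ P.Adj x y) ∨ (x ∉ Q ∧ y ∉ Q ∧ G.Adj x y)
      symm := ⟨by
        rintro x y (⟨h1, h2⟩ | ⟨h1, h2, h3⟩)
        · exact Or.inl ⟨h1.symm, h2.symm⟩
        · exact Or.inr ⟨h2, h1, h3.symm⟩⟩
      loopless := ⟨by
        rintro x (⟨_, h2⟩ | ⟨_, _, h3⟩)
        · exact h2.ne rfl
        · exact h3.ne rfl⟩ }
  refine ⟨H, ?_, h H ?_⟩
  · have h1 : symmDiff G.edgeSet H.edgeSet ⊆
        (((Q ×ˢ (univ : Finset (Fin n))).image fun p => s(p.1, p.2) : Finset (Sym2 (Fin n))) :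
          Set (Sym2 (Fin n))) := by
      intro e he
      induction e using Sym2.ind with
      | h x y =>
        rw [Set.mem_symmDiff, SimpleGraph.mem_edgeSet, SimpleGraph.mem_edgeSet] at he
        rw [Finset.mem_coe, Finset.mem_image]
        by_cases hx : x ∈ Q
        · exact ⟨(x, y), by simp [hx], rfl⟩
        · by_cases hy : y ∈ Q
          · exact ⟨(y, x), by simp [hy], Sym2.eq_swap⟩
          · exfalso
            have h2 : H.Adj x y ↔ G.Adj x y := by
              show ((x ∈ Q ∨ y ∈ Q) ∧ P.Adj x y) ∨ (x ∉ Q ∧ y ∉ Q ∧ G.Adj x y) ↔ _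
              tauto
            tauto
    have h2 := Set.ncard_le_ncard h1 (Set.toFinite _)
    rw [Set.ncard_coe_finset] at h2
    refine h2.trans (Finset.card_image_le.trans ?_)
    rw [Finset.card_product, Finset.card_univ, Fintype.card_fin]
    exact Nat.mul_le_mul_right _ hQ
  · intro x hx y
    show ((x ∈ Q ∨ y ∈ Q) ∧ P.Adj x y) ∨ (x ∉ Q ∧ y ∉ Q ∧ G.Adj x y) ↔ _
    tauto

/-- The probability of a pattern. -/
theorem Law.pattern {δ : ℝ} {W : SimpleGraph (Fin n) → ℝ} (hW : Law δ W) (hδ0 : 0 ≤ δ)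
    (hδ : δ ≤ 1) (P : SimpleGraph (Fin n)) (E : Finset (Sym2 (Fin n))) :
    δ ^ E.card ≤ prob W {G | ∀ e ∈ E, (e ∈ G.edgeSet ↔ e ∈ P.edgeSet)} := by
  classical
  induction E using Finset.induction_on with
  | empty =>
    simp only [Finset.card_empty, pow_zero, Finset.notMem_empty, false_implies, implies_true]
    unfold prob
    have h1 : ({x : SimpleGraph (Fin n) | True} : Set (SimpleGraph (Fin n))) = Set.univ := rfl
    rw [h1]
    simp only [Set.indicator_univ]
    rw [hW.sum]
  | insert e E he ih =>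
    rw [Finset.card_insert_of_notMem he, pow_succ']
    set T : Set (SimpleGraph (Fin n)) := {G | ∀ e ∈ E, (e ∈ G.edgeSet ↔ e ∈ P.edgeSet)} with hT
    set T1 : Set (SimpleGraph (Fin n)) :=
      {G | ∀ e' ∈ insert e E, (e' ∈ G.edgeSet ↔ e' ∈ P.edgeSet)} with hT1
    have hmem : ∀ G, G ∈ T1 ↔ (e ∈ G.edgeSet ↔ e ∈ P.edgeSet) ∧ G ∈ T := by
      intro G
      simp only [hT1, hT, Set.mem_ofPred_eq, mem_insert, forall_eq_or_imp]
    by_cases hd : e.IsDiag
    · have h1 : T1 = T := by
        ext G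
        rw [hmem]
        constructor
        · exact fun h => h.2
        · intro h
          refine ⟨⟨fun h2 => ?_, fun h2 => ?_⟩, h⟩
          · exact absurd hd (G.not_isDiag_of_mem_edgeSet h2)
          · exact absurd hd (P.not_isDiag_of_mem_edgeSet h2)
      rw [h1]
      have h2 : 0 ≤ δ ^ E.card := pow_nonneg hδ0 _
      nlinarith
    · have hfT : ∀ G, flip e G ∈ T ↔ G ∈ T := by
        intro G
        simp only [hT, Set.mem_ofPred_eq]
        refine forall_congr' fun e' => forall_congr' fun he' => ?_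
        have hne : e' ≠ e := by
          rintro rfl
          exact he he'
        have : e' ∈ (flip e G).edgeSet ↔ e' ∈ G.edgeSet := by
          unfold flip
          rw [SimpleGraph.edgeSet_fromEdgeSet, Set.mem_sdiff, Set.mem_symmDiff,
            Set.mem_singleton_iff]
          constructor
          · rintro ⟨h2 | h2, _⟩
            · exact h2.1
            · exact absurd h2.1 hne
          · exact fun h2 => ⟨Or.inl ⟨h2, hne⟩, G.not_isDiag_of_mem_edgeSet h2⟩
        rw [this]
      have hfe : ∀ G : SimpleGraph (Fin n), e ∈ (flip e G).edgeSet ↔ e ∉ G.edgeSet := by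
        intro G
        induction e using Sym2.ind with
        | h a b =>
          rw [Sym2.mk_isDiag_iff] at hd
          rw [SimpleGraph.mem_edgeSet, SimpleGraph.mem_edgeSet, flip_adj]
          tauto
      have h1 : prob W T = ∑ G, T1.indicator (fun G => W G + W (flip e G)) G := by
        have h2 : prob W T = ∑ G, T1.indicator W G + ∑ G, (T \ T1).indicator W G := by
          unfold prob
          rw [← Finset.sum_add_distrib]
          refine Finset.sum_congr rfl fun G _ => ?_
          by_cases hG : G ∈ T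
          · by_cases hG1 : G ∈ T1
            · rw [Set.indicator_of_mem hG, Set.indicator_of_mem hG1,
                Set.indicator_of_notMem (fun h => h.2 hG1), add_zero]
            · have hG2 : G ∈ T \ T1 := (Set.mem_sdiff G).2 ⟨hG, hG1⟩
              rw [Set.indicator_of_mem hG, Set.indicator_of_notMem hG1,
                Set.indicator_of_mem hG2, zero_add]
          · have hG1 : G ∉ T1 := fun h => hG ((hmem G).1 h).2
            rw [Set.indicator_of_notMem hG, Set.indicator_of_notMem hG1,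
              Set.indicator_of_notMem (fun h => hG h.1), add_zero]
        have h3 : ∑ G, (T \ T1).indicator W G = ∑ G, T1.indicator (fun G => W (flip e G)) G := by
          rw [← Equiv.sum_comp (flipE e)]
          refine Finset.sum_congr rfl fun G _ => ?_
          show (T \ T1).indicator W (flip e G) = _
          have h4 : flip e G ∈ T \ T1 ↔ G ∈ T1 := by
            rw [Set.mem_sdiff, hmem, hmem, hfT, hfe]
            tauto
          by_cases hG : G ∈ T1
          · rw [Set.indicator_of_mem (h4.2 hG), Set.indicator_of_mem hG]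
          · rw [Set.indicator_of_notMem (fun h => hG (h4.1 h)), Set.indicator_of_notMem hG]
        rw [h2, h3, ← Finset.sum_add_distrib]
        refine Finset.sum_congr rfl fun G _ => ?_
        by_cases hG : G ∈ T1
        · rw [Set.indicator_of_mem hG, Set.indicator_of_mem hG, Set.indicator_of_mem hG]
        · rw [Set.indicator_of_notMem hG, Set.indicator_of_notMem hG, Set.indicator_of_notMem hG,
            add_zero]
      calc δ * δ ^ E.card ≤ δ * prob W T := mul_le_mul_of_nonneg_left ih hδ0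
        _ = ∑ G, δ * T1.indicator (fun G => W G + W (flip e G)) G := by
            rw [h1, Finset.mul_sum]
        _ ≤ prob W T1 := by
            unfold prob
            refine Finset.sum_le_sum fun G _ => ?_
            by_cases hG : G ∈ T1
            · rw [Set.indicator_of_mem hG, Set.indicator_of_mem hG]
              exact hW.cond G e hd
            · rw [Set.indicator_of_notMem hG, Set.indicator_of_notMem hG, mul_zero]

/-- The probability that a random graph is not identified is not too small. -/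
theorem Law.lower {δ : ℝ} {W : SimpleGraph (Fin n) → ℝ} (hW : Law δ W) (hδ0 : 0 ≤ δ)
    (hδ : δ ≤ 1) (k : ℕ) (hk : 1 ≤ k) (hn : 2 ^ 65 * k ≤ n) :
    δ ^ (2 ^ 65 * k * n) ≤ prob W {G | ¬ IdentifiedBy k G} := by
  classical
  obtain ⟨Q, P, hQ, h⟩ := _root_.Pool.Agent.N579.WL.pattern n k hk hn
  let E : Finset (Sym2 (Fin n)) := (Q ×ˢ (univ : Finset (Fin n))).image fun p => s(p.1, p.2)
  have hE : E.card ≤ 2 ^ 65 * k * n := by
    refine Finset.card_image_le.trans ?_
    rw [Finset.card_product, Finset.card_univ, Fintype.card_fin]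
    exact Nat.mul_le_mul_right _ hQ
  refine (pow_le_pow_of_le_one hδ0 hδ hE).trans ((hW.pattern hδ0 hδ P E).trans
    (prob_mono hW.nonneg ?_))
  intro G hG
  refine h G fun x hx y => ?_
  have h1 := hG s(x, y) (Finset.mem_image.2 ⟨(x, y), by simp [hx], rfl⟩)
  rwa [SimpleGraph.mem_edgeSet, SimpleGraph.mem_edgeSet] at h1

end Pool.Agent.N579.WL
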