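import Pool.Agent.Y598.IM.Sp.TMain
import Pool.Agent.Y598.VT.FamWL
import Pool.Agent.N579.WL.Ident

/-!
# Planting a pair of graphs that the Weisfeiler-Leman method does not distinguish
-/

set_option autoImplicit false
set_option linter.unusedSectionVars false

namespace Pool.Agent.N579.WL

open Finset Pool.Agent.W185.SRG Pool.Agent.Y598.IM

section pl

variable {W V : Type}

/-- The adjacency of the planted graph. -/
def plAdj (A : W → W → Prop) (M : W → Fin 3 → Prop) (T : V → V → Prop) :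
    W ⊕ V × Fin 3 → W ⊕ V × Fin 3 → Prop
  | .inl a, .inl b => A a b
  | .inl a, .inr x => M a x.2
  | .inr x, .inl a => M a x.2
  | .inr x, .inr y => (x.2 = 0 ∧ y.2 = 1 ∧ T x.1 y.1) ∨ (x.2 = 1 ∧ y.2 = 0 ∧ T y.1 x.1) ∨
      (((x.2 = 2 ∧ y.2 ≠ 2) ∨ (x.2 ≠ 2 ∧ y.2 = 2)) ∧ x.1 = y.1)

/-- The planted graph. -/
def pl (A : SimpleGraph W) (M : W → Fin 3 → Prop) (T : V → V → Prop) :
    SimpleGraph (W ⊕ V × Fin 3) where
  Adj := plAdj A.Adj M T
  symm := ⟨by
    rintro (a | x) (b | y) h
    · exact A.adj_symm h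
    · exact h
    · exact h
    · rcases h with h | h | h
      · exact Or.inr (Or.inl ⟨h.2.1, h.1, h.2.2⟩)
      · exact Or.inl ⟨h.2.1, h.1, h.2.2⟩
      · refine Or.inr (Or.inr ⟨?_, h.2.symm⟩)
        rcases h.1 with h1 | h1
        · exact Or.inr ⟨h1.2, h1.1⟩
        · exact Or.inl ⟨h1.2, h1.1⟩⟩
  loopless := ⟨by
    rintro (a | x) h
    · exact A.loopless.irrefl a h
    · rcases h with h | h | h
      · have := h.1.symm.trans h.2.1
        exact absurd this (by decide)
      · have := h.1.symm.trans h.2.1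
        exact absurd this (by decide)
      · rcases h.1 with h1 | h1
        · exact h1.2 h1.1
        · exact h1.1 h1.2⟩

variable {X L B : Type} [AddCommGroup X] [SemilatticeSup L] [OrderBot L]

/-- The planted family. -/
def plant (F : Fam X L V B) (A : W → W → Prop) (M : W → Fin 3 → Prop) :
    Fam X L (W ⊕ V × Fin 3) B where
  N := F.N
  D := F.D
  Sol := F.Sol
  size := F.size
  K := F.K
  N_anti := F.N_anti
  N_sup := F.N_sup
  N_bot := F.N_bot
  Sol_anti := F.Sol_anti
  sol_D := F.sol_D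
  neg_mem := F.neg_mem
  add_mem := F.add_mem
  size_bot := F.size_bot
  size_mono := F.size_mono
  size_sup := F.size_sup
  bot_sol := F.bot_sol
  extend := F.extend
  act m := (Equiv.refl W).sumCongr ((F.act m).prodCongr (Equiv.refl _))
  act_zero := by
    rintro (u | u)
    · rfl
    · exact congrArg Sum.inr (Prod.ext (F.act_zero u.1) rfl)
  act_add m m' := by
    rintro (u | u)
    · rfl
    · exact congrArg Sum.inr (Prod.ext (F.act_add m m' u.1) rfl)
  lv := Sum.elim (fun _ => ⊥) fun x => F.lv x.1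
  lv_act m := by
    rintro (u | u)
    · rfl
    · exact F.lv_act m u.1
  fix m := by
    rintro (u | u) h
    · rfl
    · exact congrArg Sum.inr (Prod.ext (F.fix m u.1 h) rfl)
  faithful m := by
    rintro (u | u) h
    · show m ∈ F.N ⊥
      rw [F.N_bot]
      trivial
    · exact F.faithful m u.1 (congrArg Prod.fst (Sum.inr_injective h))
  c := F.c
  size_lv := by
    rintro (u | u)
    · show F.size ⊥ ≤ F.c
      rw [F.size_bot]
      exact Nat.zero_le _
    · exact F.size_lv u.1
  G b := plAdj A M (F.G b)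
  G_inj b b' h := by
    refine F.G_inj ?_
    funext u v
    have h1 : plAdj A M (F.G b) (.inr (u, 0)) (.inr (v, 1)) =
        plAdj A M (F.G b') (.inr (u, 0)) (.inr (v, 1)) := congrFun (congrFun h _) _
    have h2 : ∀ b, plAdj A M (F.G b) (.inr (u, 0)) (.inr (v, 1)) ↔ F.G b u v := by
      intro b
      simp [plAdj]
    exact propext ((h2 b).symm.trans ((iff_of_eq h1).trans (h2 b')))
  adj b b' := by
    rintro (u | u) (v | v) m hm
    · exact Iff.rfl
    · exact Iff.rfl
    · exact Iff.rfl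
    · have h1 : F.G b u.1 v.1 ↔ F.G b' (F.act m u.1) (F.act m v.1) := F.adj b b' u.1 v.1 m hm
      have h2 : F.G b v.1 u.1 ↔ F.G b' (F.act m v.1) (F.act m u.1) :=
        F.adj b b' v.1 u.1 m (by
          rw [sup_comm]
          exact hm)
      have h3 : u.1 = v.1 ↔ F.act m u.1 = F.act m v.1 := (F.act m).injective.eq_iff.symm
      refine or_congr (and_congr_right fun _ => and_congr_right fun _ => h1)
        (or_congr (and_congr_right fun _ => and_congr_right fun _ => h2)
          (and_congr_right fun _ => h3))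

theorem plant_wl [Fintype V] [Fintype W] (F : Fam X L V B) (A : SimpleGraph W)
    (M : W → Fin 3 → Prop) (b b' : B) (k : ℕ) (hK : F.c * (k + 1) ≤ F.K) :
    WLEquivalent k (pl A M (F.G b)) (pl A M (F.G b')) :=
  (plant F A.Adj M).wl (fun b => pl A M (F.G b)) (fun _ => rfl) b b' k hK

end pl

section iso

variable {V V' V'' : Type} [Fintype V] [Fintype V'] [Fintype V'']

theorem wl_iso {G : SimpleGraph V} {G' : SimpleGraph V'} (φ : G ≃g G') (k t : ℕ)
    (S : Fin k → V) : wl G k t S = wl G' k t (φ ∘ S) := by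
  induction t generalizing S with
  | zero =>
    refine Prod.ext ?_ ?_
    · funext i j
      exact propext φ.injective.eq_iff.symm
    · funext i j
      exact propext φ.map_adj_iff.symm
  | succ t ih =>
    refine Prod.ext (ih S) ?_
    show (univ : Finset V).val.map (fun x => fun i => wl G k t (Function.update S i x)) =
      (univ : Finset V').val.map (fun x => fun i => wl G' k t (Function.update (φ ∘ S) i x))
    have h1 : (univ : Finset V').val = (univ : Finset V).val.map φ := by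
      have := Finset.map_univ_equiv φ.toEquiv
      rw [← this, Finset.map_val]
      rfl
    rw [h1, Multiset.map_map]
    refine Multiset.map_congr rfl fun x _ => ?_
    funext i
    rw [ih]
    congr 1
    exact Function.comp_update _ _ _ _

theorem wlEquivalent_of_iso {G : SimpleGraph V} {G' : SimpleGraph V'} (φ : G ≃g G') (k : ℕ) :
    WLEquivalent k G G' :=
  ⟨(Equiv.refl (Fin k)).arrowCongr φ.toEquiv, fun t S => wl_iso φ k t S⟩

theorem wlEquivalent_trans {k : ℕ} {G : SimpleGraph V} {G' : SimpleGraph V'}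
    {G'' : SimpleGraph V''} (h : WLEquivalent k G G') (h' : WLEquivalent k G' G'') :
    WLEquivalent k G G'' := by
  obtain ⟨ψ, hψ⟩ := h
  obtain ⟨ψ', hψ'⟩ := h'
  exact ⟨ψ.trans ψ', fun t S => (hψ t S).trans (hψ' t (ψ S))⟩

end iso

section notiso

variable {W V : Type} [Finite W] [Fintype V]

theorem ncard_nbs {U U' : Type} {P : SimpleGraph U} {P' : SimpleGraph U'} (φ : P ≃g P') (a : U) :
    {u | P'.Adj (φ a) u}.ncard = {u | P.Adj a u}.ncard := by
  rw [← Set.ncard_image_of_injective _ φ.injective]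
  congr 1
  ext u
  simp only [Set.mem_ofPred_eq, Set.mem_image]
  constructor
  · intro h
    refine ⟨φ.symm u, ?_, φ.apply_symm_apply u⟩
    rw [← φ.map_adj_iff, RelIso.apply_symm_apply]
    exact h
  · rintro ⟨v, hv, rfl⟩
    exact φ.map_adj_iff.2 hv

/-- The pattern of the adjacencies between the markers and the planted part. -/
def mkr (s0 s1 : W) (w : W) (i : Fin 3) : Prop := (w = s0 ∧ i = 0) ∨ (w = s1 ∧ i ≠ 2)

theorem deg_inr (A : SimpleGraph W) (s0 s1 : W) (T : V → V → Prop) (x : V × Fin 3) :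
    {u | (pl A (mkr s0 s1) T).Adj (Sum.inr x) u}.ncard ≤ 3 * Fintype.card V + 2 := by
  classical
  have h1 : {u | (pl A (mkr s0 s1) T).Adj (Sum.inr x) u} ⊆
      Set.range (Sum.inr : V × Fin 3 → W ⊕ V × Fin 3) ∪ {Sum.inl s0, Sum.inl s1} := by
    rintro (w | y) h
    · right
      have h2 : mkr s0 s1 w x.2 := h
      rcases h2 with h2 | h2
      · rw [h2.1]
        simp
      · rw [h2.1]
        simp
    · exact Or.inl ⟨y, rfl⟩
  refine (Set.ncard_le_ncard h1 (Set.toFinite _)).trans ((Set.ncard_union_le _ _).trans ?_)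
  have h2 : (Set.range (Sum.inr : V × Fin 3 → W ⊕ V × Fin 3)).ncard = 3 * Fintype.card V := by
    rw [← Set.image_univ, Set.ncard_image_of_injective _ Sum.inr_injective, Set.ncard_univ,
      Nat.card_eq_fintype_card, Fintype.card_prod, Fintype.card_fin, mul_comm]
  have h3 : ({Sum.inl s0, Sum.inl s1} : Set (W ⊕ V × Fin 3)).ncard ≤ 2 := by
    refine (Set.ncard_insert_le _ _).trans ?_
    rw [Set.ncard_singleton]
  omega

theorem deg_inl (A : SimpleGraph W) (M : W → Fin 3 → Prop) (T : V → V → Prop) (S : Finset W)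
    (hA : ∀ s ∈ S, ∀ w, w ≠ s → A.Adj s w) (w : W) :
    S.card ≤ {u | (pl A M T).Adj (Sum.inl w) u}.ncard + 1 := by
  classical
  have h1 : (((S.erase w).image Sum.inl : Finset (W ⊕ V × Fin 3)) : Set (W ⊕ V × Fin 3)) ⊆
      {u | (pl A M T).Adj (Sum.inl w) u} := by
    intro u hu
    rw [Finset.mem_coe, Finset.mem_image] at hu
    obtain ⟨s, hs, rfl⟩ := hu
    rw [mem_erase] at hs
    show A.Adj w s
    exact (hA s hs.2 w (Ne.symm hs.1)).symm
  have h2 := Set.ncard_le_ncard h1 (Set.toFinite _)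
  rw [Set.ncard_coe_finset, Finset.card_image_of_injective _ Sum.inl_injective] at h2
  have h3 := Finset.pred_card_le_card_erase (s := S) (a := w)
  omega

/-- The planted graphs are not isomorphic. -/
theorem not_iso [Nonempty V] (A : SimpleGraph W) (S : Finset W)
    (hA : ∀ s ∈ S, ∀ w, w ≠ s → A.Adj s w) (hS : 3 * Fintype.card V + 4 ≤ S.card) (s0 s1 : W)
    (hs : s0 ≠ s1) (T T' : V → V → Prop)
    (hT : ¬ ∃ φ : V ≃ V, ∀ x y, T x y ↔ T' (φ x) (φ y)) :
    IsEmpty (pl A (mkr s0 s1) T ≃g pl A (mkr s0 s1) T') := by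
  classical
  refine ⟨fun φ => hT ?_⟩
  obtain ⟨u0⟩ := ‹Nonempty V›
  have hf : ∀ x : V × Fin 3, ∃ y : V × Fin 3, φ (Sum.inr x) = Sum.inr y := by
    intro x
    rcases hx : φ (Sum.inr x) with w | y
    · exfalso
      have h1 := ncard_nbs φ (Sum.inr x)
      rw [hx] at h1
      have h2 := deg_inr A s0 s1 T x
      have h3 := deg_inl A (mkr s0 s1) T' S hA w
      omega
    · exact ⟨y, rfl⟩
  have hg : ∀ x : V × Fin 3, ∃ y : V × Fin 3, φ.symm (Sum.inr x) = Sum.inr y := by
    intro x
    rcases hx : φ.symm (Sum.inr x) with w | y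
    · exfalso
      have h1 := ncard_nbs φ.symm (Sum.inr x)
      rw [hx] at h1
      have h2 := deg_inr A s0 s1 T' x
      have h3 := deg_inl A (mkr s0 s1) T S hA w
      omega
    · exact ⟨y, rfl⟩
  choose f hf using hf
  choose g hg using hg
  have ha : ∀ w : W, ∃ w' : W, φ (Sum.inl w) = Sum.inl w' := by
    intro w
    rcases hx : φ (Sum.inl w) with w' | y
    · exact ⟨w', rfl⟩
    · exfalso
      have h1 := hg y
      rw [← hx, φ.symm_apply_apply] at h1
      exact Sum.inl_ne_inr h1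
  obtain ⟨a0, ha0⟩ := ha s0
  obtain ⟨a1, ha1⟩ := ha s1
  have h0 : ∀ x : V × Fin 3, mkr s0 s1 a0 (f x).2 ↔ x.2 = 0 := by
    intro x
    have h1 : (pl A (mkr s0 s1) T').Adj (φ (Sum.inl s0)) (φ (Sum.inr x)) ↔
        (pl A (mkr s0 s1) T).Adj (Sum.inl s0) (Sum.inr x) := φ.map_adj_iff
    rw [ha0, hf x] at h1
    have h2 : mkr s0 s1 a0 (f x).2 ↔ mkr s0 s1 s0 x.2 := h1
    rw [h2]
    unfold mkr
    constructor
    · rintro (h | h)
      · exact h.2
      · exact absurd h.1 hs
    · exact fun h => Or.inl ⟨rfl, h⟩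
  have h1 : ∀ x : V × Fin 3, mkr s0 s1 a1 (f x).2 ↔ x.2 ≠ 2 := by
    intro x
    have h1 : (pl A (mkr s0 s1) T').Adj (φ (Sum.inl s1)) (φ (Sum.inr x)) ↔
        (pl A (mkr s0 s1) T).Adj (Sum.inl s1) (Sum.inr x) := φ.map_adj_iff
    rw [ha1, hf x] at h1
    have h2 : mkr s0 s1 a1 (f x).2 ↔ mkr s0 s1 s1 x.2 := h1
    rw [h2]
    unfold mkr
    constructor
    · rintro (h | h)
      · exact absurd h.1.symm hs
      · exact h.2
    · exact fun h => Or.inr ⟨rfl, h⟩
  have hne : a0 ≠ a1 := by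
    intro h
    rw [h] at ha0
    exact hs (Sum.inl_injective (φ.injective (ha0.trans ha1.symm)))
  have h12 : ((u0, 1) : V × Fin 3).2 ≠ 2 := by
    show (1 : Fin 3) ≠ 2
    decide
  have ha0' : a0 = s0 := by
    have h2 := (h0 (u0, 0)).2 rfl
    rcases h2 with h2 | h2
    · exact h2.1
    · exfalso
      have h3 := (h1 (u0, 1)).2 h12
      have h4 : a1 = s0 ∧ (f (u0, 1)).2 = 0 := by
        rcases h3 with h3 | h3
        · exact h3
        · exact absurd (h2.1.trans h3.1.symm) hne
      have h5 : mkr s0 s1 a0 (f (u0, 1)).2 := by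
        rw [h4.2, h2.1]
        exact Or.inr ⟨rfl, by decide⟩
      have h6 : (1 : Fin 3) = 0 := (h0 (u0, 1)).1 h5
      exact absurd h6 (by decide)
  have ha1' : a1 = s1 := by
    have h3 := (h1 (u0, 1)).2 h12
    rcases h3 with h3 | h3
    · exact absurd (ha0'.trans h3.1.symm) hne
    · exact h3.1
  subst ha0' ha1'
  have h0' : ∀ x : V × Fin 3, (f x).2 = 0 ↔ x.2 = 0 := by
    intro x
    rw [← h0 x]
    unfold mkr
    constructor
    · exact fun h => Or.inl ⟨rfl, h⟩
    · rintro (h | h)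
      · exact h.2
      · exact absurd h.1 hs
  have h1' : ∀ x : V × Fin 3, (f x).2 ≠ 2 ↔ x.2 ≠ 2 := by
    intro x
    rw [← h1 x]
    unfold mkr
    constructor
    · exact fun h => Or.inr ⟨rfl, h⟩
    · rintro (h | h)
      · exact absurd h.1.symm hs
      · exact h.2
  have hsnd : ∀ x : V × Fin 3, (f x).2 = x.2 := by
    intro x
    have key : ∀ i j : Fin 3, (i = 0 ↔ j = 0) → (i ≠ 2 ↔ j ≠ 2) → i = j := by decide
    exact key _ _ (h0' x) (h1' x)
  have hadj : ∀ x y : V × Fin 3, (pl A (mkr a0 a1) T').Adj (Sum.inr (f x)) (Sum.inr (f y)) ↔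
      (pl A (mkr a0 a1) T).Adj (Sum.inr x) (Sum.inr y) := by
    intro x y
    rw [← hf x, ← hf y]
    exact φ.map_adj_iff
  have hfst : ∀ (u : V) (i : Fin 3), i ≠ 2 → (f (u, 2)).1 = (f (u, i)).1 := by
    intro u i hi
    have h2 := (hadj (u, 2) (u, i)).2 (Or.inr (Or.inr ⟨Or.inl ⟨rfl, hi⟩, rfl⟩))
    have e1 : (f (u, 2)).2 = 2 := hsnd (u, 2)
    rcases h2 with h2 | h2 | h2
    · exact absurd (e1.symm.trans h2.1) (by decide)
    · exact absurd (e1.symm.trans h2.1) (by decide)
    · exact h2.2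
  have h01 : ∀ u : V, (f (u, 1)).1 = (f (u, 0)).1 := fun u =>
    (hfst u 1 (by decide)).symm.trans (hfst u 0 (by decide))
  have hinj : Function.Injective fun u : V => (f (u, 0)).1 := by
    intro u v huv
    have h2 : f (u, 0) = f (v, 0) := Prod.ext huv ((hsnd (u, 0)).trans (hsnd (v, 0)).symm)
    have h3 : φ (Sum.inr (u, 0)) = φ (Sum.inr (v, 0)) := by rw [hf, hf, h2]
    exact congrArg Prod.fst (Sum.inr_injective (φ.injective h3))
  refine ⟨Equiv.ofBijective _ (Finite.injective_iff_bijective.1 hinj), fun u v => ?_⟩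
  show T u v ↔ T' (f (u, 0)).1 (f (v, 0)).1
  rw [← h01 v]
  have h2 := hadj (u, 0) (v, 1)
  have h3 : ∀ (R : V → V → Prop) (x y : V × Fin 3), x.2 = 0 → y.2 = 1 →
      ((pl A (mkr a0 a1) R).Adj (Sum.inr x) (Sum.inr y) ↔ R x.1 y.1) := by
    intro R x y hx hy
    constructor
    · rintro (h | h | h)
      · exact h.2.2
      · exact absurd (hx.symm.trans h.1) (by decide)
      · rcases h.1 with h4 | h4
        · exact absurd (hx.symm.trans h4.1) (by decide)
        · exact absurd (hy.symm.trans h4.2) (by decide)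
    · exact fun h => Or.inl ⟨hx, hy, h⟩
  rw [h3 T (u, 0) (v, 1) rfl rfl, h3 T' _ _ (hsnd (u, 0)) (hsnd (v, 1))] at h2
  exact h2.symm

end notiso

end Pool.Agent.N579.WL
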