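import Pool.Agent.N579.WL.Small

/-!
# Random graphs are robustly identified by the Weisfeiler-Leman method
-/

set_option autoImplicit false

namespace Pool.Agent.N579.WL

open Finset

/-- Random graphs whose pairs have bounded conditional probabilities, large dimension. -/
theorem robust_law (δ : ℝ) (hδ0 : 0 < δ) (hδ : δ ≤ 1 / 2) : ∃ c : ℝ, 0 < c ∧ ∃ k0 : ℕ,
    ∀ n k : ℕ, k0 ≤ k → k ≤ n → ∀ W : SimpleGraph (Fin n) → ℝ, Law δ W →
      prob W {G | ∃ H, (dist G H : ℝ) ≤ c * k * n ∧ ¬ IdentifiedBy k H} ≤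
        (2 : ℝ) ^ (-(c * k * n)) := by
  obtain ⟨q, n0, hq10, hmany⟩ := many δ hδ0 (by linarith)
  refine ⟨δ / 1000, by positivity, max n0 (2 * q + 2), fun n k hk hkn W hW => ?_⟩
  have hk1 : n0 ≤ k := (le_max_left _ _).trans hk
  have hk2 : 2 * q + 2 ≤ k := (le_max_right _ _).trans hk
  have h1 := hmany n k ⌊δ / 1000 * k * n⌋₊ (hk1.trans hkn) (by omega) hkn
    (Nat.floor_le (by positivity)) W hW
  refine (prob_mono hW.nonneg ?_).trans h1
  rintro G ⟨H, hGH, hH⟩
  obtain ⟨ρ, h2, h3, h4, h5⟩ := eqM_of_not (by omega) hkn H hH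
  exact ⟨H, ⟨ρ, h2, h3, h4, h5, Or.inr (by omega)⟩, Nat.le_floor hGH⟩

/-- Random graphs with independent pairs. -/
theorem robust_indep (δ : ℝ) (hδ0 : 0 < δ) (hδ : δ ≤ 1 / 2) : ∃ c : ℝ, 0 < c ∧ ∃ n0 : ℕ,
    ∀ n k : ℕ, n0 ≤ n → 2 ≤ k → k ≤ n → ∀ (p : Sym2 (Fin n) → ℝ)
      (W : SimpleGraph (Fin n) → ℝ), Indep p W → (∀ e, ¬ e.IsDiag → δ ≤ p e ∧ p e ≤ 1 - δ) →
      prob W {G | ∃ H, (dist G H : ℝ) ≤ c * k * n ∧ ¬ IdentifiedBy k H} ≤
        (2 : ℝ) ^ (-(c * k * n)) := by
  classical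
  obtain ⟨q, n0, hq10, hmany⟩ := many δ hδ0 (by linarith)
  have hq0 : (10 : ℝ) ≤ q := by exact_mod_cast hq10
  obtain ⟨K, hK⟩ : ∃ K : ℝ, K = q * 65536 := ⟨_, rfl⟩
  have hK1 : 1 ≤ K := by
    rw [hK]
    linarith
  refine ⟨δ / (2000 * q), by positivity, max n0 (max (max 10 ⌈1000 / δ⌉₊) ⌈2 * K ^ 2 / δ⌉₊),
    fun n k hn hk hkn p W hI hp => ?_⟩
  have hW : Law δ W := hI.law hp
  have hn1 : n0 ≤ n := (le_max_left _ _).trans hn
  have hn2 : 10 ≤ n := ((le_max_left _ _).trans ((le_max_left _ _).trans (le_max_right _ _))).trans hn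
  have hn3 : ⌈1000 / δ⌉₊ ≤ n :=
    ((le_max_right _ _).trans ((le_max_left _ _).trans (le_max_right _ _))).trans hn
  have hn4 : ⌈2 * K ^ 2 / δ⌉₊ ≤ n := ((le_max_right _ _).trans (le_max_right _ _)).trans hn
  have hn3' : 1000 / δ ≤ n := (Nat.le_ceil _).trans (by exact_mod_cast hn3)
  have hn4' : 2 * K ^ 2 / δ ≤ n := (Nat.le_ceil _).trans (by exact_mod_cast hn4)
  rw [div_le_iff₀ hδ0] at hn3' hn4'
  have hnR : (10 : ℝ) ≤ n := by exact_mod_cast hn2
  have hkR : (2 : ℝ) ≤ k := by exact_mod_cast hk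
  set c := δ / (2000 * q) with hc
  have hc0 : 0 < c := by positivity
  have hc1 : c * (2000 * q) = δ := by
    rw [hc]
    field_simp
  have hc2 : c ≤ δ / 20000 := by
    have : c * 20000 ≤ c * (2000 * q) := mul_le_mul_of_nonneg_left (by linarith) hc0.le
    linarith
  set s := ⌊c * k * n⌋₊ with hs
  have hs1 : (s : ℝ) ≤ c * k * n := Nat.floor_le (by positivity)
  have hkn0 : (0 : ℝ) ≤ k * n := by positivity
  have hckn : c * k * n ≤ δ / 20000 * k * n := by
    rw [mul_assoc, mul_assoc]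
    exact mul_le_mul_of_nonneg_right hc2 hkn0
  have h1 := hmany n k s hn1 hk hkn (by nlinarith) W hW
  have hbig : c * k * n + 1 ≤ δ / 1000 * k * n := by
    have h2 : 2 * (δ * n) ≤ k * (δ * n) := mul_le_mul_of_nonneg_right hkR (by positivity)
    nlinarith
  -- few classes
  have h2 : k ≤ 2 * q + 1 → prob W {G | ∃ H, H ∈ Few n q ∧ dist G H ≤ s} ≤
      (2 : ℝ) ^ (-(c * k * n) - 1) := by
    intro hkq
    have hkqR : (k : ℝ) ≤ 2 * q + 1 := by exact_mod_cast hkq
    have hsn : c * k * n ≤ n / 1000 := by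
      have h3 : c * k ≤ c * (3 * q) := mul_le_mul_of_nonneg_left (by linarith) hc0.le
      have h4 : c * (3 * q) ≤ 1 / 1000 := by nlinarith
      have h5 : c * k * n ≤ 1 / 1000 * n := mul_le_mul_of_nonneg_right (h3.trans h4) (by linarith)
      linarith
    obtain ⟨A, -, hA⟩ := Finset.exists_subset_card_eq (s := (univ : Finset (Fin n))) (n := n / 2)
      (by simpa using Nat.div_le_self n 2)
    have hB : (Aᶜ : Finset (Fin n)).card = n - n / 2 := by
      rw [Finset.card_compl, Fintype.card_fin, hA]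
    have hB2 : (n : ℝ) ≤ 2 * ((n - n / 2 : ℕ) : ℝ) := by
      have : n ≤ 2 * (n - n / 2) := by omega
      exact_mod_cast this
    have hKB : K ^ 2 ≤ δ * ((Aᶜ : Finset (Fin n)).card : ℝ) := by
      rw [hB]
      have : δ * n ≤ δ * (2 * ((n - n / 2 : ℕ) : ℝ)) := mul_le_mul_of_nonneg_left hB2 hδ0.le
      linarith
    have h3 := hI.few hδ0 hp A Aᶜ disjoint_compl_right q K hK1 hKB (1 / 65536) (by norm_num)
      (by norm_num) s
    refine h3.trans ?_
    have h4 : (1 / 65536 : ℝ) + q * (1 / K) = 1 / 32768 := by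
      rw [hK]
      field_simp
      norm_num
    rw [h4, hA]
    have h5 : (2 : ℝ) ^ n * ((1 / (1 / 65536)) ^ (2 * s) * (1 / 32768) ^ (n / 2)) =
        (2 : ℝ) ^ ((n : ℝ) + 32 * s - 15 * ((n / 2 : ℕ) : ℝ)) := by
      have e1 : (1 / (1 / 65536) : ℝ) = 2 ^ (16 : ℕ) := by norm_num
      have e2 : (1 / 32768 : ℝ) = 2 ^ (-15 : ℝ) := by
        rw [Real.rpow_neg (by norm_num)]
        norm_num
      rw [e1, e2, ← pow_mul, ← Real.rpow_natCast 2 n, ← Real.rpow_natCast 2 (16 * (2 * s)),
        ← Real.rpow_natCast ((2 : ℝ) ^ (-15 : ℝ)), ← Real.rpow_mul (by norm_num),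
        ← Real.rpow_add (by norm_num), ← Real.rpow_add (by norm_num)]
      congr 1
      push_cast
      ring
    rw [h5]
    refine Real.rpow_le_rpow_of_exponent_le (by norm_num) ?_
    have h6 : (n : ℝ) ≤ 2 * ((n / 2 : ℕ) : ℝ) + 1 := by
      have : n ≤ 2 * (n / 2) + 1 := by omega
      exact_mod_cast this
    linarith
  let E2 : Set (SimpleGraph (Fin n)) :=
    if k ≤ 2 * q + 1 then {G | ∃ H, H ∈ Few n q ∧ dist G H ≤ s} else ∅
  have hE2 : prob W E2 ≤ (2 : ℝ) ^ (-(c * k * n) - 1) := by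
    by_cases h : k ≤ 2 * q + 1
    · simp only [E2, h, if_true]
      exact h2 h
    · simp only [E2, h, if_false]
      unfold prob
      simp only [Set.indicator_empty, Finset.sum_const_zero]
      positivity
  have hsub : {G : SimpleGraph (Fin n) | ∃ H, (dist G H : ℝ) ≤ c * k * n ∧ ¬ IdentifiedBy k H} ⊆
      {G | ∃ H, (∃ ρ, EqM H ρ ∧ 1 ≤ defect ρ ∧ k ≤ 4 * defect ρ ∧
        (k - 2) / 2 + defect ρ ≤ n ∧ (2 * defect ρ ≤ n ∨ q ≤ n - defect ρ)) ∧ dist G H ≤ s} ∪
        E2 := by
    rintro G ⟨H, hGH, hH⟩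
    obtain ⟨ρ, h3, h4, h5, h6⟩ := eqM_of_not hk hkn H hH
    have h7 : dist G H ≤ s := Nat.le_floor hGH
    by_cases h8 : q ≤ n - defect ρ
    · exact Or.inl ⟨H, ⟨ρ, h3, h4, h5, h6, Or.inr h8⟩, h7⟩
    · right
      have h9 : k ≤ 2 * q + 1 := by omega
      simp only [E2, h9, if_true]
      refine ⟨H, ?_, h7⟩
      have h10 : (univ.image fun v => (nb H v).card).card ≤
          (univ.filter fun x => ρ x = x).card := few_of_eqM h3
      have h11 := card_reps ρ
      show (univ.image fun v => (nb H v).card).card ≤ q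
      omega
  refine (prob_mono hW.nonneg hsub).trans ((prob_union_le hW.nonneg _ _).trans ?_)
  have h3 : (2 : ℝ) ^ (-(δ / 1000 * k * n)) ≤ (2 : ℝ) ^ (-(c * k * n) - 1) :=
    Real.rpow_le_rpow_of_exponent_le (by norm_num) (by linarith)
  have h4 : (2 : ℝ) ^ (-(c * k * n)) = 2 * (2 : ℝ) ^ (-(c * k * n) - 1) := by
    rw [Real.rpow_sub (by norm_num), Real.rpow_one]
    ring
  rw [h4]
  linarith

/-- The law of the random graph in which the pairs `e` are edges independently, with the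
probabilities `p e`. -/
noncomputable def indepLaw {n : ℕ} (p : Sym2 (Fin n) → ℝ) (G : SimpleGraph (Fin n)) : ℝ := by
  classical
  exact ∏ e : Sym2 (Fin n), if e.IsDiag then 1 else if e ∈ G.edgeSet then p e else 1 - p e

theorem indepLaw_eq {n : ℕ} (p : Sym2 (Fin n) → ℝ) (G : SimpleGraph (Fin n)) [DecidableRel G.Adj] :
    indepLaw p G = ∏ e : Sym2 (Fin n), if e.IsDiag then 1 else
      if e ∈ G.edgeSet then p e else 1 - p e := by
  unfold indepLaw
  refine Finset.prod_congr rfl fun e _ => ?_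
  congr

theorem indepLaw_indep {n : ℕ} {p : Sym2 (Fin n) → ℝ}
    (hp : ∀ e, ¬ e.IsDiag → 0 ≤ p e ∧ p e ≤ 1) : Indep p (indepLaw p) where
  nonneg G := by
    classical
    unfold indepLaw
    refine Finset.prod_nonneg fun e _ => ?_
    split_ifs with h1 h2
    · norm_num
    · exact (hp e h1).1
    · linarith [(hp e h1).2]
  sum := by
    classical
    let E : Finset (Sym2 (Fin n)) := univ.filter fun e => ¬ e.IsDiag
    have h0 : ∀ G : SimpleGraph (Fin n), indepLaw p G =
        ∏ e ∈ E, if e ∈ G.edgeSet then p e else 1 - p e := by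
      intro G
      unfold indepLaw
      rw [Finset.prod_filter]
      refine Finset.prod_congr rfl fun e _ => ?_
      by_cases h : e.IsDiag <;> simp [h]
    have h1 : ∏ e ∈ E, (p e + (1 - p e)) = 1 := Finset.prod_eq_one fun e _ => by ring
    rw [Finset.prod_add] at h1
    rw [← h1]
    refine Finset.sum_bij' (fun G _ => (univ.filter fun e => e ∈ G.edgeSet))
      (fun T _ => SimpleGraph.fromEdgeSet (T : Set (Sym2 (Fin n)))) ?_ ?_ ?_ ?_ ?_
    · intro G _
      rw [mem_powerset]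
      intro e he
      simp only [E, mem_filter, mem_univ, true_and] at he ⊢
      exact G.not_isDiag_of_mem_edgeSet he
    · intro T _
      exact mem_univ _
    · intro G _
      ext a b
      rw [SimpleGraph.fromEdgeSet_adj]
      simp only [coe_filter, mem_univ, true_and, SimpleGraph.mem_edgeSet, Set.mem_ofPred_eq]
      exact ⟨fun h => h.1, fun h => ⟨h, h.ne⟩⟩
    · intro T hT
      rw [mem_powerset] at hT
      ext e
      simp only [mem_filter, mem_univ, true_and, SimpleGraph.edgeSet_fromEdgeSet, Set.mem_sdiff,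
        Finset.mem_coe]
      constructor
      · exact fun h => h.1
      · intro h
        have := hT h
        simp only [E, mem_filter, mem_univ, true_and] at this
        exact ⟨h, this⟩
    · intro G _
      rw [h0, Finset.prod_ite]
      congr 1
      · refine Finset.prod_congr ?_ fun _ _ => rfl
        ext e
        simp only [E, mem_filter, mem_univ, true_and]
        exact ⟨fun h => h.2, fun h => ⟨G.not_isDiag_of_mem_edgeSet h, h⟩⟩
      · refine Finset.prod_congr ?_ fun _ _ => rfl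
        ext e
        simp only [E, mem_filter, mem_univ, true_and, mem_sdiff]
  cond G e he heG := by
    classical
    have h0 : ∀ H : SimpleGraph (Fin n), indepLaw p H =
        (if e.IsDiag then 1 else if e ∈ H.edgeSet then p e else 1 - p e) *
          ∏ e' ∈ univ.erase e, if e'.IsDiag then 1 else if e' ∈ H.edgeSet then p e' else 1 - p e' := by
      intro H
      rw [indepLaw_eq]
      exact (Finset.mul_prod_erase univ (fun e' : Sym2 (Fin n) => if e'.IsDiag then (1 : ℝ) else
        if e' ∈ H.edgeSet then p e' else 1 - p e') (mem_univ e)).symm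
    have h1 : ∏ e' ∈ univ.erase e, (if e'.IsDiag then (1 : ℝ) else
        if e' ∈ (flip e G).edgeSet then p e' else 1 - p e') =
        ∏ e' ∈ univ.erase e, (if e'.IsDiag then (1 : ℝ) else
          if e' ∈ G.edgeSet then p e' else 1 - p e') := by
      refine Finset.prod_congr rfl fun e' he' => ?_
      have hne : e' ≠ e := (mem_erase.1 he').1
      by_cases hd : e'.IsDiag
      · rw [if_pos hd, if_pos hd]
      · rw [if_neg hd, if_neg hd]
        have : e' ∈ (flip e G).edgeSet ↔ e' ∈ G.edgeSet := by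
          unfold flip
          rw [SimpleGraph.edgeSet_fromEdgeSet, Set.mem_sdiff, Set.mem_symmDiff,
            Set.mem_singleton_iff]
          constructor
          · rintro ⟨h2 | h2, _⟩
            · exact h2.1
            · exact absurd h2.1 hne
          · exact fun h2 => ⟨Or.inl ⟨h2, hne⟩, hd⟩
        simp only [this]
    rw [h0 G, h0 (flip e G), h1, if_neg he, if_pos heG, if_neg he,
      if_neg (by rw [mem_flip he, not_not]; exact heG)]
    ring

end Pool.Agent.N579.WL
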