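import Pool.Agent.N579.WL.Deg

/-!
# The upper bound for the number of graphs of large WL dimension
-/

set_option autoImplicit false

namespace Pool.Agent.N579.WL

open Finset Pool.Agent.W185.SRG

theorem central_even (m : ℕ) : (m.centralBinom) ^ 2 * (2 * m + 1) ≤ 16 ^ m := by
  induction m with
  | zero => simp
  | succ m ih =>
    have h1 := Nat.succ_mul_centralBinom_succ m
    -- (m+1) * cb (m+1) = 2 * (2m+1) * cb m
    have h2 : (m + 1) ^ 2 * ((m + 1).centralBinom ^ 2 * (2 * (m + 1) + 1)) ≤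
        (m + 1) ^ 2 * 16 ^ (m + 1) := by
      calc (m + 1) ^ 2 * ((m + 1).centralBinom ^ 2 * (2 * (m + 1) + 1))
          = ((m + 1) * (m + 1).centralBinom) ^ 2 * (2 * m + 3) := by ring
        _ = (2 * (2 * m + 1) * m.centralBinom) ^ 2 * (2 * m + 3) := by rw [h1]
        _ = (m.centralBinom ^ 2 * (2 * m + 1)) * (4 * ((2 * m + 1) * (2 * m + 3))) := by ring
        _ ≤ 16 ^ m * (4 * ((2 * m + 1) * (2 * m + 3))) := Nat.mul_le_mul_right _ ih
        _ ≤ 16 ^ m * (16 * (m + 1) ^ 2) := by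
            refine Nat.mul_le_mul_left _ ?_
            nlinarith
        _ = _ := by ring
    exact Nat.le_of_mul_le_mul_left h2 (by positivity)

theorem central (b : ℕ) : (b.choose (b / 2)) ^ 2 * (b + 1) ≤ 4 ^ b := by
  rcases Nat.even_or_odd' b with ⟨m, rfl | rfl⟩
  · have h1 := central_even m
    rw [Nat.mul_div_cancel_left _ (by norm_num)]
    rw [Nat.centralBinom_eq_two_mul_choose] at h1
    calc _ ≤ 16 ^ m := h1
      _ = 4 ^ (2 * m) := by rw [pow_mul]; norm_num
  · have h1 := central_even (m + 1)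
    have h2 : (2 * m + 1) / 2 = m := by omega
    rw [h2]
    have h3 : (m + 1).centralBinom = 2 * (2 * m + 1).choose m := by
      rw [Nat.centralBinom_eq_two_mul_choose]
      have h4 : 2 * (m + 1) = (2 * m + 1) + 1 := by ring
      rw [h4, Nat.choose_succ_succ' (2 * m + 1) m]
      have h5 : (2 * m + 1).choose (m + 1) = (2 * m + 1).choose m := by
        rw [← Nat.choose_symm_of_eq_add]
        omega
      omega
    rw [h3] at h1
    have h6 : (16 : ℕ) ^ (m + 1) = 4 * 4 ^ (2 * m + 1) := by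
      rw [show (16 : ℕ) = 4 ^ 2 by norm_num, ← pow_mul, ← pow_succ']
      congr 1
    rw [h6] at h1
    nlinarith [Nat.zero_le ((2 * m + 1).choose m ^ 2)]

/-- There are few graphs with few degrees. -/
theorem few_bound (n q a : ℕ) (ha : a ≤ n) (hq : q ^ 4 ≤ n - a + 1) :
    (Few n q).ncard ^ 4 * (n - a + 1) ^ a ≤ 16 ^ n * (2 ^ n.choose 2) ^ 4 := by
  obtain ⟨b, hb⟩ : ∃ b, b = n - a := ⟨_, rfl⟩
  rw [← hb] at hq ⊢
  have h1 := card_few n q a ha
  rw [← hb] at h1
  have h2 := central b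
  set F := (Few n q).ncard
  set M := 2 ^ n.choose 2
  set c := b.choose (b / 2)
  -- fourth powers
  have h3 : (F * 2 ^ (a * b)) ^ 4 ≤ (2 ^ n * (q * c) ^ a * M) ^ 4 := Nat.pow_le_pow_left h1 4
  have h4 : (c ^ 2 * (b + 1)) ^ (2 * a) ≤ (4 ^ b) ^ (2 * a) := Nat.pow_le_pow_left h2 _
  have h5 : (q ^ 4) ^ a ≤ (b + 1) ^ a := Nat.pow_le_pow_left hq a
  have h16 : (16 : ℕ) ^ n = (2 ^ n) ^ 4 := by
    rw [← pow_mul, mul_comm, pow_mul]
    norm_num
  have h44 : ((4 : ℕ) ^ b) ^ (2 * a) = 2 ^ (4 * (a * b)) := by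
    rw [← pow_mul, show (4 : ℕ) = 2 ^ 2 by norm_num, ← pow_mul]
    congr 1
    ring
  have h6 : (F ^ 4 * (b + 1) ^ a) * ((b + 1) ^ a * 2 ^ (4 * (a * b))) ≤
      (16 ^ n * M ^ 4) * ((b + 1) ^ a * 2 ^ (4 * (a * b))) := by
    calc (F ^ 4 * (b + 1) ^ a) * ((b + 1) ^ a * 2 ^ (4 * (a * b)))
        = (F * 2 ^ (a * b)) ^ 4 * (b + 1) ^ (2 * a) := by ring
      _ ≤ (2 ^ n * (q * c) ^ a * M) ^ 4 * (b + 1) ^ (2 * a) := Nat.mul_le_mul_right _ h3
      _ = (16 ^ n * M ^ 4) * ((q ^ 4) ^ a * (c ^ 2 * (b + 1)) ^ (2 * a)) := by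
          rw [h16, mul_pow (c ^ 2) (b + 1) (2 * a)]
          ring
      _ ≤ (16 ^ n * M ^ 4) * ((b + 1) ^ a * (4 ^ b) ^ (2 * a)) :=
          Nat.mul_le_mul_left _ (Nat.mul_le_mul h5 h4)
      _ = _ := by
          rw [h44]
  exact Nat.le_of_mul_le_mul_right h6 (by positivity)

/-- A graph is identified by the `k`-dimensional WL method. -/
def Identified {n : ℕ} (k : ℕ) (G : SimpleGraph (Fin n)) : Prop :=
  ∀ H : SimpleGraph (Fin n), WLEquivalent k G H → Nonempty (G ≃g H)

/-- A graph which is not identified has an equitable partition of large defect with many classes. -/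
theorem bad_of_not {n k : ℕ} (hk : 2 ≤ k) (hkn : k ≤ n) (G : SimpleGraph (Fin n))
    (hG : ¬ Identified k G) : ∃ ρ, EqM G ρ ∧ 1 ≤ defect ρ ∧ k ≤ 4 * defect ρ ∧
      (k - 2) / 2 + defect ρ ≤ n := by
  classical
  obtain ⟨j, hj⟩ : ∃ j, j = (k - 2) / 2 := ⟨_, rfl⟩
  rw [← hj]
  let I : Finset (Fin n) := univ.filter fun v => (v : ℕ) < j
  have hI : I.card = j := by
    have h1 : I = (univ : Finset (Fin j)).map ⟨Fin.castLE (by omega), Fin.castLE_injective _⟩ := by
      ext v
      simp only [I, mem_filter, mem_univ, true_and, mem_map, Function.Embedding.coeFn_mk]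
      constructor
      · exact fun h => ⟨⟨v, h⟩, by ext; simp⟩
      · rintro ⟨w, rfl⟩
        simp
    rw [h1, Finset.card_map, Finset.card_univ, Fintype.card_fin]
  obtain ⟨r, hr1, hr2, hr3⟩ := exists_coarsest G (I : Set (Fin n))
  obtain ⟨ρ, hρ, hrρ⟩ := exists_eqM hr1
  -- the vertices in nontrivial classes
  let N : Finset (Fin n) := univ \ sing ρ
  have hfix : ∀ v ∈ I, v ∈ sing ρ := by
    intro v hv
    have h1 : ∀ x, ρ x = ρ v → x = v := fun x hx => hr2 v hv x ((hrρ x v).2 hx)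
    have h2 : ρ v = v := h1 (ρ v) (hρ.idem v)
    rw [mem_sing]
    exact ⟨h2, fun x hx => h1 x (by rw [hx, h2])⟩
  have hN : k ≤ (I ∪ N).card + 1 := by
    by_contra hlt
    push Not at hlt
    apply hG
    intro H hw
    refine identified_of_base G H (I ∪ N) (by omega) ?_ hw
    intro r' h1 h2 x y hxy
    have h3 := hr3 r' h1 (fun f hf => h2 f (mem_union_left _ hf)) x y hxy
    by_cases hy : y ∈ sing ρ
    · have h4 := mem_sing.1 hy
      exact h4.2 x (by rw [(hrρ x y).1 h3, h4.1])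
    · exact h2 y (mem_union_right _ (mem_sdiff.2 ⟨mem_univ _, hy⟩)) x hxy
  have hNd : N.card ≤ 2 * defect ρ := by
    have h1 := card_sing ρ
    have h2 : N.card = n - (sing ρ).card := by
      rw [Finset.card_sdiff_of_subset (subset_univ _), Finset.card_univ, Fintype.card_fin]
    omega
  have hu := Finset.card_union_le I N
  have hjd : j + defect ρ ≤ n := by
    have h1 : I ⊆ univ.filter fun x => ρ x = x := by
      intro v hv
      simp only [mem_filter, mem_univ, true_and]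
      exact (mem_sing.1 (hfix v hv)).1
    have h2 := Finset.card_le_card h1
    have h3 := card_reps ρ
    omega
  refine ⟨ρ, hρ, ?_, ?_, hjd⟩ <;> omega

end Pool.Agent.N579.WL
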