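import Pool.Agent.N579.WL.Union
import Pool.Agent.N579.WL.Upper

/-!
# Random graphs with independent pairs: no equitable partition has few classes
-/

set_option autoImplicit false

namespace Pool.Agent.N579.WL

open Finset

/-- One random step. -/
def stp (p : ℝ) (f : ℕ → ℝ) (m : ℕ) : ℝ := (1 - p) * f m + p * f (m + 1)

/-- Several random steps. -/
def stps (ps : List ℝ) (f : ℕ → ℝ) : ℕ → ℝ := ps.foldr stp f

theorem stp_comm (p q : ℝ) (f : ℕ → ℝ) : stp p (stp q f) = stp q (stp p f) := by
  funext m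
  unfold stp
  ring

theorem stp_stps (p : ℝ) (ps : List ℝ) (f : ℕ → ℝ) : stp p (stps ps f) = stps ps (stp p f) := by
  induction ps with
  | nil => rfl
  | cons q ps ih =>
    show stp p (stp q (stps ps f)) = stp q (stps ps (stp p f))
    rw [stp_comm, ih]

theorem stp_half (t d m : ℕ) : (stp (1 / 2))^[t] (fun j => if j = d then 1 else 0) m =
    if m ≤ d then (t.choose (d - m) : ℝ) / 2 ^ t else 0 := by
  induction t generalizing m with
  | zero =>
    rw [Function.iterate_zero_apply, pow_zero, div_one]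
    by_cases h : m = d
    · rw [if_pos h, if_pos h.le, h, Nat.sub_self, Nat.choose_zero_right, Nat.cast_one]
    · rw [if_neg h]
      split_ifs with h1
      · rw [Nat.choose_eq_zero_of_lt (by omega), Nat.cast_zero]
      · rfl
  | succ t ih =>
    rw [Function.iterate_succ_apply']
    show (1 - 1 / 2) * _ + 1 / 2 * _ = _
    rw [ih, ih]
    rcases lt_trichotomy m d with h | h | h
    · obtain ⟨j, hj⟩ : ∃ j, d - m = j + 1 := ⟨d - m - 1, by omega⟩
      have h1 : d - (m + 1) = j := by omega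
      rw [if_pos (by omega), if_pos (by omega), if_pos (by omega), h1, hj, Nat.choose_succ_succ,
        pow_succ]
      push_cast
      field_simp
      ring
    · subst h
      rw [if_pos le_rfl, if_neg (by omega), if_pos le_rfl, Nat.sub_self, Nat.choose_zero_right,
        Nat.choose_zero_right, pow_succ]
      field_simp
      ring
    · rw [if_neg (by omega), if_neg (by omega), if_neg (by omega)]
      ring

theorem choose_le_sqrt (t j : ℕ) (l : ℝ) (hl : 0 < l) :
    (t.choose j : ℝ) / 2 ^ t ≤ l / 2 + 1 / (2 * l * (t + 1)) := by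
  have h1 := central t
  have h2 : ((t.choose j : ℕ) : ℝ) ≤ (t.choose (t / 2) : ℕ) := by
    exact_mod_cast Nat.choose_le_middle j t
  have h3 : ((t.choose (t / 2) : ℕ) : ℝ) ^ 2 * (t + 1) ≤ 4 ^ t := by exact_mod_cast h1
  set x : ℝ := ((t.choose (t / 2) : ℕ) : ℝ) / 2 ^ t with hx
  have hx0 : 0 ≤ x := by positivity
  have h4 : x ^ 2 * (t + 1) ≤ 1 := by
    rw [hx, div_pow, div_mul_eq_mul_div, div_le_one (by positivity)]
    calc _ ≤ (4 : ℝ) ^ t := h3
      _ = (2 ^ t) ^ 2 := by rw [← pow_mul, mul_comm, pow_mul]; norm_num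
  have h5 : (t.choose j : ℝ) / 2 ^ t ≤ x := by
    rw [hx]
    gcongr
  refine h5.trans ?_
  have ht : (0 : ℝ) < t + 1 := by positivity
  have h6 : x ^ 2 ≤ 1 / (t + 1) := by
    rw [le_div_iff₀ ht]
    exact h4
  have h7 : 1 / (2 * l * ((t : ℝ) + 1)) = 1 / (t + 1) / (2 * l) := by
    rw [div_div]
    congr 1
    ring
  rw [h7]
  have h8 : x ^ 2 / (2 * l) ≤ 1 / ((t : ℝ) + 1) / (2 * l) := by gcongr
  have h9 : x ≤ l / 2 + x ^ 2 / (2 * l) := by
    have : 0 ≤ (x - l) ^ 2 / (2 * l) := by positivity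
    have h10 : (x - l) ^ 2 / (2 * l) = l / 2 + x ^ 2 / (2 * l) - x := by
      field_simp
      ring
    linarith
  linarith

theorem stp_le {p : ℝ} (h0 : 0 ≤ p) (h1 : p ≤ 1) {f : ℕ → ℝ} {K : ℝ} (hf : ∀ m, f m ≤ K) (m : ℕ) :
    stp p f m ≤ K := by
  unfold stp
  nlinarith [hf m, hf (m + 1)]

theorem rat_ineq {δ y : ℝ} (hδ0 : 0 < δ) (hy : 1 ≤ y) :
    2 * δ * (1 / (y + 1)) + (1 - 2 * δ) * (1 / y) ≤ 1 / (y + δ) := by
  have h1 : 0 < y := by linarith
  have h2 : 0 < y + 1 := by linarith
  have h3 : 0 < y + δ := by linarith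
  have h4 : 1 / (y + δ) - (2 * δ * (1 / (y + 1)) + (1 - 2 * δ) * (1 / y)) =
      δ * (y - 1 + 2 * δ) / (y * (y + 1) * (y + δ)) := by
    field_simp
    ring
  have h5 : 0 ≤ δ * (y - 1 + 2 * δ) / (y * (y + 1) * (y + δ)) := by
    apply div_nonneg
    · apply mul_nonneg hδ0.le
      linarith
    · positivity
  linarith

/-- A point has small probability after many steps. -/
theorem stps_le {δ : ℝ} (hδ0 : 0 < δ) (l : ℝ) (hl : 0 < l) (d : ℕ)
    (ps : List ℝ) (hps : ∀ p ∈ ps, δ ≤ p ∧ p ≤ 1 - δ) (t m : ℕ) :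
    stps ps ((stp (1 / 2))^[t] (fun j => if j = d then 1 else 0)) m ≤
      l / 2 + 1 / (2 * l) * (1 / (δ * ps.length + (t + 1))) := by
  induction ps generalizing t m with
  | nil =>
    show (stp (1 / 2))^[t] (fun j => if j = d then 1 else 0) m ≤ _
    rw [stp_half]
    have h1 : 1 / (2 * l) * (1 / (δ * (([] : List ℝ).length : ℝ) + (t + 1))) =
        1 / (2 * l * (t + 1)) := by
      rw [List.length_nil, Nat.cast_zero, mul_zero, zero_add, div_mul_div_comm, one_mul]
    rw [h1]
    split_ifs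
    · exact choose_le_sqrt t _ l hl
    · positivity
  | cons p ps ih =>
    have hp := hps p List.mem_cons_self
    have ih' := ih fun q hq => hps q (List.mem_cons_of_mem _ hq)
    set f := (stp (1 / 2))^[t] (fun j => if j = d then (1 : ℝ) else 0) with hf
    set g := stps ps f with hg
    have h1 : stps (p :: ps) f = stp p g := rfl
    rw [h1]
    have h2 : stp (1 / 2) g = stps ps ((stp (1 / 2))^[t + 1] fun j => if j = d then 1 else 0) := by
      rw [hg, stp_stps, hf, Function.iterate_succ_apply']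
    set y : ℝ := δ * ps.length + (t + 1) with hy
    have hy1 : 1 ≤ y := by
      have : 0 ≤ δ * ps.length := by positivity
      have : (0 : ℝ) ≤ t := by positivity
      linarith
    have hgm : ∀ j, g j ≤ l / 2 + 1 / (2 * l) * (1 / y) := fun j => ih' t j
    have hgh : stp (1 / 2) g m ≤ l / 2 + 1 / (2 * l) * (1 / (y + 1)) := by
      rw [h2]
      refine (ih' (t + 1) m).trans (le_of_eq ?_)
      rw [hy]
      push_cast
      ring_nf
    -- p = 2 δ (1/2) + (1 - 2 δ) p'
    have h3 : stp p g m ≤ 2 * δ * stp (1 / 2) g m + (1 - 2 * δ) * (l / 2 + 1 / (2 * l) * (1 / y)) := by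
      have h4 : stp p g m = 2 * δ * stp (1 / 2) g m + ((1 - p - δ) * g m + (p - δ) * g (m + 1)) := by
        unfold stp
        ring
      rw [h4]
      have h5 : (1 - p - δ) * g m ≤ (1 - p - δ) * (l / 2 + 1 / (2 * l) * (1 / y)) :=
        mul_le_mul_of_nonneg_left (hgm m) (by linarith [hp.2])
      have h6 : (p - δ) * g (m + 1) ≤ (p - δ) * (l / 2 + 1 / (2 * l) * (1 / y)) :=
        mul_le_mul_of_nonneg_left (hgm (m + 1)) (by linarith [hp.1])
      nlinarith
    have h7 := rat_ineq hδ0 hy1
    have h8 : δ * (((p :: ps).length : ℕ) : ℝ) + (t + 1) = y + δ := by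
      rw [List.length_cons, hy]
      push_cast
      ring
    rw [h8]
    have h9 : 2 * δ * stp (1 / 2) g m ≤ 2 * δ * (l / 2 + 1 / (2 * l) * (1 / (y + 1))) :=
      mul_le_mul_of_nonneg_left hgh (by linarith)
    have h10 : 1 / (2 * l) * (2 * δ * (1 / (y + 1)) + (1 - 2 * δ) * (1 / y)) ≤
        1 / (2 * l) * (1 / (y + δ)) := mul_le_mul_of_nonneg_left h7 (by positivity)
    nlinarith

theorem stps_le' {δ : ℝ} (hδ0 : 0 < δ) (K : ℝ) (hK : 1 ≤ K) (d : ℕ)
    (ps : List ℝ) (hps : ∀ p ∈ ps, δ ≤ p ∧ p ≤ 1 - δ) (hb : K ^ 2 ≤ δ * ps.length) (m : ℕ) :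
    stps ps (fun j => if j = d then 1 else 0) m ≤ 1 / K := by
  have h1 := stps_le hδ0 (1 / K) (by positivity) d ps hps 0 m
  rw [Function.iterate_zero_apply] at h1
  refine h1.trans ?_
  have h2 : 1 / (δ * (ps.length : ℝ) + ((0 : ℕ) + 1)) ≤ 1 / K ^ 2 := by
    apply one_div_le_one_div_of_le (by positivity)
    push_cast
    linarith
  have h3 : 1 / (2 * (1 / K)) * (1 / (δ * (ps.length : ℝ) + ((0 : ℕ) + 1))) ≤
      1 / (2 * (1 / K)) * (1 / K ^ 2) := mul_le_mul_of_nonneg_left h2 (by positivity)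
  have h4 : 1 / K / 2 + 1 / (2 * (1 / K)) * (1 / K ^ 2) = 1 / K := by
    field_simp
    norm_num
  linarith

variable {n : ℕ}

/-- `W` is the law of the random graph in which the pairs `e` are edges independently, with the
probabilities `p e`. -/
structure Indep (p : Sym2 (Fin n) → ℝ) (W : SimpleGraph (Fin n) → ℝ) : Prop where
  nonneg : ∀ G, 0 ≤ W G
  sum : ∑ G, W G = 1
  cond : ∀ G (e : Sym2 (Fin n)), ¬ e.IsDiag → e ∈ G.edgeSet → W G = p e * (W G + W (flip e G))

theorem mem_flip {e : Sym2 (Fin n)} (he : ¬ e.IsDiag) {G : SimpleGraph (Fin n)} :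
    e ∈ (flip e G).edgeSet ↔ e ∉ G.edgeSet := by
  induction e using Sym2.ind with
  | h a b =>
    rw [Sym2.mk_isDiag_iff] at he
    rw [SimpleGraph.mem_edgeSet, SimpleGraph.mem_edgeSet, flip_adj]
    tauto

theorem Indep.law {p : Sym2 (Fin n) → ℝ} {W : SimpleGraph (Fin n) → ℝ} (hW : Indep p W)
    {δ : ℝ} (hp : ∀ e, ¬ e.IsDiag → δ ≤ p e ∧ p e ≤ 1 - δ) : Law δ W where
  nonneg := hW.nonneg
  sum := hW.sum
  cond G e he := by
    have h0 := hW.nonneg G
    have h0' := hW.nonneg (flip e G)
    by_cases h : e ∈ G.edgeSet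
    · have h1 := hW.cond G e he h
      have h2 : δ * (W G + W (flip e G)) ≤ p e * (W G + W (flip e G)) :=
        mul_le_mul_of_nonneg_right (hp e he).1 (by linarith)
      linarith
    · have h1 := hW.cond (flip e G) e he ((mem_flip he).2 h)
      rw [flip_flip] at h1
      have h2 : p e * (W (flip e G) + W G) ≤ (1 - δ) * (W (flip e G) + W G) :=
        mul_le_mul_of_nonneg_right (hp e he).2 (by linarith)
      linarith

open Classical in
/-- The number of neighbours outside of `B`. -/
noncomputable def dout (G : SimpleGraph (Fin n)) (v : Fin n) (B : Finset (Fin n)) : ℕ :=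
  (univ.filter fun w => G.Adj v w ∧ w ∉ B).card

/-- Averaging over one pair. -/
theorem Indep.step {p : Sym2 (Fin n) → ℝ} {W : SimpleGraph (Fin n) → ℝ} (hW : Indep p W)
    {v w : Fin n} (hvw : v ≠ w) (f : SimpleGraph (Fin n) → ℝ)
    (hf : ∀ G, f (flip s(v, w) G) = f G) (B : Finset (Fin n)) (hwB : w ∉ B) (φ : ℕ → ℝ) :
    ∑ G, W G * (f G * φ (dout G v B)) =
      ∑ G, W G * (f G * stp (p s(v, w)) φ (dout G v (insert w B))) := by
  classical
  have he : ¬ (s(v, w) : Sym2 (Fin n)).IsDiag := by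
    rw [Sym2.mk_isDiag_iff]
    exact hvw
  have hadj : ∀ G : SimpleGraph (Fin n), dout G v B =
      dout G v (insert w B) + if G.Adj v w then 1 else 0 := by
    intro G
    unfold dout
    have h1 : (univ.filter fun x => G.Adj v x ∧ x ∉ B) =
        (univ.filter fun x => G.Adj v x ∧ x ∉ insert w B) ∪ (if G.Adj v w then {w} else ∅) := by
      ext x
      simp only [mem_filter, mem_univ, true_and, mem_union, mem_insert, not_or]
      by_cases hx : x = w
      · subst hx
        by_cases h : G.Adj v x <;> simp [h, hwB]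
      · split_ifs <;> simp [hx]
    rw [h1, Finset.card_union_of_disjoint]
    · congr 1
      split_ifs <;> simp
    · rw [Finset.disjoint_left]
      intro x h2 h3
      simp only [mem_filter, mem_univ, true_and, mem_insert, not_or] at h2
      split_ifs at h3
      · exact h2.2.1 (mem_singleton.1 h3)
      · simp at h3
  have hinv : ∀ G : SimpleGraph (Fin n), dout (flip s(v, w) G) v (insert w B) =
      dout G v (insert w B) := by
    intro G
    unfold dout
    congr 1
    ext x
    simp only [mem_filter, mem_univ, true_and, mem_insert, not_or, flip_adj]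
    constructor
    · rintro ⟨⟨h1, h2⟩, h3, h4⟩
      refine ⟨h2.2 ?_, h3, h4⟩
      intro h5
      rw [Sym2.eq_iff] at h5
      rcases h5 with h5 | h5
      · exact h3 h5.2
      · exact hvw h5.1
    · rintro ⟨h2, h3, h4⟩
      refine ⟨⟨h2.ne, ⟨fun _ h5 => ?_, fun _ => h2⟩⟩, h3, h4⟩
      rw [Sym2.eq_iff] at h5
      rcases h5 with h5 | h5
      · exact h3 h5.2
      · exact hvw h5.1
  have key : ∀ F : SimpleGraph (Fin n) → ℝ, ∑ G, F G = (∑ G, (F G + F (flip s(v, w) G))) / 2 := by
    intro F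
    rw [Finset.sum_add_distrib]
    have : ∑ G, F (flip s(v, w) G) = ∑ G, F G := Equiv.sum_comp (flipE s(v, w)) F
    rw [this]
    ring
  rw [key (fun G => W G * (f G * φ (dout G v B))),
    key (fun G => W G * (f G * stp (p s(v, w)) φ (dout G v (insert w B))))]
  congr 1
  refine Finset.sum_congr rfl fun G _ => ?_
  simp only [hf, hinv]
  rw [hadj G, hadj (flip s(v, w) G), hinv]
  have h1 : (flip s(v, w) G).Adj v w ↔ ¬ G.Adj v w := by
    have := mem_flip he (G := G)
    rwa [SimpleGraph.mem_edgeSet, SimpleGraph.mem_edgeSet] at this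
  by_cases h : G.Adj v w
  · have h2 := hW.cond G s(v, w) he (by rwa [SimpleGraph.mem_edgeSet])
    rw [if_pos h, if_neg (by tauto), add_zero]
    unfold stp
    set S := W G + W (flip s(v, w) G) with hS
    have h3 : W (flip s(v, w) G) = (1 - p s(v, w)) * S := by
      rw [sub_mul, one_mul, ← h2, hS]
      ring
    rw [h3, h2]
    ring
  · have h2 := hW.cond (flip s(v, w) G) s(v, w) he (by rw [SimpleGraph.mem_edgeSet]; tauto)
    rw [flip_flip] at h2
    rw [if_neg h, if_pos (by tauto), add_zero]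
    unfold stp
    set S := W (flip s(v, w) G) + W G with hS
    have h3 : W G = (1 - p s(v, w)) * S := by
      rw [sub_mul, one_mul, ← h2, hS]
      ring
    rw [h3, h2]
    ring

/-- Averaging over the pairs of a vertex and the vertices of a set. -/
theorem Indep.steps {p : Sym2 (Fin n) → ℝ} {W : SimpleGraph (Fin n) → ℝ} (hW : Indep p W)
    {δ : ℝ} (hp : ∀ e, ¬ e.IsDiag → δ ≤ p e ∧ p e ≤ 1 - δ)
    {v : Fin n} (B : Finset (Fin n)) (hv : v ∉ B) (f : SimpleGraph (Fin n) → ℝ)
    (hf : ∀ w ∈ B, ∀ G, f (flip s(v, w) G) = f G) :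
    ∃ ps : List ℝ, ps.length = B.card ∧ (∀ q ∈ ps, δ ≤ q ∧ q ≤ 1 - δ) ∧ ∀ φ : ℕ → ℝ,
      ∑ G, W G * (f G * φ (dout G v ∅)) = ∑ G, W G * (f G * stps ps φ (dout G v B)) := by
  classical
  induction B using Finset.induction_on with
  | empty => exact ⟨[], rfl, fun q hq => absurd hq (by simp), fun φ => rfl⟩
  | insert w B hw ih =>
    obtain ⟨ps, h1, h2, h3⟩ := ih (fun h => hv (mem_insert_of_mem h))
      (fun w hw => hf w (mem_insert_of_mem hw))
    have hvw : v ≠ w := by
      rintro rfl
      exact hv (mem_insert_self _ _)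
    refine ⟨p s(v, w) :: ps, by rw [List.length_cons, h1, Finset.card_insert_of_notMem hw], ?_, ?_⟩
    · intro q hq
      rcases List.mem_cons.1 hq with rfl | hq
      · exact hp _ (by rw [Sym2.mk_isDiag_iff]; exact hvw)
      · exact h2 q hq
    · intro φ
      rw [h3 φ, hW.step hvw f (hf w (mem_insert_self _ _)) B hw (stps ps φ)]
      rfl

theorem Indep.point {p : Sym2 (Fin n) → ℝ} {W : SimpleGraph (Fin n) → ℝ} (hW : Indep p W)
    {δ : ℝ} (hδ0 : 0 < δ) (hp : ∀ e, ¬ e.IsDiag → δ ≤ p e ∧ p e ≤ 1 - δ)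
    {v : Fin n} (B : Finset (Fin n)) (hv : v ∉ B) (f : SimpleGraph (Fin n) → ℝ)
    (hf0 : ∀ G, 0 ≤ f G)
    (hf : ∀ w ∈ B, ∀ G, f (flip s(v, w) G) = f G) (K : ℝ) (hK : 1 ≤ K)
    (hKB : K ^ 2 ≤ δ * B.card) (d : ℕ) :
    ∑ G, W G * (f G * if dout G v ∅ = d then 1 else 0) ≤ 1 / K * ∑ G, W G * f G := by
  classical
  obtain ⟨ps, h1, h2, h3⟩ := hW.steps hp B hv f hf
  have h4 := h3 fun j => if j = d then 1 else 0
  rw [h4, Finset.mul_sum]
  refine Finset.sum_le_sum fun G _ => ?_
  have h5 := stps_le' hδ0 K hK d ps h2 (by rw [h1]; exact hKB) (dout G v B)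
  have h6 := hW.nonneg G
  have h7 := hf0 G
  calc W G * (f G * stps ps (fun j => if j = d then 1 else 0) (dout G v B))
      = (W G * f G) * stps ps (fun j => if j = d then 1 else 0) (dout G v B) := by ring
    _ ≤ (W G * f G) * (1 / K) := mul_le_mul_of_nonneg_left h5 (by positivity)
    _ = _ := by ring

open Classical in
/-- the factor of a vertex: `1` if the degree lies in `D` -/
noncomputable def gac (D : Finset ℕ) (η : ℝ) (G : SimpleGraph (Fin n)) (v : Fin n) : ℝ :=
  if dout G v ∅ ∈ D then 1 else η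

theorem dout_flip {G : SimpleGraph (Fin n)} {u v w : Fin n} (huv : u ≠ v) (huw : u ≠ w) :
    dout (flip s(v, w) G) u ∅ = dout G u ∅ := by
  unfold dout
  congr 1
  ext x
  simp only [mem_filter, mem_univ, true_and, flip_adj]
  have h1 : s(u, x) ≠ s(v, w) := by
    intro h
    rw [Sym2.eq_iff] at h
    rcases h with h | h
    · exact huv h.1
    · exact huw h.1
  have : G.Adj u x → u ≠ x := fun h => h.ne
  tauto

theorem Indep.all {p : Sym2 (Fin n) → ℝ} {W : SimpleGraph (Fin n) → ℝ} (hW : Indep p W)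
    {δ : ℝ} (hδ0 : 0 < δ) (hp : ∀ e, ¬ e.IsDiag → δ ≤ p e ∧ p e ≤ 1 - δ)
    (B : Finset (Fin n)) (K : ℝ) (hK : 1 ≤ K) (hKB : K ^ 2 ≤ δ * B.card) (D : Finset ℕ) (η : ℝ)
    (hη : 0 ≤ η) (A : Finset (Fin n)) (hA : Disjoint A B) :
    ∑ G, W G * ∏ v ∈ A, gac D η G v ≤ (η + D.card * (1 / K)) ^ A.card := by
  classical
  have hg0 : ∀ (G : SimpleGraph (Fin n)) (v : Fin n), 0 ≤ gac D η G v := by
    intro G v
    unfold gac
    split_ifs
    · norm_num
    · exact hη
  induction A using Finset.induction_on with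
  | empty => simp [hW.sum]
  | insert v A hv ih =>
    have hvB : v ∉ B := Finset.disjoint_left.1 hA (mem_insert_self v A)
    have hAB : Disjoint A B := hA.mono_left (Finset.subset_insert _ _)
    set f : SimpleGraph (Fin n) → ℝ := fun G => ∏ u ∈ A, gac D η G u with hf
    have hf0 : ∀ G, 0 ≤ f G := fun G => Finset.prod_nonneg fun u _ => hg0 G u
    have hfi : ∀ w ∈ B, ∀ G, f (flip s(v, w) G) = f G := by
      intro w hw G
      refine Finset.prod_congr rfl fun u hu => ?_
      have h1 : u ≠ v := by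
        rintro rfl
        exact hv hu
      have h2 : u ≠ w := by
        rintro rfl
        exact Finset.disjoint_left.1 hAB hu hw
      unfold gac
      rw [dout_flip h1 h2]
    have h1 : ∀ G, W G * ∏ u ∈ insert v A, gac D η G u ≤
        η * (W G * f G) + ∑ d ∈ D, W G * (f G * if dout G v ∅ = d then 1 else 0) := by
      intro G
      rw [Finset.prod_insert hv]
      have h2 : gac D η G v ≤ η + ∑ d ∈ D, if dout G v ∅ = d then (1 : ℝ) else 0 := by
        unfold gac
        rw [Finset.sum_ite_eq]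
        split_ifs
        · linarith
        · linarith
      have h3 : 0 ≤ W G * f G := mul_nonneg (hW.nonneg G) (hf0 G)
      calc W G * (gac D η G v * ∏ u ∈ A, gac D η G u) = (W G * f G) * gac D η G v := by
            rw [hf]
            ring
        _ ≤ (W G * f G) * (η + ∑ d ∈ D, if dout G v ∅ = d then (1 : ℝ) else 0) :=
            mul_le_mul_of_nonneg_left h2 h3
        _ = _ := by
            rw [mul_add, Finset.mul_sum, mul_comm (W G * f G) η]
            congr 1
            exact Finset.sum_congr rfl fun d _ => by ring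
    have h2 : ∑ G, W G * f G ≤ (η + D.card * (1 / K)) ^ A.card := ih hAB
    have h3 : 0 ≤ η + D.card * (1 / K) := by positivity
    calc ∑ G, W G * ∏ u ∈ insert v A, gac D η G u
        ≤ ∑ G, (η * (W G * f G) + ∑ d ∈ D, W G * (f G * if dout G v ∅ = d then 1 else 0)) :=
          Finset.sum_le_sum fun G _ => h1 G
      _ = η * ∑ G, W G * f G + ∑ d ∈ D, ∑ G, W G * (f G * if dout G v ∅ = d then 1 else 0) := by
          rw [Finset.sum_add_distrib, Finset.mul_sum, Finset.sum_comm]
      _ ≤ η * ∑ G, W G * f G + ∑ d ∈ D, 1 / K * ∑ G, W G * f G := by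
          gcongr with d hd
          exact hW.point hδ0 hp B hvB f hf0 hfi K hK hKB d
      _ = (η + D.card * (1 / K)) * ∑ G, W G * f G := by
          rw [Finset.sum_const, nsmul_eq_mul]
          ring
      _ ≤ (η + D.card * (1 / K)) * (η + D.card * (1 / K)) ^ A.card :=
          mul_le_mul_of_nonneg_left h2 h3
      _ = _ := by
          rw [Finset.card_insert_of_notMem hv, pow_succ']

theorem dout_eq (G : SimpleGraph (Fin n)) (v : Fin n) : dout G v ∅ = (nb G v).card := by
  classical
  unfold dout nb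
  congr 1
  ext x
  simp

/-- At most `2 dist G H` vertices have different degrees in `G` and `H`. -/
theorem card_changed (G H : SimpleGraph (Fin n)) :
    (univ.filter fun v => dout G v ∅ ≠ dout H v ∅).card ≤ 2 * dist G H := by
  classical
  have h1 : (univ.filter fun v => dout G v ∅ ≠ dout H v ∅) ⊆
      (symmDiff G.edgeSet H.edgeSet).toFinset.biUnion fun e => univ.filter fun v => v ∈ e := by
    intro v hv
    simp only [mem_filter, mem_univ, true_and] at hv
    simp only [mem_biUnion, Set.mem_toFinset, mem_filter, mem_univ, true_and]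
    by_contra hcon
    push Not at hcon
    apply hv
    unfold dout
    congr 1
    ext w
    simp only [mem_filter, mem_univ, true_and]
    refine and_congr_left fun _ => ?_
    have h2 : s(v, w) ∉ symmDiff G.edgeSet H.edgeSet := fun h => hcon _ h (Sym2.mem_mk_left v w)
    rw [Set.mem_symmDiff, SimpleGraph.mem_edgeSet, SimpleGraph.mem_edgeSet] at h2
    tauto
  refine (Finset.card_le_card h1).trans (Finset.card_biUnion_le.trans ?_)
  have h2 : ∀ e ∈ (symmDiff G.edgeSet H.edgeSet).toFinset,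
      (univ.filter fun v => v ∈ e).card ≤ 2 := by
    intro e _
    induction e using Sym2.ind with
    | h a b =>
      have h3 : (univ.filter fun v => v ∈ s(a, b)) ⊆ {a, b} := by
        intro v hv
        simp only [mem_filter, mem_univ, true_and, Sym2.mem_iff] at hv
        simp only [mem_insert, mem_singleton]
        exact hv
      exact (Finset.card_le_card h3).trans Finset.card_le_two
  refine (Finset.sum_le_sum h2).trans ?_
  rw [Finset.sum_const, smul_eq_mul, mul_comm]
  refine Nat.mul_le_mul_left _ (le_of_eq ?_)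
  unfold dist
  rw [Set.ncard_eq_toFinset_card']

/-- The graphs near to a graph with few degrees. -/
theorem Indep.few {p : Sym2 (Fin n) → ℝ} {W : SimpleGraph (Fin n) → ℝ} (hW : Indep p W)
    {δ : ℝ} (hδ0 : 0 < δ) (hp : ∀ e, ¬ e.IsDiag → δ ≤ p e ∧ p e ≤ 1 - δ)
    (A B : Finset (Fin n)) (hA : Disjoint A B) (q : ℕ) (K : ℝ) (hK : 1 ≤ K)
    (hKB : K ^ 2 ≤ δ * B.card) (η : ℝ) (hη : 0 < η) (hη1 : η ≤ 1) (s : ℕ) :
    prob W {G | ∃ H, H ∈ Few n q ∧ dist G H ≤ s} ≤
      2 ^ n * ((1 / η) ^ (2 * s) * (η + q * (1 / K)) ^ A.card) := by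
  classical
  have hg0 : ∀ D G v, 0 ≤ gac (n := n) D η G v := by
    intro D G v
    unfold gac
    split_ifs
    · norm_num
    · exact hη.le
  let 𝓓 := (Finset.range n).powerset.filter fun D => D.card ≤ q
  have hsub : {G : SimpleGraph (Fin n) | ∃ H, H ∈ Few n q ∧ dist G H ≤ s} ⊆
      ⋃ D ∈ 𝓓, {G | η ^ (2 * s) ≤ ∏ v ∈ A, gac D η G v} := by
    rintro G ⟨H, hH, hs⟩
    simp only [Set.mem_iUnion]
    refine ⟨univ.image fun v => (nb H v).card, ?_, ?_⟩
    · simp only [𝓓, mem_filter, mem_powerset]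
      refine ⟨?_, hH⟩
      intro x hx
      obtain ⟨v, _, rfl⟩ := Finset.mem_image.1 hx
      rw [Finset.mem_range]
      have h2 : nb H v ⊆ univ.erase v := by
        intro w hw
        rw [mem_erase]
        exact ⟨(mem_nb.1 hw).ne', mem_univ _⟩
      have h3 := Finset.card_le_card h2
      rw [Finset.card_erase_of_mem (mem_univ _), Finset.card_univ, Fintype.card_fin] at h3
      have := v.2
      omega
    · show η ^ (2 * s) ≤ _
      set D := univ.image fun v => (nb H v).card
      have h1 : ∏ v ∈ A, gac D η G v = ∏ v ∈ A.filter (fun v => dout G v ∅ ∉ D), η := by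
        rw [Finset.prod_filter]
        refine Finset.prod_congr rfl fun v _ => ?_
        unfold gac
        by_cases h : dout G v ∅ ∈ D <;> simp [h]
      rw [h1, Finset.prod_const]
      refine pow_le_pow_of_le_one hη.le hη1 ?_
      have h2 : A.filter (fun v => dout G v ∅ ∉ D) ⊆
          univ.filter fun v => dout G v ∅ ≠ dout H v ∅ := by
        intro v hv
        simp only [mem_filter] at hv
        simp only [mem_filter, mem_univ, true_and]
        intro h
        apply hv.2
        rw [h, dout_eq]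
        exact Finset.mem_image_of_mem _ (mem_univ v)
      have h3 := (Finset.card_le_card h2).trans (card_changed G H)
      omega
  refine (prob_mono hW.nonneg hsub).trans ((prob_biUnion_le hW.nonneg _ _).trans ?_)
  have hone : ∀ D ∈ 𝓓, prob W {G | η ^ (2 * s) ≤ ∏ v ∈ A, gac D η G v} ≤
      (1 / η) ^ (2 * s) * (η + q * (1 / K)) ^ A.card := by
    intro D hD
    have hDq : D.card ≤ q := (mem_filter.1 hD).2
    have h1 := hW.all hδ0 hp B K hK hKB D η hη.le A hA
    have h2 : (η + (D.card : ℝ) * (1 / K)) ^ A.card ≤ (η + q * (1 / K)) ^ A.card := by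
      have : (D.card : ℝ) ≤ q := by exact_mod_cast hDq
      gcongr
    refine le_trans ?_ (mul_le_mul_of_nonneg_left (h1.trans h2) (by positivity))
    unfold prob
    rw [Finset.mul_sum]
    refine Finset.sum_le_sum fun G _ => ?_
    have h3 : 0 ≤ ∏ v ∈ A, gac D η G v := Finset.prod_nonneg fun v _ => hg0 D G v
    by_cases hG : η ^ (2 * s) ≤ ∏ v ∈ A, gac D η G v
    · rw [Set.indicator_of_mem (by exact hG)]
      have h4 : (1 : ℝ) ≤ (1 / η) ^ (2 * s) * ∏ v ∈ A, gac D η G v := by
        calc (1 : ℝ) = (1 / η) ^ (2 * s) * η ^ (2 * s) := by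
              rw [← mul_pow, one_div_mul_cancel hη.ne', one_pow]
          _ ≤ _ := mul_le_mul_of_nonneg_left hG (by positivity)
      calc W G = W G * 1 := (mul_one _).symm
        _ ≤ W G * ((1 / η) ^ (2 * s) * ∏ v ∈ A, gac D η G v) :=
          mul_le_mul_of_nonneg_left h4 (hW.nonneg G)
        _ = _ := by ring
    · rw [Set.indicator_of_notMem (by exact hG)]
      exact mul_nonneg (by positivity) (mul_nonneg (hW.nonneg G) h3)
  refine (Finset.sum_le_sum hone).trans ?_
  rw [Finset.sum_const, nsmul_eq_mul]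
  refine mul_le_mul_of_nonneg_right ?_ (by positivity)
  have h1 : 𝓓.card ≤ 2 ^ n := by
    refine (Finset.card_filter_le _ _).trans ?_
    rw [Finset.card_powerset, Finset.card_range]
  exact_mod_cast h1

end Pool.Agent.N579.WL
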